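import Mathlib

/-!
# Linear pencils evaluated at generic matrices
-/

namespace Pool.Agent.H7.NC

open Matrix MvPolynomial
open scoped Kronecker

set_option linter.unusedSectionVars false
set_option linter.unusedFintypeInType false
set_option linter.unusedDecidableInType false

universe u v

noncomputable section

section Gen

variable {ι : Type} [Fintype ι] {n m m' n' : Type} [Fintype n] [DecidableEq n] [Fintype m]
  [DecidableEq m] [Fintype m'] [DecidableEq m'] [Fintype n'] [DecidableEq n']

/-- The Kronecker sum `∑ l, A l ⊗ T l`. -/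
def ks {R : Type*} [CommRing R] (A : ι → Matrix n n R) (T : ι → Matrix m m R) :
    Matrix (n × m) (n × m) R :=
  ∑ l, A l ⊗ₖ T l

theorem ks_apply {R : Type*} [CommRing R] (A : ι → Matrix n n R) (T : ι → Matrix m m R)
    (x y : n × m) : ks A T x y = ∑ l, A l x.1 y.1 * T l x.2 y.2 := by
  simp only [ks, Matrix.sum_apply, kroneckerMap_apply]

theorem ks_map {R S : Type*} [CommRing R] [CommRing S] (f : R →+* S) (A : ι → Matrix n n R)
    (T : ι → Matrix m m R) :
    (ks A T).map f = ks (fun l => (A l).map f) (fun l => (T l).map f) := by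
  ext x y
  simp only [Matrix.map_apply, ks_apply, map_sum, map_mul]

/-- Some evaluation at matrices of size `m` is invertible. -/
def PF {R : Type*} [CommRing R] (m : Type) [Fintype m] [DecidableEq m] (A : ι → Matrix n n R) :
    Prop :=
  ∃ T : ι → Matrix m m R, (ks A T).det ≠ 0

/-- The determinant of the evaluation at generic matrices. -/
def Dl {K : Type u} [CommRing K] (m : Type) [Fintype m] [DecidableEq m] (A : ι → Matrix n n K) :
    MvPolynomial (ι × m × m) K :=
  (ks (fun l => (A l).map C) (fun l => of fun a b => X (l, a, b))).det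

theorem eval_Dl {K : Type u} [CommRing K] {S : Type v} [CommRing S] (f : K →+* S)
    (A : ι → Matrix n n K) (p : ι × m × m → S) :
    eval₂Hom f p (Dl m A) =
      (ks (fun l => (A l).map f) (fun l => of fun a b => p (l, a, b))).det := by
  rw [Dl, RingHom.map_det, RingHom.mapMatrix_apply, ks_map]
  congr 2
  · funext l
    ext i j
    simp
  · funext l
    ext i j
    simp

theorem eval_Dl' {K : Type u} [CommRing K] (A : ι → Matrix n n K) (p : ι × m × m → K) :
    eval p (Dl m A) = (ks A (fun l => of fun a b => p (l, a, b))).det := by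
  have h1 := eval_Dl (RingHom.id K) A p
  have h2 : (fun l => (A l).map (RingHom.id K)) = A := by
    funext l
    ext i j
    simp
  rw [h2] at h1
  exact h1

theorem Dl_ne_zero_of {K : Type u} [CommRing K] {S : Type v} [CommRing S] (f : K →+* S)
    {A : ι → Matrix n n K} (h : PF m fun l => (A l).map f) : Dl m A ≠ 0 := by
  obtain ⟨T, hT⟩ := h
  intro h0
  apply hT
  have h1 := eval_Dl f A (fun q : ι × m × m => T q.1 q.2.1 q.2.2)
  rw [h0, map_zero] at h1
  exact h1.symm

theorem exists_eval_ne_zero {K : Type u} [Field K] [Infinite K] {σ : Type*}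
    {q : MvPolynomial σ K} (hq : q ≠ 0) : ∃ p : σ → K, eval p q ≠ 0 := by
  by_contra hcon
  push Not at hcon
  apply hq
  apply MvPolynomial.funext
  intro p
  rw [hcon p, map_zero]

theorem PF_of_Dl {K : Type u} [Field K] [Infinite K] {A : ι → Matrix n n K} (h : Dl m A ≠ 0) :
    PF m A := by
  obtain ⟨p, hp⟩ := exists_eval_ne_zero h
  rw [eval_Dl'] at hp
  exact ⟨_, hp⟩

theorem PF_of_map {K : Type u} [Field K] [Infinite K] {S : Type v} [CommRing S] (f : K →+* S)
    {A : ι → Matrix n n K} (h : PF m fun l => (A l).map f) : PF m A :=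
  PF_of_Dl (Dl_ne_zero_of f h)

theorem Dl_ne_zero {K : Type u} [CommRing K] {A : ι → Matrix n n K} (h : PF m A) :
    Dl m A ≠ 0 := by
  apply Dl_ne_zero_of (RingHom.id K)
  have h2 : (fun l => (A l).map (RingHom.id K)) = A := by
    funext l
    ext i j
    simp
  rw [h2]
  exact h

/-- Two pencils are invertible at a common point, with a prescribed argument invertible. -/
theorem exists_common {K : Type u} [Field K] [Infinite K] {A : ι → Matrix n n K}
    {B : ι → Matrix n' n' K} (hA : PF m A) (hB : PF m B) :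
    ∃ T : ι → Matrix m m K, (ks A T).det ≠ 0 ∧ (ks B T).det ≠ 0 := by
  obtain ⟨p, hp⟩ := exists_eval_ne_zero (mul_ne_zero (Dl_ne_zero hA) (Dl_ne_zero hB))
  rw [map_mul, eval_Dl', eval_Dl'] at hp
  exact ⟨_, left_ne_zero_of_mul hp, right_ne_zero_of_mul hp⟩

theorem ks_reindex {R : Type*} [CommRing R] (e : m ≃ m') (A : ι → Matrix n n R)
    (T : ι → Matrix m m R) :
    ks A (fun l => (T l).submatrix e.symm e.symm) =
      (ks A T).submatrix (Equiv.prodCongr (Equiv.refl n) e).symm
        (Equiv.prodCongr (Equiv.refl n) e).symm := by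
  ext x y
  simp only [ks_apply, Matrix.submatrix_apply]
  rfl

theorem PF_equiv {R : Type*} [CommRing R] (e : m ≃ m') {A : ι → Matrix n n R} (h : PF m A) :
    PF m' A := by
  obtain ⟨T, hT⟩ := h
  refine ⟨fun l => (T l).submatrix e.symm e.symm, ?_⟩
  rw [ks_reindex, det_submatrix_equiv_self]
  exact hT

/-- Reindexing and multiplying by invertible matrices. -/
theorem PF_of_equiv {K : Type u} [Field K] {A : ι → Matrix n n K} {B : ι → Matrix n' n' K}
    (g : Matrix n n' K) (h : Matrix n' n K) (g' : Matrix n' n K) (h' : Matrix n n' K)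
    (hgg' : g * g' = 1) (hg'g : g' * g = 1) (hhh' : h * h' = 1) (hh'h : h' * h = 1)
    (hB : ∀ l, B l = h * A l * g) (hPF : PF m B) : PF m A := by
  obtain ⟨T, hT⟩ := hPF
  refine ⟨T, ?_⟩
  intro h0
  apply hT
  have h1 : ks B T = (h ⊗ₖ (1 : Matrix m m K)) * ks A T * (g ⊗ₖ (1 : Matrix m m K)) := by
    simp only [ks, Matrix.mul_sum, Matrix.sum_mul]
    refine Finset.sum_congr rfl fun l _ => ?_
    rw [hB l, ← Matrix.mul_kronecker_mul, Matrix.one_mul, ← Matrix.mul_kronecker_mul,
      Matrix.mul_one]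
  obtain ⟨v, hv, hv0⟩ := Matrix.exists_mulVec_eq_zero_iff.2 h0
  apply Matrix.exists_mulVec_eq_zero_iff.1
  refine ⟨(g' ⊗ₖ (1 : Matrix m m K)) *ᵥ v, ?_, ?_⟩
  · intro h2
    apply hv
    have h3 : (g ⊗ₖ (1 : Matrix m m K)) *ᵥ ((g' ⊗ₖ (1 : Matrix m m K)) *ᵥ v) = 0 := by
      rw [h2, mulVec_zero]
    rw [mulVec_mulVec, ← Matrix.mul_kronecker_mul, hgg', Matrix.one_mul,
      Matrix.one_kronecker_one, one_mulVec] at h3
    exact h3
  · rw [h1, ← mulVec_mulVec, mulVec_mulVec _ (g ⊗ₖ _), ← Matrix.mul_kronecker_mul, hgg',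
      Matrix.one_mul, Matrix.one_kronecker_one, one_mulVec, ← mulVec_mulVec, hv0, mulVec_zero]

/-- The determinant of a block triangular pencil. -/
theorem det_ks_fromBlocks {R : Type*} [CommRing R] (A : ι → Matrix n n R)
    (B : ι → Matrix n n' R) (D : ι → Matrix n' n' R) (T : ι → Matrix m m R) :
    (ks (fun l => fromBlocks (A l) (B l) 0 (D l)) T).det = (ks A T).det * (ks D T).det := by
  rw [← det_submatrix_equiv_self (Equiv.sumProdDistrib n n' m).symm]
  rw [← det_fromBlocks_zero₂₁ (ks A T) (of fun x y => ∑ l, B l x.1 y.1 * T l x.2 y.2) (ks D T)]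
  congr 1
  ext x y
  rcases x with x | x <;> rcases y with y | y <;>
    simp [ks_apply, Equiv.sumProdDistrib]

theorem ks_kron_one {R : Type*} [CommRing R] (A : ι → Matrix n n R) (T : ι → Matrix m m R) :
    ks A (fun l => T l ⊗ₖ (1 : Matrix m' m' R)) =
      (ks A T ⊗ₖ (1 : Matrix m' m' R)).submatrix (Equiv.prodAssoc n m m').symm
        (Equiv.prodAssoc n m m').symm := by
  ext x y
  simp only [ks_apply, Matrix.submatrix_apply, kroneckerMap_apply, Equiv.prodAssoc_symm_apply,
    Finset.sum_mul, mul_assoc]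

theorem PF_mul_right {R : Type*} [CommRing R] [IsDomain R] {A : ι → Matrix n n R} (h : PF m A) :
    PF (m × m') A := by
  obtain ⟨T, hT⟩ := h
  refine ⟨fun l => T l ⊗ₖ (1 : Matrix m' m' R), ?_⟩
  rw [ks_kron_one, det_submatrix_equiv_self, det_kronecker]
  simp [hT]

theorem PF_mul_left {R : Type*} [CommRing R] [IsDomain R] {A : ι → Matrix n n R} (h : PF m A) :
    PF (m' × m) A :=
  PF_equiv (Equiv.prodComm m m') (PF_mul_right h)

end Gen

end

end Pool.Agent.H7.NC
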