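import Mathlib

/-!
# Linear algebra for the noncommutative rank theorem
-/

namespace Pool.Agent.H7.NC

open Matrix

set_option linter.unusedSectionVars false
set_option linter.unusedFintypeInType false
set_option linter.unusedDecidableInType false

universe u v

noncomputable section

variable {K : Type u} [Field K] {n m : Type} [Fintype n] [DecidableEq n] [Fintype m]
  [DecidableEq m]

theorem toMatrix'_mulVecLin (M : Matrix n m K) : LinearMap.toMatrix' M.mulVecLin = M :=
  LinearMap.toMatrix'_toLin' M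

/-- A matrix whose columns form a basis of a given subspace. -/
theorem exists_basis_matrix (Z : Submodule K (n → K)) :
    ∃ (W : Matrix n (Fin (Module.finrank K Z)) K) (W' : Matrix (Fin (Module.finrank K Z)) n K),
      W' * W = 1 ∧ ∀ v, v ∈ Z ↔ ∃ y, v = W *ᵥ y := by
  obtain ⟨b⟩ : Nonempty (Module.Basis (Fin (Module.finrank K Z)) K Z) :=
    ⟨Module.finBasis K Z⟩
  have hW : ∀ y : Fin (Module.finrank K Z) → K,
      (of fun i α => (b α).1 i : Matrix n (Fin (Module.finrank K Z)) K) *ᵥ y =
        ((∑ α, y α • b α : Z) : n → K) := by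
    intro y
    ext i
    simp only [mulVec, dotProduct, of_apply, AddSubmonoidClass.coe_finsetSum, SetLike.val_smul,
      Finset.sum_apply, Pi.smul_apply, smul_eq_mul]
    exact Finset.sum_congr rfl fun α _ => mul_comm _ _
  have hinj : LinearMap.ker (Matrix.mulVecLin
      (of fun i α => (b α).1 i : Matrix n (Fin (Module.finrank K Z)) K)) = ⊥ := by
    rw [LinearMap.ker_eq_bot']
    intro y hy
    rw [Matrix.mulVecLin_apply, hW] at hy
    have h1 : ∑ α, y α • b α = 0 := Subtype.ext hy
    funext α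
    exact Fintype.linearIndependent_iff.1 b.linearIndependent y h1 α
  obtain ⟨g, hg⟩ := LinearMap.exists_leftInverse_of_injective _ hinj
  refine ⟨of fun i α => (b α).1 i, LinearMap.toMatrix' g, ?_, ?_⟩
  · have h1 := congrArg LinearMap.toMatrix' hg
    rw [LinearMap.toMatrix'_comp, LinearMap.toMatrix'_id, toMatrix'_mulVecLin] at h1
    exact h1
  · intro v
    constructor
    · intro hv
      refine ⟨fun α => b.repr ⟨v, hv⟩ α, ?_⟩
      rw [hW]
      have := b.sum_repr ⟨v, hv⟩
      exact (congrArg Subtype.val this).symm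
    · rintro ⟨y, rfl⟩
      rw [hW]
      exact Subtype.mem _

/-- Completing a matrix with independent columns to an invertible matrix. -/
theorem exists_compl {α : Type} [Fintype α] [DecidableEq α] (P : Matrix n α K) (P' : Matrix α n K)
    (h : P' * P = 1) :
    ∃ (k : ℕ) (g : Matrix n (α ⊕ Fin k) K) (g' : Matrix (α ⊕ Fin k) n K),
      g * g' = 1 ∧ g' * g = 1 ∧ (∀ i a, g i (Sum.inl a) = P i a) ∧
        Fintype.card n = Fintype.card α + k := by
  obtain ⟨C, hC⟩ := Submodule.exists_isCompl (LinearMap.range P.mulVecLin)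
  obtain ⟨W, W', hW, hWC⟩ := exists_basis_matrix C
  let k := Module.finrank K C
  let g : Matrix n (α ⊕ Fin k) K := fromCols P W
  have hg : ∀ y : α ⊕ Fin k → K, g *ᵥ y = P *ᵥ (y ∘ Sum.inl) + W *ᵥ (y ∘ Sum.inr) := by
    intro y
    exact fromCols_mulVec P W y
  have hinj : Function.Injective g.mulVecLin := by
    rw [← LinearMap.ker_eq_bot, LinearMap.ker_eq_bot']
    intro y hy
    rw [Matrix.mulVecLin_apply, hg] at hy
    have h1 : P *ᵥ (y ∘ Sum.inl) ∈ LinearMap.range P.mulVecLin ⊓ C := by
      refine ⟨⟨_, rfl⟩, ?_⟩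
      rw [eq_neg_of_add_eq_zero_left hy]
      exact C.neg_mem ((hWC _).2 ⟨_, rfl⟩)
    rw [hC.inf_eq_bot, Submodule.mem_bot] at h1
    have h2 : W *ᵥ (y ∘ Sum.inr) = 0 := by
      rw [h1, zero_add] at hy
      exact hy
    have h3 : y ∘ Sum.inl = 0 := by
      rw [← one_mulVec (y ∘ Sum.inl), ← h, ← mulVec_mulVec, h1, mulVec_zero]
    have h4 : y ∘ Sum.inr = 0 := by
      rw [← one_mulVec (y ∘ Sum.inr), ← hW, ← mulVec_mulVec, h2, mulVec_zero]
    funext s
    rcases s with s | s
    · exact congrFun h3 s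
    · exact congrFun h4 s
  have hsurj : Function.Surjective g.mulVecLin := by
    intro v
    have hv : v ∈ LinearMap.range P.mulVecLin ⊔ C := by
      rw [hC.sup_eq_top]
      trivial
    obtain ⟨a, ⟨x, hx⟩, c, hc, rfl⟩ := Submodule.mem_sup.1 hv
    obtain ⟨y, rfl⟩ := (hWC c).1 hc
    refine ⟨Sum.elim x y, ?_⟩
    rw [Matrix.mulVecLin_apply, hg, ← hx]
    rfl
  let e := LinearEquiv.ofBijective g.mulVecLin ⟨hinj, hsurj⟩
  have he1 : g.mulVecLin ∘ₗ (e.symm : (n → K) →ₗ[K] (α ⊕ Fin k → K)) = LinearMap.id := by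
    ext1 v
    ext1
    simp only [LinearMap.comp_apply, LinearMap.id_apply]
    exact e.apply_symm_apply _
  have he2 : (e.symm : (n → K) →ₗ[K] (α ⊕ Fin k → K)) ∘ₗ g.mulVecLin = LinearMap.id := by
    ext1 v
    ext1
    simp only [LinearMap.comp_apply, LinearMap.id_apply]
    exact e.symm_apply_apply _
  refine ⟨k, g, LinearMap.toMatrix' (e.symm : (n → K) →ₗ[K] (α ⊕ Fin k → K)), ?_, ?_, ?_, ?_⟩
  · have h1 := congrArg LinearMap.toMatrix' he1
    rw [LinearMap.toMatrix'_comp, LinearMap.toMatrix'_id, toMatrix'_mulVecLin] at h1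
    exact h1
  · have h1 := congrArg LinearMap.toMatrix' he2
    rw [LinearMap.toMatrix'_comp, LinearMap.toMatrix'_id, toMatrix'_mulVecLin] at h1
    exact h1
  · intro i a
    rfl
  · have h1 := e.finrank_eq
    simp only [Module.finrank_pi, Fintype.card_sum, Fintype.card_fin] at h1
    exact h1.symm

/-- Rank factorisation. -/
theorem rank_factor (V : Matrix n m K) :
    ∃ (ρ : ℕ) (P : Matrix n (Fin ρ) K) (P' : Matrix (Fin ρ) n K) (U : Matrix (Fin ρ) m K)
      (U' : Matrix m (Fin ρ) K), V = P * U ∧ P' * P = 1 ∧ U * U' = 1 := by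
  obtain ⟨P, P', h1, h2⟩ := exists_basis_matrix (LinearMap.range V.mulVecLin)
  have h3 : ∀ a : m, ∃ y, V *ᵥ Pi.single a 1 = P *ᵥ y := fun a => (h2 _).1 ⟨_, rfl⟩
  choose U hU using h3
  have h4 : ∀ α, ∃ x, V *ᵥ x = P *ᵥ Pi.single α 1 := by
    intro α
    obtain ⟨x, hx⟩ := (h2 (P *ᵥ Pi.single α 1)).2 ⟨_, rfl⟩
    exact ⟨x, hx⟩
  choose U' hU' using h4
  have e1 : V = P * (of fun α a => U a α) := by
    ext i a
    have := congrFun (hU a) i
    rw [mulVec_single_one] at this
    exact this
  refine ⟨_, P, P', of fun α a => U a α, of fun a α => U' α a, e1, h1, ?_⟩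
  have e2 : P * ((of fun α a => U a α) * (of fun a α => U' α a)) = P := by
    rw [← Matrix.mul_assoc, ← e1]
    ext i α
    have := congrFun (hU' α) i
    rw [mulVec_single_one] at this
    exact this
  calc (of fun α a => U a α) * (of fun a α => U' α a)
      = P' * P * ((of fun α a => U a α) * (of fun a α => U' α a)) := by rw [h1, Matrix.one_mul]
    _ = 1 := by rw [Matrix.mul_assoc, e2, h1]

/-- A family of square matrices is hollow if up to equivalence its members share a block of zeros
which is too large. -/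
def Hol {ι : Type} (A : ι → Matrix n n K) : Prop :=
  ∃ (α β : Type) (_ : Fintype α) (_ : Fintype β) (_ : DecidableEq α) (_ : DecidableEq β)
    (P : Matrix α n K) (P' : Matrix n α K) (Q : Matrix n β K) (Q' : Matrix β n K),
    P * P' = 1 ∧ Q' * Q = 1 ∧ (∀ l, P * A l * Q = 0) ∧
      Fintype.card n < Fintype.card α + Fintype.card β

end

end Pool.Agent.H7.NC
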