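import Mathlib
import Pool.Agent.H7.NC.Gen
import Pool.Agent.H7.NC.Lin

/-!
# Hollowness descends along purely transcendental extensions
-/

namespace Pool.Agent.H7.NC

open Matrix

set_option linter.unusedSectionVars false
set_option linter.unusedFintypeInType false
set_option linter.unusedDecidableInType false

universe u v

noncomputable section

theorem clear_denoms (R L : Type*) [CommRing R] [IsDomain R] [Field L] [Algebra R L]
    [IsFractionRing R L] {α β : Type} [Finite α] [Finite β] (M : Matrix α β L) :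
    ∃ (h : R) (M₁ : Matrix α β R), h ≠ 0 ∧ M₁.map (algebraMap R L) = algebraMap R L h • M := by
  obtain ⟨b, hb⟩ := IsLocalization.exist_integer_multiples_of_finite (nonZeroDivisors R)
    (fun p : α × β => M p.1 p.2)
  choose f hf using hb
  refine ⟨b, of fun i j => f (i, j), nonZeroDivisors.ne_zero b.2, ?_⟩
  ext i j
  have := hf (i, j)
  rw [Algebra.smul_def] at this
  exact this

theorem map_smul_one {R S : Type*} [CommRing R] [CommRing S] (φ : R →+* S) (c : R) (α : Type)
    [Fintype α] [DecidableEq α] :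
    (c • (1 : Matrix α α R)).map φ = φ c • (1 : Matrix α α S) := by
  ext i j
  rw [Matrix.map_apply, Matrix.smul_apply, Matrix.smul_apply, smul_eq_mul, smul_eq_mul, map_mul]
  congr 1
  rcases eq_or_ne i j with rfl | h
  · rw [Matrix.one_apply_eq, Matrix.one_apply_eq, map_one]
  · rw [Matrix.one_apply_ne h, Matrix.one_apply_ne h, map_zero]

variable {K : Type u} [Field K] {n : Type} [Fintype n] [DecidableEq n]

theorem hol_of_spec {ι : Type} {R : Type v} [CommRing R] [IsDomain R] (c : K →+* R)
    (L : Type v) [Field L] [Algebra R L] [IsFractionRing R L]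
    (hspec : ∀ h : R, h ≠ 0 → ∃ φ : R →+* K, (∀ x, φ (c x) = x) ∧ φ h ≠ 0)
    (A : ι → Matrix n n K) (hA : Hol fun l => (A l).map ((algebraMap R L).comp c)) : Hol A := by
  obtain ⟨α, β, i1, i2, i3, i4, P, P', Q, Q', h1, h2, h3, h4⟩ := hA
  have hinj := IsFractionRing.injective R L
  obtain ⟨a, P₁, ha, hP⟩ := clear_denoms R L P
  obtain ⟨a', P₁', ha', hP'⟩ := clear_denoms R L P'
  obtain ⟨b, Q₁, hb, hQ⟩ := clear_denoms R L Q
  obtain ⟨b', Q₁', hb', hQ'⟩ := clear_denoms R L Q'
  have e1 : P₁ * P₁' = (a * a') • (1 : Matrix α α R) := by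
    apply Matrix.map_injective hinj
    show (P₁ * P₁').map (algebraMap R L) = ((a * a') • (1 : Matrix α α R)).map (algebraMap R L)
    rw [Matrix.map_mul, hP, hP', Matrix.smul_mul, Matrix.mul_smul, h1, map_smul_one, smul_smul,
      map_mul]
  have e2 : Q₁' * Q₁ = (b * b') • (1 : Matrix β β R) := by
    apply Matrix.map_injective hinj
    show (Q₁' * Q₁).map (algebraMap R L) = ((b * b') • (1 : Matrix β β R)).map (algebraMap R L)
    rw [Matrix.map_mul, hQ, hQ', Matrix.smul_mul, Matrix.mul_smul, h2, map_smul_one, smul_smul,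
      ← map_mul, mul_comm b' b]
  have e3 : ∀ l, P₁ * (A l).map c * Q₁ = 0 := by
    intro l
    apply Matrix.map_injective hinj
    have e4 : ((A l).map c).map (algebraMap R L) = (A l).map ((algebraMap R L).comp c) := by
      ext i j
      rfl
    show (P₁ * (A l).map c * Q₁).map (algebraMap R L) = (0 : Matrix α β R).map (algebraMap R L)
    rw [Matrix.map_mul, Matrix.map_mul, hP, hQ, e4, Matrix.smul_mul, Matrix.mul_smul,
      Matrix.smul_mul, h3 l, smul_zero, smul_zero]
    ext i j
    simp
  obtain ⟨φ, hφ1, hφ2⟩ := hspec (a * a' * (b * b')) (mul_ne_zero (mul_ne_zero ha ha')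
    (mul_ne_zero hb hb'))
  rw [map_mul] at hφ2
  have f1 := left_ne_zero_of_mul hφ2
  have f2 := right_ne_zero_of_mul hφ2
  refine ⟨α, β, i1, i2, i3, i4, P₁.map φ, (φ (a * a'))⁻¹ • P₁'.map φ, (φ (b * b'))⁻¹ • Q₁.map φ,
    Q₁'.map φ, ?_, ?_, ?_, h4⟩
  · rw [Matrix.mul_smul, ← Matrix.map_mul, e1, map_smul_one, smul_smul, inv_mul_cancel₀ f1,
      one_smul]
  · rw [Matrix.mul_smul, ← Matrix.map_mul, e2, map_smul_one, smul_smul, inv_mul_cancel₀ f2,
      one_smul]
  · intro l
    have e5 : A l = ((A l).map c).map φ := by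
      ext i j
      exact (hφ1 _).symm
    rw [Matrix.mul_smul, e5, ← Matrix.map_mul, ← Matrix.map_mul, e3 l]
    ext i j
    simp

theorem hol_of_mvPolynomial [Infinite K] {ι σ : Type}
    (A : ι → Matrix n n K)
    (hA : Hol fun l => (A l).map ((algebraMap (MvPolynomial σ K)
      (FractionRing (MvPolynomial σ K))).comp MvPolynomial.C)) : Hol A := by
  refine hol_of_spec (R := MvPolynomial σ K) MvPolynomial.C (FractionRing (MvPolynomial σ K))
    (fun h hh => ?_) A hA
  obtain ⟨p, hp⟩ := exists_eval_ne_zero hh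
  exact ⟨MvPolynomial.eval p, fun x => MvPolynomial.eval_C x, hp⟩

end

end Pool.Agent.H7.NC
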