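import Mathlib
import Pool.Agent.H7.NC.Descend

/-!
# Hollowness descends from `k(X)` to `k`, for every field `k`
-/

namespace Pool.Agent.H7.NC

open Matrix

set_option linter.unusedSectionVars false
set_option linter.unusedFintypeInType false
set_option linter.unusedDecidableInType false

universe u v

noncomputable section

/-- A matrix with a right inverse over the field of fractions of a principal ideal domain has the
same row space as a matrix with a right inverse over the domain. -/
theorem exists_saturated {R L : Type u} [CommRing R] [IsDomain R] [IsPrincipalIdealRing R]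
    [Field L] [Algebra R L] [IsFractionRing R L] {α n : Type} [Fintype α] [DecidableEq α]
    [Fintype n] [DecidableEq n] (P : Matrix α n L) (P' : Matrix n α L) (hP : P * P' = 1) :
    ∃ (r : ℕ) (P₀ : Matrix (Fin r) n R) (P₀' : Matrix n (Fin r) R) (G : Matrix (Fin r) α L),
      P₀ * P₀' = 1 ∧ P₀.map (algebraMap R L) = G * P ∧ Fintype.card α ≤ r := by
  have hinj : Function.Injective (algebraMap R L) := IsFractionRing.injective R L
  obtain ⟨a, P₁, ha, hP₁⟩ := clear_denoms R L P
  have ha' : algebraMap R L a ≠ 0 := by rwa [map_ne_zero_iff _ hinj]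
  let N : Submodule R (n → R) := Submodule.span R (Set.range fun i => P₁ i)
  obtain ⟨r, snf⟩ := Submodule.smithNormalForm (Pi.basisFun R n) N
  have hG : ∀ i : Fin r, ∃ g : α → L, ∀ j, algebraMap R L (snf.bM (snf.f i) j) =
      ∑ x, g x * P x j := by
    intro i
    have h1 : ((snf.bN i : N) : n → R) ∈ N := (snf.bN i).2
    obtain ⟨c, hc⟩ := (Submodule.mem_span_range_iff_exists_fun R).1 h1
    have h2 := snf.snf i
    have h3 : snf.a i ≠ 0 := by
      intro h0
      rw [h0, zero_smul] at h2
      have h4 : snf.bN i = 0 := Subtype.ext h2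
      exact snf.bN.ne_zero i h4
    have h3' : algebraMap R L (snf.a i) ≠ 0 := by rwa [map_ne_zero_iff _ hinj]
    refine ⟨fun x => (algebraMap R L (snf.a i))⁻¹ * algebraMap R L (c x) * algebraMap R L a, ?_⟩
    intro j
    have h5 : snf.a i * snf.bM (snf.f i) j = ∑ x, c x * P₁ x j := by
      have h6 := congrFun (hc.trans h2) j
      rw [Finset.sum_apply] at h6
      exact h6.symm
    have h7 : ∀ x, algebraMap R L (P₁ x j) = algebraMap R L a * P x j := fun x =>
      congrFun (congrFun hP₁ x) j
    have h8 := congrArg (algebraMap R L) h5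
    rw [map_mul, map_sum] at h8
    calc algebraMap R L (snf.bM (snf.f i) j)
        = (algebraMap R L (snf.a i))⁻¹ * (algebraMap R L (snf.a i) *
            algebraMap R L (snf.bM (snf.f i) j)) := by rw [inv_mul_cancel_left₀ h3']
      _ = _ := by
        rw [h8, Finset.mul_sum]
        refine Finset.sum_congr rfl fun x _ => ?_
        rw [map_mul, h7]
        ring
  choose G hG using hG
  refine ⟨r, of fun i j => snf.bM (snf.f i) j, of fun j i => snf.bM.repr (Pi.single j 1) (snf.f i),
    of fun i x => G i x, ?_, ?_, ?_⟩
  · refine Matrix.ext fun i i' => ?_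
    rw [Matrix.mul_apply]
    simp only [of_apply]
    have h1 : ∑ j, snf.bM (snf.f i) j • (Pi.single j 1 : n → R) = snf.bM (snf.f i) := by
      funext j'
      simp [Finset.sum_apply, Pi.single_apply]
    have h2 : ∑ j, snf.bM (snf.f i) j * snf.bM.repr (Pi.single j 1) (snf.f i') =
        snf.bM.repr (∑ j, snf.bM (snf.f i) j • (Pi.single j 1 : n → R)) (snf.f i') := by
      rw [map_sum, Finsupp.finsetSum_apply]
      refine Finset.sum_congr rfl fun j _ => ?_
      rw [map_smul, Finsupp.smul_apply, smul_eq_mul]
    rw [h2, h1, Module.Basis.repr_self, Finsupp.single_apply, Matrix.one_apply]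
    simp only [snf.f.injective.eq_iff]
  · refine Matrix.ext fun i j => ?_
    rw [Matrix.map_apply, Matrix.mul_apply]
    exact hG i j
  · have hli : LinearIndependent R (fun x : α => (⟨P₁ x, Submodule.subset_span ⟨x, rfl⟩⟩ : N)) := by
      rw [Fintype.linearIndependent_iff]
      intro c hc x
      have h1 : ∀ j, ∑ x, c x * P₁ x j = 0 := by
        intro j
        have := congrFun (congrArg Subtype.val hc) j
        simpa [Finset.sum_apply] using this
      have h2 : (fun x => algebraMap R L (c x)) ᵥ* P = 0 := by
        funext j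
        have h3 := congrArg (algebraMap R L) (h1 j)
        rw [map_sum, map_zero] at h3
        have h7 : ∀ x, algebraMap R L (P₁ x j) = algebraMap R L a * P x j := fun x =>
          congrFun (congrFun hP₁ x) j
        have h4 : algebraMap R L a * ((fun x => algebraMap R L (c x)) ᵥ* P) j = 0 := by
          rw [← h3, vecMul, dotProduct, Finset.mul_sum]
          refine Finset.sum_congr rfl fun x _ => ?_
          rw [map_mul, h7]
          ring
        exact (mul_eq_zero.1 h4).resolve_left ha'
      have h5 : (fun x => algebraMap R L (c x)) = 0 := by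
        rw [← vecMul_one (fun x => algebraMap R L (c x)), ← hP, ← vecMul_vecMul, h2, zero_vecMul]
      have h6 := congrFun h5 x
      exact (map_eq_zero_iff _ hinj).1 h6
    have h1 := hli.fintype_card_le_finrank
    rw [Module.finrank_eq_card_basis snf.bN, Fintype.card_fin] at h1
    exact h1

theorem hol_of_pid {ι : Type} {K R L : Type u} [Field K] [CommRing R] [IsDomain R]
    [IsPrincipalIdealRing R] [Field L] [Algebra R L] [IsFractionRing R L] (c : K →+* R)
    (φ : R →+* K) (hφ : ∀ x, φ (c x) = x) {n : Type} [Fintype n] [DecidableEq n]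
    (A : ι → Matrix n n K) (hA : Hol fun l => (A l).map ((algebraMap R L).comp c)) : Hol A := by
  obtain ⟨α, β, i1, i2, i3, i4, P, P', Q, Q', h1, h2, h3, h4⟩ := hA
  have hinj : Function.Injective (algebraMap R L) := IsFractionRing.injective R L
  obtain ⟨r, P₀, P₀', G, hP1, hP2, hP3⟩ := exists_saturated (R := R) P P' h1
  obtain ⟨s, Q₀, Q₀', H, hQ1, hQ2, hQ3⟩ := exists_saturated (R := R) Qᵀ Q'ᵀ (by
    rw [← Matrix.transpose_mul, h2, Matrix.transpose_one])
  have e1 : ∀ l, P₀ * (A l).map c * Q₀ᵀ = 0 := by
    intro l
    apply Matrix.map_injective hinj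
    show (P₀ * (A l).map c * Q₀ᵀ).map (algebraMap R L) =
      (0 : Matrix (Fin r) (Fin s) R).map (algebraMap R L)
    have e4 : ((A l).map c).map (algebraMap R L) = (A l).map ((algebraMap R L).comp c) := by
      ext i j
      rfl
    have e5 : (Q₀ᵀ).map (algebraMap R L) = Q * Hᵀ := by
      rw [Matrix.transpose_map, hQ2, Matrix.transpose_mul, Matrix.transpose_transpose]
    rw [Matrix.map_mul, Matrix.map_mul, hP2, e4, e5]
    have e6 : G * P * (A l).map ((algebraMap R L).comp c) * (Q * Hᵀ) =
        G * (P * (A l).map ((algebraMap R L).comp c) * Q) * Hᵀ := by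
      simp only [Matrix.mul_assoc]
    rw [e6, h3 l, Matrix.mul_zero, Matrix.zero_mul]
    refine Matrix.ext fun i j => ?_
    simp
  have hone : ∀ (t : ℕ), (1 : Matrix (Fin t) (Fin t) R).map φ = 1 := by
    intro t
    refine Matrix.ext fun i j => ?_
    rw [Matrix.map_apply, Matrix.one_apply, Matrix.one_apply]
    split_ifs <;> simp
  refine ⟨Fin r, Fin s, inferInstance, inferInstance, inferInstance, inferInstance,
    P₀.map φ, P₀'.map φ, (Q₀ᵀ).map φ, (Q₀'ᵀ).map φ, ?_, ?_, ?_, ?_⟩
  · rw [← Matrix.map_mul, hP1, hone]
  · rw [← Matrix.map_mul, ← Matrix.transpose_mul, hQ1, Matrix.transpose_one, hone]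
  · intro l
    have e5 : A l = ((A l).map c).map φ := by
      ext i j
      exact (hφ _).symm
    rw [e5, ← Matrix.map_mul, ← Matrix.map_mul, e1 l]
    refine Matrix.ext fun i j => ?_
    simp
  · rw [Fintype.card_fin, Fintype.card_fin]
    omega

/-- An infinite extension field along which hollowness descends. -/
abbrev Ext (k : Type u) [Field k] : Type u := FractionRing (Polynomial k)

/-- The embedding. -/
def toExt (k : Type u) [Field k] : k →+* Ext k :=
  (algebraMap (Polynomial k) (Ext k)).comp Polynomial.C

instance (k : Type u) [Field k] : Infinite (Ext k) :=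
  Infinite.of_injective (algebraMap (Polynomial k) (Ext k))
    (IsFractionRing.injective (Polynomial k) (Ext k))

theorem hol_of_ext {ι : Type} {k : Type u} [Field k] {n : Type} [Fintype n] [DecidableEq n]
    (A : ι → Matrix n n k) (hA : Hol fun l => (A l).map (toExt k)) : Hol A :=
  hol_of_pid (R := Polynomial k) (L := Ext k) Polynomial.C (Polynomial.evalRingHom 0)
    (fun x => by simp) A hA

end

end Pool.Agent.H7.NC
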