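import Mathlib
import Pool.Agent.H7.NC.Descend

/-!
# The derivative argument
-/

namespace Pool.Agent.H7.NC

open Matrix MvPolynomial
open scoped Kronecker

set_option linter.unusedSectionVars false
set_option linter.unusedFintypeInType false
set_option linter.unusedDecidableInType false

universe u v

noncomputable section

theorem map_mul_derivation {R A : Type*} [CommRing R] [CommRing A] [Algebra R A]
    (D : Derivation R A A) {α β γ : Type} [Fintype β] (M : Matrix α β A) (N : Matrix β γ A) :
    (M * N).map D = M.map D * N + M * N.map D := by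
  ext i j
  simp only [Matrix.map_apply, Matrix.mul_apply, Matrix.add_apply, map_sum, Derivation.leibniz,
    Finset.sum_add_distrib, smul_eq_mul]
  rw [add_comm]
  congr 1
  exact Finset.sum_congr rfl fun k _ => mul_comm _ _

variable {K : Type u} [Field K] {ι n m : Type} [Fintype ι] [DecidableEq ι]
  [Fintype n] [DecidableEq n] [Fintype m] [DecidableEq m]

/-- Generic matrices. -/
def Xm (K : Type u) [Field K] (ι m : Type) (l : ι) : Matrix m m (MvPolynomial (ι × m × m) K) :=
  of fun a b => X (l, a, b)

/-- Constant matrices. -/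
def Cm (m : Type) (A : ι → Matrix n n K) (l : ι) : Matrix n n (MvPolynomial (ι × m × m) K) :=
  (A l).map C

theorem Xm_pderiv (l l' : ι) (a b : m) :
    ((Xm K ι m l')ᵀ).map (pderiv (l, a, b)) = if l' = l then Matrix.single b a 1 else 0 := by
  ext i j
  rw [Matrix.map_apply, Matrix.transpose_apply, Xm, of_apply, pderiv_X]
  split_ifs with h
  · subst h
    rw [Matrix.single_apply, Pi.single_apply]
    have : ((l', j, i) = (l', a, b)) ↔ (b = i ∧ a = j) := by
      simp only [Prod.mk.injEq, true_and]
      constructor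
      · rintro ⟨rfl, rfl⟩
        exact ⟨rfl, rfl⟩
      · rintro ⟨rfl, rfl⟩
        exact ⟨rfl, rfl⟩
    simp only [this]
  · rw [Matrix.zero_apply, Pi.single_apply, if_neg]
    intro h'
    exact h (congrArg Prod.fst h')

theorem sum_pderiv (A : ι → Matrix n n K) {r : Type} [Fintype r]
    (P : Matrix n r (MvPolynomial (ι × m × m) K))
    (U : Matrix r m (MvPolynomial (ι × m × m) K))
    (h : ∑ l, Cm m A l * (P * U) * (Xm K ι m l)ᵀ = 0) (l : ι) (a b : m) :
    Cm m A l * (P * U) * Matrix.single b a (1 : MvPolynomial (ι × m × m) K) =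
      - ∑ l', Cm m A l' * (P.map (pderiv (l, a, b)) * U + P * U.map (pderiv (l, a, b))) *
        (Xm K ι m l')ᵀ := by
  have h2 : (∑ l', Cm m A l' * (P * U) * (Xm K ι m l')ᵀ).map (pderiv (l, a, b)) =
      ∑ l', (Cm m A l' * (P * U) * (Xm K ι m l')ᵀ).map (pderiv (l, a, b)) := by
    ext i j
    simp only [Matrix.map_apply, Matrix.sum_apply, map_sum]
  have h3 : ∀ l', (Cm m A l').map (pderiv (l, a, b)) = 0 := by
    intro l'
    ext i j
    simp [Cm]
  have h4 : ∀ l', (Cm m A l' * (P * U) * (Xm K ι m l')ᵀ).map (pderiv (l, a, b)) =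
      Cm m A l' * (P.map (pderiv (l, a, b)) * U + P * U.map (pderiv (l, a, b))) *
        (Xm K ι m l')ᵀ + if l' = l then Cm m A l' * (P * U) *
          Matrix.single b a (1 : MvPolynomial (ι × m × m) K) else 0 := by
    intro l'
    rw [map_mul_derivation, map_mul_derivation, h3, Matrix.zero_mul, zero_add,
      map_mul_derivation, Xm_pderiv]
    congr 1
    split_ifs <;> simp
  have h5 : (∑ l', Cm m A l' * (P * U) * (Xm K ι m l')ᵀ).map (pderiv (l, a, b)) = 0 := by
    rw [h]
    ext i j
    simp
  rw [h2] at h5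
  simp only [h4, Finset.sum_add_distrib, Finset.sum_ite_eq', Finset.mem_univ, if_true] at h5
  exact eq_neg_of_add_eq_zero_right h5

/-- From the vanishing of the generic determinant to a matrix equation. -/
theorem exists_matrix_of_Dl (A : ι → Matrix n n K) (h : Dl m A = 0) :
    ∃ V : Matrix n m (MvPolynomial (ι × m × m) K), V ≠ 0 ∧
      ∑ l, Cm m A l * V * (Xm K ι m l)ᵀ = 0 := by
  obtain ⟨v, hv, hv0⟩ := Matrix.exists_mulVec_eq_zero_iff.2 h
  refine ⟨of fun i a => v (i, a), ?_, ?_⟩
  · intro h0
    apply hv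
    funext x
    exact congrFun (congrFun h0 x.1) x.2
  · refine Matrix.ext fun i a => ?_
    have h1 := congrFun hv0 (i, a)
    simp only [mulVec, dotProduct, ks_apply, Fintype.sum_prod_type, of_apply, Finset.sum_mul,
      Pi.zero_apply] at h1
    rw [Matrix.zero_apply, ← h1, Matrix.sum_apply]
    simp only [Matrix.mul_apply, Finset.sum_mul, of_apply, Matrix.transpose_apply, Xm, Cm]
    have key : ∀ F : ι → m → n → MvPolynomial (ι × m × m) K,
        ∑ l, ∑ b, ∑ j, F l b j = ∑ j, ∑ b, ∑ l, F l b j := by
      intro F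
      calc ∑ l, ∑ b, ∑ j, F l b j = ∑ l, ∑ j, ∑ b, F l b j :=
            Finset.sum_congr rfl fun l _ => Finset.sum_comm
        _ = ∑ j, ∑ l, ∑ b, F l b j := Finset.sum_comm
        _ = ∑ j, ∑ b, ∑ l, F l b j := Finset.sum_congr rfl fun l _ => Finset.sum_comm
    rw [key]
    refine Finset.sum_congr rfl fun j _ => ?_
    refine Finset.sum_congr rfl fun b _ => ?_
    refine Finset.sum_congr rfl fun l _ => ?_
    exact mul_right_comm _ _ _

end

end Pool.Agent.H7.NC
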