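import Mathlib
import Pool.Agent.H7.NC.Lin

/-!
# The dimension count
-/

namespace Pool.Agent.H7.NC

open Matrix

set_option linter.unusedSectionVars false
set_option linter.unusedFintypeInType false
set_option linter.unusedDecidableInType false

universe u v

noncomputable section

variable {L : Type u} [Field L] {ι n m : Type} [Fintype ι] [DecidableEq ι]
  [Fintype n] [DecidableEq n] [Fintype m] [DecidableEq m]

/-- The tangent map. -/
def Psi (A : ι → Matrix n n L) (Y : ι → Matrix m m L) {ρ : ℕ} (P : Matrix n (Fin ρ) L)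
    (U : Matrix (Fin ρ) m L) :
    (Matrix n (Fin ρ) L × Matrix (Fin ρ) m L) →ₗ[L] Matrix n m L where
  toFun x := ∑ l, A l * (x.1 * U + P * x.2) * Y l
  map_add' x y := by
    rw [← Finset.sum_add_distrib]
    refine Finset.sum_congr rfl fun l _ => ?_
    simp only [Prod.fst_add, Prod.snd_add, Matrix.add_mul, Matrix.mul_add]
    abel
  map_smul' c x := by
    rw [RingHom.id_apply, Finset.smul_sum]
    refine Finset.sum_congr rfl fun l _ => ?_
    simp only [Prod.smul_fst, Prod.smul_snd, Matrix.smul_mul, Matrix.mul_smul, ← smul_add]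

/-- The evaluation map. -/
def Phi (A : ι → Matrix n n L) (Y : ι → Matrix m m L) : Matrix n m L →ₗ[L] Matrix n m L where
  toFun w := ∑ l, A l * w * Y l
  map_add' x y := by
    rw [← Finset.sum_add_distrib]
    refine Finset.sum_congr rfl fun l _ => ?_
    simp only [Matrix.add_mul, Matrix.mul_add]
  map_smul' c x := by
    rw [RingHom.id_apply, Finset.smul_sum]
    refine Finset.sum_congr rfl fun l _ => ?_
    simp only [Matrix.smul_mul, Matrix.mul_smul]

theorem range_Psi_le (A : ι → Matrix n n L) (Y : ι → Matrix m m L) {ρ : ℕ}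
    (P : Matrix n (Fin ρ) L) (U : Matrix (Fin ρ) m L) :
    LinearMap.range (Psi A Y P U) ≤ LinearMap.range (Phi A Y) := by
  rintro _ ⟨x, rfl⟩
  exact ⟨x.1 * U + P * x.2, rfl⟩

/-- `v ↦ v eₐᵀ`. -/
def colMap (a : m) : (n → L) →ₗ[L] Matrix n m L where
  toFun v := vecMulVec v (Pi.single a 1)
  map_add' v w := by rw [add_vecMulVec]
  map_smul' c v := by rw [smul_vecMulVec, RingHom.id_apply]

theorem colMap_apply (a : m) (v : n → L) : colMap a v = vecMulVec v (Pi.single a 1) := rfl

theorem eq_sum_colMap (w : Matrix n m L) : w = ∑ a, colMap a (fun i => w i a) := by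
  ext i j
  rw [Matrix.sum_apply]
  simp [colMap_apply, vecMulVec_apply, Pi.single_apply]

theorem mul_single_eq (B : Matrix n m L) (a b : m) :
    B * Matrix.single b a (1 : L) = colMap a (B *ᵥ Pi.single b 1) := by
  ext i j
  rw [colMap_apply, vecMulVec_apply, mulVec_single_one]
  by_cases h : a = j
  · subst h
    simp [Matrix.mul_apply, Matrix.single_apply, Matrix.col_apply]
  · have h' : j ≠ a := fun e => h e.symm
    rw [Pi.single_eq_of_ne h', mul_zero, Matrix.mul_single_apply_of_ne _ _ _ _ _ h']

theorem colMap_mem (A : ι → Matrix n n L) (Y : ι → Matrix m m L) {ρ : ℕ}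
    (P : Matrix n (Fin ρ) L) (U : Matrix (Fin ρ) m L) (U' : Matrix m (Fin ρ) L) (hU : U * U' = 1)
    (hD : ∀ (l : ι) (a b : m), A l * (P * U) * Matrix.single b a (1 : L) ∈ LinearMap.range (Psi A Y P U))
    (v : n → L) (hv : v ∈ ⨆ l, LinearMap.range (A l * P).mulVecLin) (a : m) :
    colMap a v ∈ LinearMap.range (Psi A Y P U) := by
  have h1 : (⨆ l, LinearMap.range (A l * P).mulVecLin) ≤
      (LinearMap.range (Psi A Y P U)).comap (colMap a) := by
    refine iSup_le fun l => ?_
    rintro _ ⟨y, rfl⟩
    rw [Submodule.mem_comap, Matrix.mulVecLin_apply]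
    have h2 : (A l * P) *ᵥ y = ∑ b, (U' *ᵥ y) b • ((A l * (P * U)) *ᵥ Pi.single b 1) := by
      have h3 : (A l * P) *ᵥ y = (A l * (P * U)) *ᵥ (U' *ᵥ y) := by
        rw [mulVec_mulVec, Matrix.mul_assoc, Matrix.mul_assoc, hU, Matrix.mul_one]
      rw [h3]
      simp only [← mulVec_smul, ← mulVec_sum]
      congr 1
      funext b
      simp [Finset.sum_apply, Pi.single_apply]
    rw [h2, map_sum]
    refine Submodule.sum_mem _ fun b _ => ?_
    rw [map_smul, ← mul_single_eq]
    exact Submodule.smul_mem _ _ (hD l a b)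
  exact h1 hv

/-- The dimension count: a non-hollow family admits a tight proper subspace. -/
theorem exists_tight (A : ι → Matrix n n L) (Y : ι → Matrix m m L) {ρ : ℕ}
    (P : Matrix n (Fin ρ) L) (P' : Matrix (Fin ρ) n L) (U : Matrix (Fin ρ) m L)
    (U' : Matrix m (Fin ρ) L) (hP : P' * P = 1) (hU : U * U' = 1) (hρ : 0 < ρ)
    (h0 : ∑ l, A l * (P * U) * Y l = 0)
    (hD : ∀ (l : ι) (a b : m), A l * (P * U) * Matrix.single b a (1 : L) ∈ LinearMap.range (Psi A Y P U))
    (hcard : Fintype.card n * Fintype.card n < Fintype.card m) (hH : ¬ Hol A) :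
    ρ < Fintype.card n ∧ ∃ (W : Matrix n (Fin ρ) L) (W' : Matrix (Fin ρ) n L),
      W' * W = 1 ∧ ∀ l, A l * P = W * (W' * (A l * P)) := by
  have hcm := colMap_mem A Y P U U' hU hD
  obtain ⟨W, W', hW, hWZ⟩ := exists_basis_matrix (⨆ l, LinearMap.range (A l * P).mulVecLin)
  generalize Module.finrank L (⨆ l, LinearMap.range (A l * P).mulVecLin : Submodule L (n → L)) = z
    at W W' hW hWZ
  have hAP : ∀ l, A l * P = W * (W' * (A l * P)) := by
    intro l
    have h1 : ∀ α, ∃ y, (A l * P) *ᵥ Pi.single α 1 = W *ᵥ y := fun α =>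
      (hWZ _).1 (Submodule.mem_iSup_of_mem l ⟨_, rfl⟩)
    choose y hy using h1
    have h2 : A l * P = W * (of fun i α => y α i) := by
      ext i α
      have := congrFun (hy α) i
      rw [mulVec_single_one] at this
      exact this
    rw [h2, ← Matrix.mul_assoc W', hW, Matrix.one_mul]
  -- `ρ ≤ z`
  obtain ⟨k, g, g', hg1, hg2, hgW, hk⟩ := exists_compl W W' hW
  have hρz : ρ ≤ z := by
    by_contra hlt
    apply hH
    refine ⟨Fin k, Fin ρ, inferInstance, inferInstance, inferInstance, inferInstance,
      of fun i j => g' (Sum.inr i) j, of fun i j => g i (Sum.inr j), P, P', ?_, hP, ?_, ?_⟩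
    · ext i j
      have := congrFun (congrFun hg2 (Sum.inr i)) (Sum.inr j)
      rw [Matrix.mul_apply] at this
      rw [Matrix.mul_apply]
      simp only [of_apply]
      rw [this, Matrix.one_apply, Matrix.one_apply]
      simp
    · intro l
      have h3 : (of fun i j => g' (Sum.inr i) j : Matrix (Fin k) n L) * W = 0 := by
        ext i j
        have := congrFun (congrFun hg2 (Sum.inr i)) (Sum.inl j)
        rw [Matrix.mul_apply] at this
        rw [Matrix.mul_apply]
        simp only [of_apply]
        simp only [hgW] at this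
        rw [this]
        simp
      rw [Matrix.mul_assoc, hAP l, ← Matrix.mul_assoc, h3, Matrix.zero_mul]
    · rw [hk, Fintype.card_fin, Fintype.card_fin, Fintype.card_fin]
      omega
  obtain ⟨k', _, _, _, _, _, hk'⟩ := exists_compl P P' hP
  rw [Fintype.card_fin] at hk hk'
  -- `ρ < n`
  have hρn : ρ < Fintype.card n := by
    by_contra hlt
    have hzn : k = 0 := by omega
    subst hzn
    have htop : ∀ v : n → L, ∃ y, v = W *ᵥ y := by
      intro v
      refine ⟨fun j => (g' *ᵥ v) (Sum.inl j), ?_⟩
      have h4 : v = g *ᵥ (g' *ᵥ v) := by rw [mulVec_mulVec, hg1, one_mulVec]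
      conv_lhs => rw [h4]
      ext i
      simp only [mulVec, dotProduct, Fintype.sum_sum_type, hgW, Finset.univ_eq_empty,
        Finset.sum_empty, add_zero]
    have hsurj : Function.Surjective (Phi A Y) := by
      intro w
      have h5 : w ∈ LinearMap.range (Psi A Y P U) := by
        rw [eq_sum_colMap w]
        exact Submodule.sum_mem _ fun a _ => hcm _ ((hWZ _).2 (htop _)) a
      obtain ⟨x, hx⟩ := range_Psi_le A Y P U h5
      exact ⟨x, hx⟩
    have hinj := LinearMap.injective_iff_surjective.2 hsurj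
    have h6 : P * U = 0 := hinj (by rw [map_zero]; exact h0)
    have h7 : (1 : Matrix (Fin ρ) (Fin ρ) L) = 0 := by
      calc (1 : Matrix (Fin ρ) (Fin ρ) L) = P' * P * (U * U') := by rw [hP, hU, Matrix.one_mul]
        _ = P' * (P * U) * U' := by simp only [Matrix.mul_assoc]
        _ = 0 := by rw [h6, Matrix.mul_zero, Matrix.zero_mul]
    have h8 := congrFun (congrFun h7 ⟨0, hρ⟩) ⟨0, hρ⟩
    simp at h8
  -- `z ≤ ρ`
  have hzρ : z ≤ ρ := by
    let f : Matrix (Fin z) m L →ₗ[L] LinearMap.range (Psi A Y P U) :=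
      { toFun := fun y => ⟨W * y, by
          rw [eq_sum_colMap (W * y)]
          refine Submodule.sum_mem _ fun a _ => hcm _ ((hWZ _).2 ⟨fun j => y j a, ?_⟩) a
          ext i
          rfl⟩
        map_add' := fun y y' => Subtype.ext (Matrix.mul_add W y y')
        map_smul' := fun c y => Subtype.ext (Matrix.mul_smul W c y) }
    have hf : Function.Injective f := by
      intro y y' h
      have h1 : W * y = W * y' := congrArg Subtype.val h
      calc y = W' * (W * y) := by rw [← Matrix.mul_assoc, hW, Matrix.one_mul]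
        _ = W' * (W * y') := by rw [h1]
        _ = y' := by rw [← Matrix.mul_assoc, hW, Matrix.one_mul]
    have h1 := LinearMap.finrank_le_finrank_of_injective hf
    have h2 := LinearMap.finrank_range_le (Psi A Y P U)
    rw [Module.finrank_prod, Module.finrank_matrix, Module.finrank_matrix, Module.finrank_self,
      Fintype.card_fin] at h2
    rw [Module.finrank_matrix, Module.finrank_self, Fintype.card_fin] at h1
    simp only [mul_one] at h1 h2
    by_contra hlt
    have h3 : (ρ + 1) * Fintype.card m ≤ z * Fintype.card m :=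
      Nat.mul_le_mul_right _ (by omega)
    have h4 : Fintype.card n * ρ ≤ Fintype.card n * Fintype.card n :=
      Nat.mul_le_mul_left _ hρn.le
    have h5 : (ρ + 1) * Fintype.card m = ρ * Fintype.card m + Fintype.card m := by ring
    omega
  obtain rfl : z = ρ := le_antisymm hzρ hρz
  exact ⟨hρn, W, W', hW, hAP⟩

end

end Pool.Agent.H7.NC
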