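import Mathlib
import Pool.Agent.H7.NC.Deriv
import Pool.Agent.H7.NC.Tight

/-!
# The noncommutative rank theorem: non-hollow pencils are generically invertible
-/

namespace Pool.Agent.H7.NC

open Matrix MvPolynomial
open scoped Kronecker

set_option linter.unusedSectionVars false
set_option linter.unusedFintypeInType false
set_option linter.unusedDecidableInType false

universe u v

noncomputable section

section Blocks

variable {K : Type u} [Field K] {ι n n' p q : Type}
  [Fintype n] [DecidableEq n] [Fintype n'] [DecidableEq n'] [Fintype p] [DecidableEq p]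
  [Fintype q] [DecidableEq q]

theorem hol_of_equiv {A : ι → Matrix n n K} {B : ι → Matrix n' n' K}
    (g : Matrix n n' K) (h : Matrix n' n K) (g' : Matrix n' n K) (h' : Matrix n n' K)
    (hg'g : g' * g = 1) (hhh' : h * h' = 1) (hcard : Fintype.card n = Fintype.card n')
    (hB : ∀ l, B l = h * A l * g) (hH : Hol B) : Hol A := by
  obtain ⟨α, β, i1, i2, i3, i4, P, P', Q, Q', h1, h2, h3, h4⟩ := hH
  refine ⟨α, β, i1, i2, i3, i4, P * h, h' * P', g * Q, Q' * g', ?_, ?_, ?_, ?_⟩
  · rw [Matrix.mul_assoc, ← Matrix.mul_assoc h, hhh', Matrix.one_mul, h1]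
  · rw [Matrix.mul_assoc, ← Matrix.mul_assoc g', hg'g, Matrix.one_mul, h2]
  · intro l
    have := h3 l
    rw [hB l] at this
    simpa only [Matrix.mul_assoc] using this
  · rw [hcard]
    exact h4

theorem hol_blocks_left {A : ι → Matrix p p K} (B : ι → Matrix p q K) (D : ι → Matrix q q K)
    (hH : Hol A) : Hol fun l => fromBlocks (A l) (B l) 0 (D l) := by
  obtain ⟨α, β, i1, i2, i3, i4, P, P', Q, Q', h1, h2, h3, h4⟩ := hH
  refine ⟨α ⊕ q, β, inferInstance, i2, inferInstance, i4, fromBlocks P 0 0 1,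
    fromBlocks P' 0 0 1, fromRows Q 0, fromCols Q' 0, ?_, ?_, ?_, ?_⟩
  · rw [fromBlocks_multiply]
    simp [h1, fromBlocks_one]
  · rw [fromCols_mul_fromRows]
    simp [h2]
  · intro l
    rw [fromBlocks_multiply, fromBlocks_mul_fromRows]
    simp [h3 l]
  · rw [Fintype.card_sum, Fintype.card_sum]
    omega

theorem hol_blocks_right (A : ι → Matrix p p K) (B : ι → Matrix p q K) {D : ι → Matrix q q K}
    (hH : Hol D) : Hol fun l => fromBlocks (A l) (B l) 0 (D l) := by
  obtain ⟨α, β, i1, i2, i3, i4, P, P', Q, Q', h1, h2, h3, h4⟩ := hH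
  refine ⟨α, p ⊕ β, i1, inferInstance, i3, inferInstance, fromCols 0 P, fromRows 0 P',
    fromBlocks 1 0 0 Q, fromBlocks 1 0 0 Q', ?_, ?_, ?_, ?_⟩
  · rw [fromCols_mul_fromRows]
    simp [h1]
  · rw [fromBlocks_multiply]
    simp [h2, fromBlocks_one]
  · intro l
    rw [fromCols_mul_fromBlocks, fromCols_mul_fromBlocks]
    simp [h3 l]
  · rw [Fintype.card_sum, Fintype.card_sum]
    omega

end Blocks

/-- The noncommutative rank theorem. -/
theorem PF_of_not_hol {ι : Type} [Fintype ι] [DecidableEq ι] (N : ℕ) :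
    ∀ (K : Type u) [Field K] [Infinite K] (n : Type) [Fintype n] [DecidableEq n]
      (A : ι → Matrix n n K), Fintype.card n = N → ¬ Hol A → ∃ d : ℕ, PF (Fin (d + 1)) A := by
  induction N using Nat.strong_induction_on with
  | _ N ih =>
  intro K _ _ n _ _ A hN hA
  rcases Nat.eq_zero_or_pos N with h0 | hpos
  · subst h0
    have : IsEmpty n := Fintype.card_eq_zero_iff.1 hN
    refine ⟨0, fun _ => 0, ?_⟩
    rw [Matrix.det_isEmpty]
    exact one_ne_zero
  obtain ⟨d, hd⟩ : ∃ d, d = Fintype.card n * Fintype.card n := ⟨_, rfl⟩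
  by_cases hD : Dl (Fin (d + 1)) A = 0
  swap
  · exact ⟨d, PF_of_Dl hD⟩
  obtain ⟨V, hV, hV0⟩ := exists_matrix_of_Dl A hD
  let m := Fin (d + 1)
  let R := MvPolynomial (ι × m × m) K
  let L := FractionRing R
  let f : K →+* L := (algebraMap R L).comp C
  have hinj : Function.Injective (algebraMap R L) := IsFractionRing.injective R L
  have hinfL : Infinite L := Infinite.of_injective f f.injective
  obtain ⟨ρ, P, P', U, U', hPU, hP, hU⟩ := rank_factor (V.map (algebraMap R L))
  -- `ρ` is positive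
  have hρ : 0 < ρ := by
    rcases Nat.eq_zero_or_pos ρ with h | h
    · subst h
      exfalso
      apply hV
      apply Matrix.map_injective hinj
      show V.map (algebraMap R L) = (0 : Matrix n m R).map (algebraMap R L)
      rw [hPU]
      refine Matrix.ext fun i j => ?_
      rw [Matrix.mul_apply]
      simp
    · exact h
  -- clearing denominators
  obtain ⟨a, P₁, ha, hP₁⟩ := clear_denoms R L P
  obtain ⟨b, U₁, hb, hU₁⟩ := clear_denoms R L U
  have hPU₁ : P₁ * U₁ = (a * b) • V := by
    apply Matrix.map_injective hinj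
    show (P₁ * U₁).map (algebraMap R L) = ((a * b) • V).map (algebraMap R L)
    rw [Matrix.map_mul, hP₁, hU₁, Matrix.smul_mul, Matrix.mul_smul, ← hPU, smul_smul]
    refine Matrix.ext fun i j => ?_
    rw [Matrix.map_apply, Matrix.smul_apply, Matrix.smul_apply, Matrix.map_apply, smul_eq_mul,
      smul_eq_mul, map_mul, map_mul]
  have hsum : ∑ l, Cm m A l * (P₁ * U₁) * (Xm K ι m l)ᵀ = 0 := by
    rw [hPU₁]
    simp only [Matrix.mul_smul, Matrix.smul_mul]
    rw [← Finset.smul_sum, hV0, smul_zero]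
  have hder := sum_pderiv A P₁ U₁ hsum
  -- the families over the field
  let AL : ι → Matrix n n L := fun l => (A l).map f
  let Y : ι → Matrix m m L := fun l => ((Xm K ι m l)ᵀ).map (algebraMap R L)
  have hAL : ∀ l, AL l = (Cm m A l).map (algebraMap R L) := fun l => rfl
  have hH : ¬ Hol AL := fun h => hA (hol_of_mvPolynomial A h)
  have hab : algebraMap R L (a * b) ≠ 0 := by
    rw [map_ne_zero_iff _ hinj]
    exact mul_ne_zero ha hb
  have h0 : ∑ l, AL l * (P * U) * Y l = 0 := by
    rw [← hPU]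
    have h1 := congrArg (fun M => M.map (algebraMap R L)) hV0
    have h2 : (∑ l, Cm m A l * V * (Xm K ι m l)ᵀ).map (algebraMap R L) =
        ∑ l, AL l * V.map (algebraMap R L) * Y l := by
      have h3 : (∑ l, Cm m A l * V * (Xm K ι m l)ᵀ).map (algebraMap R L) =
          ∑ l, (Cm m A l * V * (Xm K ι m l)ᵀ).map (algebraMap R L) := by
        refine Matrix.ext fun i j => ?_
        simp only [Matrix.map_apply, Matrix.sum_apply, map_sum]
      rw [h3]
      refine Finset.sum_congr rfl fun l _ => ?_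
      rw [Matrix.map_mul, Matrix.map_mul]
      rfl
    rw [← h2]
    refine h1.trans ?_
    refine Matrix.ext fun i j => ?_
    simp
  have hDer : ∀ (l : ι) (x y : m), AL l * (P * U) * Matrix.single y x (1 : L) ∈
      LinearMap.range (Psi AL Y P U) := by
    intro l x y
    have h1 := congrArg (fun M => M.map (algebraMap R L)) (hder l x y)
    have h2 : (Cm m A l * (P₁ * U₁) * Matrix.single y x (1 : R)).map (algebraMap R L) =
        algebraMap R L (a * b) • (AL l * (P * U) * Matrix.single y x (1 : L)) := by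
      have h2' : (Matrix.single y x (1 : R)).map (algebraMap R L) = Matrix.single y x (1 : L) := by
        refine Matrix.ext fun i j => ?_
        rw [Matrix.map_apply, Matrix.single_apply, Matrix.single_apply]
        split_ifs <;> simp
      rw [Matrix.map_mul, Matrix.map_mul, Matrix.map_mul, hP₁, hU₁, h2', ← hAL l]
      simp only [Matrix.smul_mul, Matrix.mul_smul, smul_smul]
      rw [← map_mul, mul_comm b a]
    have h3 : (- ∑ l', Cm m A l' * (P₁.map (pderiv (l, x, y)) * U₁ +
        P₁ * U₁.map (pderiv (l, x, y))) * (Xm K ι m l')ᵀ).map (algebraMap R L) =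
        Psi AL Y P U (- (algebraMap R L b • (P₁.map (pderiv (l, x, y))).map (algebraMap R L)),
          - (algebraMap R L a • (U₁.map (pderiv (l, x, y))).map (algebraMap R L))) := by
      have h4 : (- ∑ l', Cm m A l' * (P₁.map (pderiv (l, x, y)) * U₁ +
          P₁ * U₁.map (pderiv (l, x, y))) * (Xm K ι m l')ᵀ).map (algebraMap R L) =
          - ∑ l', (Cm m A l' * (P₁.map (pderiv (l, x, y)) * U₁ +
          P₁ * U₁.map (pderiv (l, x, y))) * (Xm K ι m l')ᵀ).map (algebraMap R L) := by
        refine Matrix.ext fun i j => ?_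
        simp only [Matrix.map_apply, Matrix.neg_apply, Matrix.sum_apply, map_sum, map_neg]
      rw [h4]
      show _ = ∑ l', AL l' * (_ * U + P * _) * Y l'
      rw [← Finset.sum_neg_distrib]
      refine Finset.sum_congr rfl fun l' _ => ?_
      rw [Matrix.map_mul, Matrix.map_mul, Matrix.map_add _ (map_add _), Matrix.map_mul,
        Matrix.map_mul, hP₁, hU₁, ← hAL l', ← Matrix.neg_mul, ← Matrix.mul_neg, neg_add]
      congr 2
      simp only [Matrix.smul_mul, Matrix.mul_smul, Matrix.neg_mul, Matrix.mul_neg]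
    have h5 : AL l * (P * U) * Matrix.single y x (1 : L) =
        (algebraMap R L (a * b))⁻¹ • (algebraMap R L (a * b) •
          (AL l * (P * U) * Matrix.single y x (1 : L))) := by
      rw [smul_smul, inv_mul_cancel₀ hab, one_smul]
    rw [h5]
    apply Submodule.smul_mem
    rw [← h2]
    exact ⟨_, (h1.trans h3).symm⟩
  obtain ⟨hρn, W, W', hW, hAPW⟩ := exists_tight AL Y P P' U U' hP hU hρ h0 hDer
    (by rw [Fintype.card_fin]; omega) hH
  -- block triangular form
  obtain ⟨k, g, g', hg1, hg2, hgP, hk⟩ := exists_compl P P' hP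
  obtain ⟨k', w, w', hw1, hw2, hwW, hk'⟩ := exists_compl W W' hW
  obtain rfl : k = k' := by omega
  rw [Fintype.card_fin] at hk
  have hB21 : ∀ l i j, (w' * AL l * g) (Sum.inr i) (Sum.inl j) = 0 := by
    intro l i j
    have h1 : ∀ i' , (AL l * g) i' (Sum.inl j) = (AL l * P) i' j := by
      intro i'
      rw [Matrix.mul_apply, Matrix.mul_apply]
      simp only [hgP]
    have h2 : (w' * W) (Sum.inr i) = 0 := by
      funext j'
      have := congrFun (congrFun hw2 (Sum.inr i)) (Sum.inl j')
      rw [Matrix.mul_apply] at this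
      rw [Matrix.mul_apply]
      simp only [hwW] at this
      rw [this]
      simp
    rw [Matrix.mul_assoc, Matrix.mul_apply]
    simp only [h1]
    rw [← Matrix.mul_apply, hAPW l, ← Matrix.mul_assoc, Matrix.mul_apply]
    simp only [h2]
    simp
  have hBl : ∀ l, fromBlocks (w' * AL l * g).toBlocks₁₁ (w' * AL l * g).toBlocks₁₂ 0
      (w' * AL l * g).toBlocks₂₂ = w' * AL l * g := by
    intro l
    rw [← fromBlocks_toBlocks (w' * AL l * g)]
    simp only [toBlocks_fromBlocks₁₁, toBlocks_fromBlocks₁₂, toBlocks_fromBlocks₂₂]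
    congr 1
    refine Matrix.ext fun i j => ?_
    exact (hB21 l i j).symm
  have hcard : Fintype.card n = Fintype.card (Fin ρ ⊕ Fin k) := by
    rw [Fintype.card_sum, Fintype.card_fin, Fintype.card_fin, hk]
  have hH1 : ¬ Hol fun l => (w' * AL l * g).toBlocks₁₁ := by
    intro h
    apply hH
    exact hol_of_equiv g w' g' w hg2 hw2 hcard hBl
      (hol_blocks_left (fun l => (w' * AL l * g).toBlocks₁₂)
        (fun l => (w' * AL l * g).toBlocks₂₂) h)
  have hH2 : ¬ Hol fun l => (w' * AL l * g).toBlocks₂₂ := by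
    intro h
    apply hH
    exact hol_of_equiv g w' g' w hg2 hw2 hcard hBl
      (hol_blocks_right (fun l => (w' * AL l * g).toBlocks₁₁)
        (fun l => (w' * AL l * g).toBlocks₁₂) h)
  obtain ⟨d₁, hd₁⟩ := ih ρ (by omega) L (Fin ρ) _ (Fintype.card_fin _) hH1
  obtain ⟨d₂, hd₂⟩ := ih k (by omega) L (Fin k) _ (Fintype.card_fin _) hH2
  obtain ⟨T, hT1, hT2⟩ := exists_common (PF_mul_right (m' := Fin (d₂ + 1)) hd₁)
    (PF_mul_left (m' := Fin (d₁ + 1)) hd₂)
  have hPFB : PF (Fin (d₁ + 1) × Fin (d₂ + 1)) fun l => w' * AL l * g := by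
    refine ⟨T, ?_⟩
    have h1 := det_ks_fromBlocks (fun l => (w' * AL l * g).toBlocks₁₁)
      (fun l => (w' * AL l * g).toBlocks₁₂) (fun l => (w' * AL l * g).toBlocks₂₂) T
    simp only [hBl] at h1
    rw [h1]
    exact mul_ne_zero hT1 hT2
  have hPFA : PF (Fin (d₁ + 1) × Fin (d₂ + 1)) A :=
    PF_of_map f (PF_of_equiv g w' g' w hg1 hg2 hw2 hw1 (fun _ => rfl) hPFB)
  refine ⟨d₁ * d₂ + d₁ + d₂, PF_equiv (finProdFinEquiv.trans (finCongr ?_)) hPFA⟩
  ring

end

end Pool.Agent.H7.NC
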