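import Mathlib
import Pool.Agent.H7.NC.Rank
import Pool.Agent.H7.NC.DescendPID

/-!
# Points of a space of linear forms with values in matrices
-/

namespace Pool.Agent.H7.NC

open Matrix
open scoped Kronecker

set_option linter.unusedSectionVars false
set_option linter.unusedFintypeInType false
set_option linter.unusedDecidableInType false

universe u v

noncomputable section

variable {k : Type u} [Field k] {W : Type u} [AddCommGroup W] [Module k W]

/-- `P M Q` for a matrix `M` of vectors and matrices `P`, `Q` of scalars. -/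
def sand {α n n' β : Type} [Fintype n] [Fintype n'] (P : Matrix α n k) (M : Matrix n n' W)
    (Q : Matrix n' β k) : Matrix α β W :=
  of fun i j => ∑ a, ∑ b, (P i a * Q b j) • M a b

/-- A square matrix of vectors is hollow. -/
def HolW (k : Type u) [Field k] {W : Type u} [AddCommGroup W] [Module k W]
    {n : Type} [Fintype n] [DecidableEq n] (M : Matrix n n W) : Prop :=
  ∃ (α β : Type) (_ : Fintype α) (_ : Fintype β) (_ : DecidableEq α) (_ : DecidableEq β)
    (P : Matrix α n k) (P' : Matrix n α k) (Q : Matrix n β k) (Q' : Matrix β n k),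
    P * P' = 1 ∧ Q' * Q = 1 ∧ sand P M Q = 0 ∧
      Fintype.card n < Fintype.card α + Fintype.card β

/-- A point: a linear map to matrices with `e ↦ 1`. -/
structure Pt (k : Type u) [Field k] {W : Type u} [AddCommGroup W] [Module k W] (e : W) where
  /-- size minus one -/
  d : ℕ
  /-- the map -/
  T : W →ₛₗ[toExt k] Matrix (Fin (d + 1)) (Fin (d + 1)) (Ext k)
  /-- normalisation -/
  hT : T e = 1

section Exists

variable {e : W}

theorem sum3 {G α β γ : Type*} [AddCommMonoid G] [Fintype α] [Fintype β] [Fintype γ]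
    (F : α → β → γ → G) : ∑ a, ∑ b, ∑ l, F a b l = ∑ l, ∑ a, ∑ b, F a b l := by
  rw [Finset.sum_comm]
  have h : ∀ b, ∑ a, ∑ l, F a b l = ∑ l, ∑ a, F a b l := fun b => Finset.sum_comm
  simp only [h]
  rw [Finset.sum_comm]
  refine Finset.sum_congr rfl fun l _ => Finset.sum_comm

theorem PF_unit {L : Type u} [Field L] {ι : Type} [Fintype ι] [DecidableEq ι] (ε : ι → L)
    (hε : ε ≠ 0) (m : Type) [Fintype m] [DecidableEq m] :
    PF m (fun l => (of fun _ _ => ε l : Matrix Unit Unit L)) := by
  obtain ⟨l₀, hl₀⟩ := Function.ne_iff.1 hε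
  refine ⟨fun l => if l = l₀ then 1 else 0, ?_⟩
  have h1 : ks (fun l => (of fun _ _ => ε l : Matrix Unit Unit L))
      (fun l => if l = l₀ then (1 : Matrix m m L) else 0) =
      ε l₀ • (1 : Matrix (Unit × m) (Unit × m) L) := by
    refine Matrix.ext fun x y => ?_
    rw [ks_apply, Finset.sum_eq_single l₀]
    · rw [if_pos rfl, of_apply, Matrix.smul_apply, Matrix.one_apply, Matrix.one_apply, smul_eq_mul]
      congr 2
      rw [Prod.ext_iff]
      simp
    · intro l _ hl
      rw [if_neg hl]
      simp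
    · intro h
      exact absurd (Finset.mem_univ _) h
  rw [h1, Matrix.det_smul, Matrix.det_one, mul_one]
  exact pow_ne_zero _ hl₀

theorem isUnit_of_ks {L : Type u} [Field L] {n m : Type} [Fintype n] [DecidableEq n]
    [Fintype m] [DecidableEq m] (B : Matrix n n (Matrix m m L)) (C : Matrix (n × m) (n × m) L)
    (h : ∀ x y, C x y = B x.1 y.1 x.2 y.2) (hdet : C.det ≠ 0) : IsUnit B := by
  have h1 : IsUnit C := (Matrix.isUnit_iff_isUnit_det C).2 (isUnit_iff_ne_zero.2 hdet)
  have h2 : Matrix.compRingEquiv n m L B = C := by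
    refine Matrix.ext fun x y => ?_
    rw [h]
    rfl
  rw [← h2] at h1
  exact (MulEquiv.isUnit_map (Matrix.compRingEquiv n m L)).1 h1

theorem exists_pt {n : Type} [Fintype n] [DecidableEq n] (M : Matrix n n W) (hM : ¬ HolW k M)
    (he : e ≠ 0) : ∃ p : Pt k e, IsUnit (M.map p.T) := by
  -- a finite dimensional space containing everything
  let S : Submodule k W := Submodule.span k (insert e (Set.range fun x : n × n => M x.1 x.2))
  have hfin : (insert e (Set.range fun x : n × n => M x.1 x.2)).Finite :=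
    (Set.finite_range _).insert e
  have : FiniteDimensional k S := FiniteDimensional.span_of_finite k hfin
  have hMS : ∀ a b, M a b ∈ S := fun a b =>
    Submodule.subset_span (Set.mem_insert_of_mem _ ⟨(a, b), rfl⟩)
  have heS : e ∈ S := Submodule.subset_span (Set.mem_insert _ _)
  let bs := Module.finBasis k S
  let ι := Fin (Module.finrank k S)
  let A : ι → Matrix n n k := fun l => of fun a b => bs.repr ⟨M a b, hMS a b⟩ l
  let ε : ι → k := fun l => bs.repr ⟨e, heS⟩ l
  have hMA : ∀ a b, M a b = ∑ l, A l a b • (bs l : W) := by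
    intro a b
    have h1 := congrArg Subtype.val (bs.sum_repr ⟨M a b, hMS a b⟩)
    rw [AddSubmonoidClass.coe_finsetSum] at h1
    exact h1.symm
  have hε : ε ≠ 0 := by
    intro h
    apply he
    have h1 := congrArg Subtype.val (bs.sum_repr ⟨e, heS⟩)
    rw [AddSubmonoidClass.coe_finsetSum] at h1
    have h2 : ∀ l, bs.repr ⟨e, heS⟩ l = 0 := fun l => congrFun h l
    simp only [h2, zero_smul, ZeroMemClass.coe_zero, Finset.sum_const_zero] at h1
    exact h1.symm
  have hA : ¬ Hol A := by
    rintro ⟨α, β, i1, i2, i3, i4, P, P', Q, Q', h1, h2, h3, h4⟩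
    apply hM
    refine ⟨α, β, i1, i2, i3, i4, P, P', Q, Q', h1, h2, ?_, h4⟩
    refine Matrix.ext fun i j => ?_
    have h5 : ∀ l, ∑ a, ∑ b, P i a * Q b j * A l a b = 0 := by
      intro l
      have h6 := congrFun (congrFun (h3 l) i) j
      rw [Matrix.mul_apply] at h6
      simp only [Matrix.mul_apply, Finset.sum_mul] at h6
      rw [Finset.sum_comm] at h6
      rw [Matrix.zero_apply] at h6
      rw [← h6]
      refine Finset.sum_congr rfl fun a _ => Finset.sum_congr rfl fun b _ => ?_
      ring
    rw [sand, of_apply, Matrix.zero_apply]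
    calc ∑ a, ∑ b, (P i a * Q b j) • M a b
        = ∑ a, ∑ b, ∑ l, (P i a * Q b j * A l a b) • (bs l : W) := by
          refine Finset.sum_congr rfl fun a _ => Finset.sum_congr rfl fun b _ => ?_
          rw [hMA a b, Finset.smul_sum]
          refine Finset.sum_congr rfl fun l _ => ?_
          rw [smul_smul]
      _ = ∑ l, (∑ a, ∑ b, P i a * Q b j * A l a b) • (bs l : W) := by
          rw [sum3]
          simp only [Finset.sum_smul]
      _ = 0 := by
          simp only [h5, zero_smul, Finset.sum_const_zero]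
  -- generic invertibility
  have hA' : ¬ Hol fun l => (A l).map (toExt k) := fun h => hA (hol_of_ext A h)
  obtain ⟨d, hd⟩ := PF_of_not_hol (Fintype.card n) (Ext k) n (fun l => (A l).map (toExt k)) rfl hA'
  have hε' : (fun l => toExt k (ε l)) ≠ 0 := by
    intro h
    apply hε
    funext l
    have h1 : toExt k (ε l) = 0 := congrFun h l
    exact (map_eq_zero _).1 h1
  obtain ⟨T, hT1, hT2⟩ := exists_common hd (PF_unit _ hε' (Fin (d + 1)))
  let m := Fin (d + 1)
  let E : Matrix m m (Ext k) := ∑ l, toExt k (ε l) • T l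
  have hE : E.det ≠ 0 := by
    have h1 : E = (ks (fun l => (of fun _ _ => toExt k (ε l) : Matrix Unit Unit (Ext k))) T).submatrix
        (fun x => ((), x)) (fun x => ((), x)) := by
      refine Matrix.ext fun x y => ?_
      show (∑ l, toExt k (ε l) • T l) x y = _
      rw [Matrix.submatrix_apply, ks_apply, Matrix.sum_apply]
      rfl
    have h2 : E.det = (ks (fun l => (of fun _ _ => toExt k (ε l) : Matrix Unit Unit (Ext k)))
        T).det := by
      rw [h1]
      exact det_submatrix_equiv_self (Equiv.punitProd m).symm _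
    rw [h2]
    exact hT2
  have hEu : IsUnit E.det := isUnit_iff_ne_zero.2 hE
  -- the point
  obtain ⟨g, hg⟩ := LinearMap.exists_leftInverse_of_injective S.subtype
    (LinearMap.ker_eq_bot.2 Subtype.val_injective)
  have hg' : ∀ (w : W) (hw : w ∈ S), g w = ⟨w, hw⟩ := by
    intro w hw
    exact LinearMap.congr_fun hg ⟨w, hw⟩
  let TT : W →ₛₗ[toExt k] Matrix m m (Ext k) :=
    { toFun := fun w => ∑ l, toExt k (bs.repr (g w) l) • (E⁻¹ * T l)
      map_add' := fun w w' => by
        rw [← Finset.sum_add_distrib]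
        refine Finset.sum_congr rfl fun l _ => ?_
        rw [map_add, map_add, Finsupp.add_apply, map_add, add_smul]
      map_smul' := fun c w => by
        rw [Finset.smul_sum]
        refine Finset.sum_congr rfl fun l _ => ?_
        rw [map_smul, map_smul, Finsupp.smul_apply, smul_eq_mul, map_mul, mul_smul] }
  have hTT : ∀ (w : W) (hw : w ∈ S), TT w = ∑ l, toExt k (bs.repr ⟨w, hw⟩ l) • (E⁻¹ * T l) := by
    intro w hw
    show ∑ l, toExt k (bs.repr (g w) l) • (E⁻¹ * T l) = _
    rw [hg' w hw]
  refine ⟨⟨d, TT, ?_⟩, ?_⟩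
  · rw [hTT e heS]
    have h1 : ∑ l, toExt k (bs.repr ⟨e, heS⟩ l) • (E⁻¹ * T l) = E⁻¹ * E := by
      show _ = E⁻¹ * ∑ l, toExt k (ε l) • T l
      rw [Finset.mul_sum]
      refine Finset.sum_congr rfl fun l _ => ?_
      rw [Matrix.mul_smul]
    rw [h1, Matrix.nonsing_inv_mul _ hEu]
  · refine isUnit_of_ks _ (ks (fun l => (A l).map (toExt k)) fun l => E⁻¹ * T l) ?_ ?_
    · intro x y
      rw [Matrix.map_apply, hTT _ (hMS _ _), ks_apply, Matrix.sum_apply]
      rfl
    · have h1 : ks (fun l => (A l).map (toExt k)) (fun l => E⁻¹ * T l) =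
          ((1 : Matrix n n (Ext k)) ⊗ₖ E⁻¹) * ks (fun l => (A l).map (toExt k)) T := by
        simp only [ks, Matrix.mul_sum]
        refine Finset.sum_congr rfl fun l _ => ?_
        rw [← Matrix.mul_kronecker_mul, Matrix.one_mul]
      rw [h1, Matrix.det_mul, Matrix.det_kronecker, Matrix.det_one, one_pow, one_mul,
        Matrix.det_nonsing_inv]
      refine mul_ne_zero (pow_ne_zero _ ?_) hT1
      rw [Ring.inverse_eq_inv']
      exact inv_ne_zero hE

end Exists

section Schur

variable {L : Type u} [Field L] {m : Type} [Fintype m] [DecidableEq m]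

/-- Row vectors of row vectors times a matrix of matrices. -/
def vm {n n' : Type} [Fintype n] (Z : Matrix n n' (Matrix m m L)) :
    (n → m → L) →ₗ[L] (n' → m → L) where
  toFun y := fun j => ∑ i, y i ᵥ* Z i j
  map_add' y y' := by
    funext j
    simp only [Pi.add_apply, add_vecMul, Finset.sum_add_distrib]
  map_smul' c y := by
    funext j
    simp only [Pi.smul_apply, smul_vecMul, Finset.smul_sum, RingHom.id_apply]

theorem vm_apply {n n' : Type} [Fintype n] (Z : Matrix n n' (Matrix m m L)) (y : n → m → L)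
    (j : n') : vm Z y j = ∑ i, y i ᵥ* Z i j := rfl

theorem vm_mul {n n' n'' : Type} [Fintype n] [Fintype n'] (Z : Matrix n n' (Matrix m m L))
    (Z' : Matrix n' n'' (Matrix m m L)) (y : n → m → L) : vm (Z * Z') y = vm Z' (vm Z y) := by
  funext j
  rw [vm_apply, vm_apply]
  simp only [vm_apply, Matrix.mul_apply, sum_vecMul, vecMul_sum, vecMul_vecMul]
  exact Finset.sum_comm

theorem vm_one {n : Type} [Fintype n] [DecidableEq n] (y : n → m → L) :
    vm (1 : Matrix n n (Matrix m m L)) y = y := by
  funext j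
  rw [vm_apply, Finset.sum_eq_single j]
  · rw [Matrix.one_apply_eq, vecMul_one]
  · intro i _ hi
    rw [Matrix.one_apply_ne hi, vecMul_zero]
  · intro h
    exact absurd (Finset.mem_univ _) h

/-- Scalars as matrices. -/
def sc (k : Type u) [Field k] (m : Type) [Fintype m] [DecidableEq m] :
    k →+* Matrix m m (Ext k) :=
  (algebraMap (Ext k) (Matrix m m (Ext k))).comp (toExt k)

theorem sc_mul (c : k) (Z : Matrix m m (Ext k)) : sc k m c * Z = toExt k c • Z := by
  rw [Algebra.smul_def]
  rfl

theorem mul_sc (c : k) (Z : Matrix m m (Ext k)) : Z * sc k m c = toExt k c • Z := by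
  rw [Algebra.smul_def, Algebra.commutes]
  rfl

/-- The evaluation of `P M Q`. -/
theorem map_sand {α n n' β : Type} [Fintype n] [Fintype n']
    (T : W →ₛₗ[toExt k] Matrix m m (Ext k)) (P : Matrix α n k) (M : Matrix n n' W)
    (Q : Matrix n' β k) :
    P.map (sc k m) * M.map T * Q.map (sc k m) = (sand P M Q).map T := by
  refine Matrix.ext fun i j => ?_
  rw [Matrix.map_apply, sand, of_apply, Matrix.mul_apply]
  simp only [Matrix.mul_apply, Matrix.map_apply, Finset.sum_mul, map_sum]
  rw [Finset.sum_comm]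
  refine Finset.sum_congr rfl fun a _ => Finset.sum_congr rfl fun b _ => ?_
  rw [sc_mul, mul_sc, smul_smul, LinearMap.map_smulₛₗ, map_mul, mul_comm]

theorem map_sc_mul {α β γ : Type} [Fintype β] (P : Matrix α β k) (Q : Matrix β γ k) :
    P.map (sc k m) * Q.map (sc k m) = (P * Q).map (sc k m) := (Matrix.map_mul).symm

theorem map_sc_one {α : Type} [DecidableEq α] :
    (1 : Matrix α α k).map (sc k m) = 1 := Matrix.map_one _ (map_zero _) (map_one _)

/-- The evaluation of a hollow matrix has a large kernel. -/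
theorem ker_of_hol {n : Type} [Fintype n] [DecidableEq n]
    (T : W →ₛₗ[toExt k] Matrix m m (Ext k)) (M : Matrix n n W) (hM : HolW k M) :
    Fintype.card m ≤ Module.finrank (Ext k) (LinearMap.ker (vm (M.map T))) := by
  obtain ⟨α, β, i1, i2, i3, i4, P, P', Q, Q', h1, h2, h3, h4⟩ := hM
  let p : (α → m → Ext k) →ₗ[Ext k] (n → m → Ext k) := vm (P.map (sc k m))
  let q : (n → m → Ext k) →ₗ[Ext k] (β → m → Ext k) := vm (Q.map (sc k m))
  have hp : Function.Injective p := by
    intro y y' h
    have h5 : ∀ z, vm (P'.map (sc k m)) (p z) = z := by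
      intro z
      show vm (P'.map (sc k m)) (vm (P.map (sc k m)) z) = z
      rw [← vm_mul, map_sc_mul, h1, map_sc_one, vm_one]
    rw [← h5 y, h, h5]
  have hq : Function.Surjective q := by
    intro z
    refine ⟨vm (Q'.map (sc k m)) z, ?_⟩
    show vm (Q.map (sc k m)) (vm (Q'.map (sc k m)) z) = z
    rw [← vm_mul, map_sc_mul, h2, map_sc_one, vm_one]
  have hqp : ∀ y, q (vm (M.map T) (p y)) = 0 := by
    intro y
    show vm (Q.map (sc k m)) (vm (M.map T) (vm (P.map (sc k m)) y)) = 0
    rw [← vm_mul, ← vm_mul, ← Matrix.mul_assoc, map_sand, h3]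
    funext j
    rw [vm_apply]
    refine Finset.sum_eq_zero fun i _ => ?_
    rw [Matrix.map_apply, Matrix.zero_apply, map_zero, vecMul_zero]
  -- dimensions
  let f : (α → m → Ext k) →ₗ[Ext k] LinearMap.ker q :=
    LinearMap.codRestrict (LinearMap.ker q) ((vm (M.map T)) ∘ₗ p) hqp
  have e1 := LinearMap.finrank_range_add_finrank_ker f
  have e2 := LinearMap.finrank_range_add_finrank_ker q
  have e3 : Module.finrank (Ext k) (LinearMap.range f) ≤
      Module.finrank (Ext k) (LinearMap.ker q) := Submodule.finrank_le _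
  rw [LinearMap.range_eq_top.2 hq, finrank_top] at e2
  have fr : ∀ (γ : Type) [Fintype γ], Module.finrank (Ext k) (γ → m → Ext k) =
      Fintype.card γ * Fintype.card m := by
    intro γ _
    rw [Module.finrank_pi_fintype]
    simp
  rw [fr] at e1
  rw [fr, fr] at e2
  have e4 : Module.finrank (Ext k) (LinearMap.ker f) ≤
      Module.finrank (Ext k) (LinearMap.ker (vm (M.map T))) := by
    let g : LinearMap.ker f →ₗ[Ext k] LinearMap.ker (vm (M.map T)) :=
      LinearMap.codRestrict _ (p ∘ₗ (LinearMap.ker f).subtype) (by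
        rintro ⟨y, hy⟩
        exact congrArg Subtype.val hy)
    refine LinearMap.finrank_le_finrank_of_injective (f := g) ?_
    intro y y' h
    exact Subtype.ext (hp (congrArg Subtype.val h))
  have e5 : (Fintype.card n + 1) * Fintype.card m ≤
      (Fintype.card α + Fintype.card β) * Fintype.card m :=
    Nat.mul_le_mul_right _ h4
  rw [add_mul, add_mul, one_mul] at e5
  omega

/-- The bordered matrix. -/
def bordW {n : Type} (e : W) (A : Matrix n n W) (c b : n → k) : Matrix (n ⊕ Unit) (n ⊕ Unit) W :=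
  fromBlocks A (of fun i _ => b i • e) (of fun _ j => c j • e) 0

/-- If the bordered matrix is hollow then the Schur complement vanishes. -/
theorem schur_eq_zero {e : W} {n : Type} [Fintype n] [DecidableEq n] (p : Pt k e)
    (A : Matrix n n W) (c b : n → k) (hb : HolW k (bordW e A c b))
    (X : Matrix n n (Matrix (Fin (p.d + 1)) (Fin (p.d + 1)) (Ext k)))
    (hX : A.map p.T * X = 1) :
    ∑ i, ∑ j, sc k _ (c i) * X i j * sc k _ (b j) = 0 := by
  have h1 := ker_of_hol p.T (bordW e A c b) hb
  let m := Fin (p.d + 1)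
  let s : Matrix m m (Ext k) := ∑ i, ∑ j, sc k _ (c i) * X i j * sc k _ (b j)
  let g : LinearMap.ker (vm ((bordW e A c b).map p.T)) →ₗ[Ext k] (m → Ext k) :=
    { toFun := fun y => y.1 (Sum.inr ())
      map_add' := fun _ _ => rfl
      map_smul' := fun _ _ => rfl }
  have hTe : ∀ x : k, p.T (x • e) = sc k m x := by
    intro x
    rw [LinearMap.map_smulₛₗ, p.hT]
    exact (Algebra.algebraMap_eq_smul_one _).symm
  have hy1 : ∀ y ∈ LinearMap.ker (vm ((bordW e A c b).map p.T)), ∀ i,
      vm (A.map p.T) (fun i => y (Sum.inl i)) i = - (y (Sum.inr ()) ᵥ* sc k m (c i)) := by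
    intro y hy i
    have h2 := congrFun (LinearMap.mem_ker.1 hy) (Sum.inl i)
    rw [vm_apply, Fintype.sum_sum_type] at h2
    simp only [bordW, Matrix.map_apply, fromBlocks_apply₁₁, fromBlocks_apply₂₁, of_apply,
      Finset.univ_unique, Finset.sum_singleton, hTe] at h2
    exact eq_neg_of_add_eq_zero_left h2
  have hy2 : ∀ y ∈ LinearMap.ker (vm ((bordW e A c b).map p.T)),
      ∑ i, y (Sum.inl i) ᵥ* sc k m (b i) = 0 := by
    intro y hy
    have h2 := congrFun (LinearMap.mem_ker.1 hy) (Sum.inr ())
    rw [vm_apply, Fintype.sum_sum_type] at h2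
    simp only [bordW, Matrix.map_apply, fromBlocks_apply₁₂, fromBlocks_apply₂₂, of_apply,
      Finset.univ_unique, Finset.sum_singleton, hTe, Matrix.zero_apply, map_zero,
      vecMul_zero, add_zero] at h2
    exact h2
  have hy3 : ∀ y ∈ LinearMap.ker (vm ((bordW e A c b).map p.T)), ∀ i,
      y (Sum.inl i) = - ∑ i', (y (Sum.inr ()) ᵥ* sc k m (c i')) ᵥ* X i' i := by
    intro y hy i
    have h2 : (fun i => y (Sum.inl i)) = vm X (vm (A.map p.T) (fun i => y (Sum.inl i))) := by
      rw [← vm_mul, hX, vm_one]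
    have h3 := congrFun h2 i
    rw [h3, vm_apply, ← Finset.sum_neg_distrib]
    refine Finset.sum_congr rfl fun i' _ => ?_
    rw [hy1 y hy i', neg_vecMul]
  have hy4 : ∀ y ∈ LinearMap.ker (vm ((bordW e A c b).map p.T)), y (Sum.inr ()) ᵥ* s = 0 := by
    intro y hy
    have h2 := hy2 y hy
    simp only [hy3 y hy, neg_vecMul, Finset.sum_neg_distrib, neg_eq_zero, sum_vecMul] at h2
    show y (Sum.inr ()) ᵥ* (∑ i, ∑ j, sc k _ (c i) * X i j * sc k _ (b j)) = 0
    rw [Finset.sum_comm, ← h2, vecMul_sum]
    refine Finset.sum_congr rfl fun i _ => ?_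
    rw [vecMul_sum]
    refine Finset.sum_congr rfl fun j _ => ?_
    rw [vecMul_vecMul, vecMul_vecMul, Matrix.mul_assoc]
  have hg : Function.Injective g := by
    rw [← LinearMap.ker_eq_bot, LinearMap.ker_eq_bot']
    rintro ⟨y, hy⟩ hy0
    have h0 : y (Sum.inr ()) = 0 := hy0
    apply Subtype.ext
    funext i
    rcases i with i | i
    · show y (Sum.inl i) = 0
      rw [hy3 y hy i, h0]
      simp
    · exact h0
  let v : (m → Ext k) →ₗ[Ext k] (m → Ext k) := Matrix.vecMulLinear s
  have hgv : ∀ y, g y ∈ LinearMap.ker v := fun y => hy4 y.1 y.2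
  have h2 := LinearMap.finrank_le_finrank_of_injective
    (f := LinearMap.codRestrict (LinearMap.ker v) g hgv)
    (fun y y' h => hg (congrArg Subtype.val h))
  have h3 : LinearMap.ker v = ⊤ := by
    apply Submodule.eq_top_of_finrank_eq
    apply le_antisymm (Submodule.finrank_le _)
    rw [Module.finrank_fintype_fun_eq_card]
    exact h1.trans h2
  show s = 0
  refine Matrix.ext fun i j => ?_
  have h4 : (Pi.single i 1 : m → Ext k) ∈ LinearMap.ker v := by
    rw [h3]
    trivial
  have h5 : (Pi.single i 1 : m → Ext k) ᵥ* s = 0 := LinearMap.mem_ker.1 h4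
  have h6 := congrFun h5 j
  rw [Matrix.single_one_vecMul] at h6
  exact h6

end Schur

end

end Pool.Agent.H7.NC
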