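import Mathlib
import Pool.Agent.H7.NC.Point

/-!
# Closure properties of hollow matrices
-/

namespace Pool.Agent.H7.NC

open Matrix

set_option linter.unusedSectionVars false
set_option linter.unusedFintypeInType false
set_option linter.unusedDecidableInType false

universe u v

noncomputable section

variable {k : Type u} [Field k] {W : Type u} [AddCommGroup W] [Module k W]

/-- The pairing of a row vector and a column vector through a matrix of vectors. -/
def pr {n n' : Type} [Fintype n] [Fintype n'] (M : Matrix n n' W) :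
    (n → k) →ₗ[k] (n' → k) →ₗ[k] W :=
  LinearMap.mk₂ k (fun u v => ∑ a, ∑ b, (u a * v b) • M a b)
    (by
      intro u u' v
      simp only [Pi.add_apply, add_mul, add_smul, Finset.sum_add_distrib])
    (by
      intro c u v
      simp only [Pi.smul_apply, smul_eq_mul, Finset.smul_sum, smul_smul, mul_assoc])
    (by
      intro u v v'
      simp only [Pi.add_apply, mul_add, add_smul, Finset.sum_add_distrib])
    (by
      intro c u v
      simp only [Pi.smul_apply, smul_eq_mul, Finset.smul_sum, smul_smul, mul_left_comm])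

theorem pr_apply {n n' : Type} [Fintype n] [Fintype n'] (M : Matrix n n' W) (u : n → k)
    (v : n' → k) : pr M u v = ∑ a, ∑ b, (u a * v b) • M a b := rfl

theorem sand_eq {α n n' β : Type} [Fintype n] [Fintype n'] (P : Matrix α n k) (M : Matrix n n' W)
    (Q : Matrix n' β k) (i : α) (j : β) : sand P M Q i j = pr M (P i) (fun b => Q b j) := rfl

/-- Row spaces. -/
theorem exists_rows {n : Type} [Fintype n] [DecidableEq n] (U : Submodule k (n → k)) :
    ∃ (P : Matrix (Fin (Module.finrank k U)) n k) (P' : Matrix n (Fin (Module.finrank k U)) k),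
      P * P' = 1 ∧ (∀ i, P i ∈ U) ∧ ∀ u ∈ U, ∃ y, u = y ᵥ* P := by
  obtain ⟨Q, Q', h1, h2⟩ := exists_basis_matrix U
  refine ⟨Qᵀ, Q'ᵀ, by rw [← Matrix.transpose_mul, h1, Matrix.transpose_one], ?_, ?_⟩
  · intro i
    rw [h2]
    refine ⟨Pi.single i 1, ?_⟩
    rw [mulVec_single_one]
    rfl
  · intro u hu
    obtain ⟨y, rfl⟩ := (h2 u).1 hu
    exact ⟨y, (vecMul_transpose Q y).symm⟩

theorem holW_iff {n : Type} [Fintype n] [DecidableEq n] (M : Matrix n n W) :
    HolW k M ↔ ∃ U V : Submodule k (n → k), (∀ u ∈ U, ∀ v ∈ V, pr M u v = 0) ∧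
      Fintype.card n < Module.finrank k U + Module.finrank k V := by
  constructor
  · rintro ⟨α, β, i1, i2, i3, i4, P, P', Q, Q', h1, h2, h3, h4⟩
    refine ⟨LinearMap.range P.vecMulLinear, LinearMap.range Q.mulVecLin, ?_, ?_⟩
    · rintro _ ⟨y, rfl⟩ _ ⟨z, rfl⟩
      have e1 : P.vecMulLinear y = ∑ i, y i • P i := by
        funext a
        simp [vecMul, dotProduct, Finset.sum_apply]
      have e2 : Q.mulVecLin z = ∑ j, z j • (fun b => Q b j) := by
        funext a
        simp [mulVec, dotProduct, Finset.sum_apply, mul_comm]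
      have h5 : ∀ i j, pr M (P i) (fun b => Q b j) = 0 := by
        intro i j
        rw [← sand_eq, h3, Matrix.zero_apply]
      rw [e1, e2]
      simp only [map_sum, map_smul, LinearMap.sum_apply, LinearMap.smul_apply, h5, smul_zero,
        Finset.sum_const_zero]
    · have e1 : Function.Injective P.vecMulLinear := by
        intro y y' h
        have h5 : ∀ z : α → k, (P.vecMulLinear z) ᵥ* P' = z := by
          intro z
          rw [Matrix.vecMulLinear_apply, vecMul_vecMul, h1, vecMul_one]
        rw [← h5 y, h, h5]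
      have e2 : Function.Injective Q.mulVecLin := by
        intro y y' h
        have h5 : ∀ z : β → k, Q' *ᵥ (Q.mulVecLin z) = z := by
          intro z
          rw [Matrix.mulVecLin_apply, mulVec_mulVec, h2, one_mulVec]
        rw [← h5 y, h, h5]
      rw [LinearMap.finrank_range_of_inj e1, LinearMap.finrank_range_of_inj e2,
        Module.finrank_fintype_fun_eq_card, Module.finrank_fintype_fun_eq_card]
      exact h4
  · rintro ⟨U, V, h1, h2⟩
    obtain ⟨P, P', hP, hPU, _⟩ := exists_rows U
    obtain ⟨Q, Q', hQ, hQV⟩ := exists_basis_matrix V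
    refine ⟨_, _, inferInstance, inferInstance, inferInstance, inferInstance, P, P', Q, Q', hP,
      hQ, ?_, by simpa only [Fintype.card_fin] using h2⟩
    refine Matrix.ext fun i j => ?_
    rw [sand_eq]
    apply h1 _ (hPU i)
    rw [hQV]
    refine ⟨Pi.single j 1, ?_⟩
    rw [mulVec_single_one]
    rfl

/-- Block triangular matrices. -/
theorem not_holW_fromBlocks {n n' : Type} [Fintype n] [DecidableEq n] [Fintype n']
    [DecidableEq n'] (A : Matrix n n W) (B : Matrix n n' W) (D : Matrix n' n' W)
    (hA : ¬ HolW k A) (hD : ¬ HolW k D) : ¬ HolW k (fromBlocks A B 0 D) := by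
  rw [holW_iff] at hA hD ⊢
  rintro ⟨U, V, h1, h2⟩
  let l1 : (n ⊕ n' → k) →ₗ[k] (n → k) := LinearMap.funLeft k k Sum.inl
  let l2 : (n ⊕ n' → k) →ₗ[k] (n' → k) := LinearMap.funLeft k k Sum.inr
  -- the pairing in blocks
  have hpr : ∀ u v : n ⊕ n' → k, pr (fromBlocks A B 0 D) u v =
      pr A (l1 u) (l1 v) + pr B (l1 u) (l2 v) + pr D (l2 u) (l2 v) := by
    intro u v
    simp only [pr_apply, Fintype.sum_sum_type, fromBlocks_apply₁₁, fromBlocks_apply₁₂,
      fromBlocks_apply₂₁, fromBlocks_apply₂₂, Matrix.zero_apply, smul_zero,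
      Finset.sum_const_zero, Finset.sum_add_distrib]
    rw [add_zero, ← add_assoc]
    rfl
  -- the subspaces
  let U1 := U.map l1
  let U2 := (U ⊓ LinearMap.ker l1).map l2
  let V2 := V.map l2
  let V1 := (V ⊓ LinearMap.ker l2).map l1
  have inj2 : ∀ x : n ⊕ n' → k, l1 x = 0 → l2 x = 0 → x = 0 := by
    intro x hx1 hx2
    funext i
    rcases i with i | i
    · exact congrFun hx1 i
    · exact congrFun hx2 i
  have dimU : Module.finrank k U = Module.finrank k U1 + Module.finrank k U2 := by
    have e1 := LinearMap.finrank_range_add_finrank_ker (l1.domRestrict U)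
    have e2 : LinearMap.range (l1.domRestrict U) = U1 := by
      rw [LinearMap.range_domRestrict]
    have e3 : Module.finrank k (LinearMap.ker (l1.domRestrict U)) = Module.finrank k U2 := by
      let g : LinearMap.ker (l1.domRestrict U) →ₗ[k] U2 :=
        { toFun := fun x => ⟨l2 x.1.1, ⟨x.1.1, ⟨x.1.2, x.2⟩, rfl⟩⟩
          map_add' := fun x y => Subtype.ext (map_add l2 _ _)
          map_smul' := fun c x => Subtype.ext (map_smul l2 _ _) }
      refine LinearEquiv.finrank_eq (LinearEquiv.ofBijective g ⟨?_, ?_⟩)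
      · rw [injective_iff_map_eq_zero]
        intro x hx
        apply Subtype.ext
        apply Subtype.ext
        exact inj2 _ x.2 (congrArg Subtype.val hx)
      · rintro ⟨_, x, ⟨hx1, hx2⟩, rfl⟩
        exact ⟨⟨⟨x, hx1⟩, hx2⟩, rfl⟩
    rw [e2, e3] at e1
    exact e1.symm
  have dimV : Module.finrank k V = Module.finrank k V2 + Module.finrank k V1 := by
    have e1 := LinearMap.finrank_range_add_finrank_ker (l2.domRestrict V)
    have e2 : LinearMap.range (l2.domRestrict V) = V2 := by
      rw [LinearMap.range_domRestrict]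
    have e3 : Module.finrank k (LinearMap.ker (l2.domRestrict V)) = Module.finrank k V1 := by
      let g : LinearMap.ker (l2.domRestrict V) →ₗ[k] V1 :=
        { toFun := fun x => ⟨l1 x.1.1, ⟨x.1.1, ⟨x.1.2, x.2⟩, rfl⟩⟩
          map_add' := fun x y => Subtype.ext (map_add l1 _ _)
          map_smul' := fun c x => Subtype.ext (map_smul l1 _ _) }
      refine LinearEquiv.finrank_eq (LinearEquiv.ofBijective g ⟨?_, ?_⟩)
      · rw [injective_iff_map_eq_zero]
        intro x hx
        apply Subtype.ext
        apply Subtype.ext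
        exact inj2 _ (congrArg Subtype.val hx) x.2
      · rintro ⟨_, x, ⟨hx1, hx2⟩, rfl⟩
        exact ⟨⟨⟨x, hx1⟩, hx2⟩, rfl⟩
    rw [e2, e3] at e1
    exact e1.symm
  have hA' : Module.finrank k U1 + Module.finrank k V1 ≤ Fintype.card n := by
    by_contra hlt
    push Not at hlt
    apply hA
    refine ⟨U1, V1, ?_, hlt⟩
    rintro _ ⟨u, hu, rfl⟩ _ ⟨v, ⟨hv1, hv2⟩, rfl⟩
    have h3 := h1 u hu v hv1
    rw [hpr] at h3
    have h4 : l2 v = 0 := hv2
    rw [h4, map_zero, map_zero, add_zero, add_zero] at h3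
    exact h3
  have hD' : Module.finrank k U2 + Module.finrank k V2 ≤ Fintype.card n' := by
    by_contra hlt
    push Not at hlt
    apply hD
    refine ⟨U2, V2, ?_, hlt⟩
    rintro _ ⟨u, ⟨hu1, hu2⟩, rfl⟩ _ ⟨v, hv, rfl⟩
    have h3 := h1 u hu1 v hv
    rw [hpr] at h3
    have h4 : l1 u = 0 := hu2
    rw [h4, map_zero, LinearMap.zero_apply, map_zero, LinearMap.zero_apply, zero_add,
      zero_add] at h3
    exact h3
  rw [Fintype.card_sum] at h2
  omega

/-- The adjoint matrix. -/
def adj {n n' : Type} (σ : W →ₗ[k] W) (M : Matrix n n' W) : Matrix n' n W :=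
  of fun i j => σ (M j i)

theorem pr_adj {n n' : Type} [Fintype n] [Fintype n'] (σ : W →ₗ[k] W) (M : Matrix n n' W)
    (u : n' → k) (v : n → k) : pr (adj σ M) u v = σ (pr M v u) := by
  rw [pr_apply, pr_apply, map_sum, Finset.sum_comm]
  refine Finset.sum_congr rfl fun a _ => ?_
  rw [map_sum]
  refine Finset.sum_congr rfl fun b _ => ?_
  rw [map_smul, mul_comm]
  rfl

theorem not_holW_adj {n : Type} [Fintype n] [DecidableEq n] (σ : W →ₗ[k] W)
    (hσ : ∀ w, σ (σ w) = w) (M : Matrix n n W) (hM : ¬ HolW k M) : ¬ HolW k (adj σ M) := by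
  rw [holW_iff] at hM ⊢
  rintro ⟨U, V, h1, h2⟩
  apply hM
  refine ⟨V, U, fun v hv u hu => ?_, by omega⟩
  have h3 := h1 u hu v hv
  rw [pr_adj] at h3
  have h4 := congrArg σ h3
  rw [hσ, map_zero] at h4
  exact h4

/-- Non-hollowness detected by a functional. -/
theorem not_holW_of_functional {n : Type} [Fintype n] [DecidableEq n] (f : W →ₗ[k] k)
    (M : Matrix n n W) (h : (M.map f).det ≠ 0) : ¬ HolW k M := by
  rintro ⟨α, β, i1, i2, i3, i4, P, P', Q, Q', h1, h2, h3, h4⟩
  have hu : IsUnit (M.map f).det := isUnit_iff_ne_zero.2 h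
  have e1 : P * M.map f * Q = 0 := by
    refine Matrix.ext fun i j => ?_
    have h5 := congrFun (congrFun h3 i) j
    rw [sand, of_apply, Matrix.zero_apply] at h5
    have h6 := congrArg f h5
    rw [map_zero] at h6
    rw [Matrix.zero_apply, ← h6, Matrix.mul_apply]
    simp only [Matrix.mul_apply, Finset.sum_mul, map_sum, map_smul, smul_eq_mul,
      Matrix.map_apply]
    rw [Finset.sum_comm]
    refine Finset.sum_congr rfl fun a _ => Finset.sum_congr rfl fun b _ => ?_
    ring
  have e2 := Matrix.rank_add_rank_le_card_of_mul_eq_zero e1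
  have e3 : Fintype.card α ≤ (P * M.map f).rank := by
    have h5 : P * M.map f * ((M.map f)⁻¹ * P') = 1 := by
      rw [Matrix.mul_assoc, ← Matrix.mul_assoc (M.map f), Matrix.mul_nonsing_inv _ hu,
        Matrix.one_mul, h1]
    have h6 := Matrix.rank_mul_le_left (P * M.map f) ((M.map f)⁻¹ * P')
    rw [h5, Matrix.rank_one] at h6
    exact h6
  have e4 : Fintype.card β ≤ Q.rank := by
    have h6 := Matrix.rank_mul_le_right Q' Q
    rw [h2, Matrix.rank_one] at h6
    exact h6
  omega

theorem not_holW_one {e : W} (he : e ≠ 0) : ¬ HolW k (of fun _ _ => e : Matrix Unit Unit W) := by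
  obtain ⟨f, hf⟩ := LinearMap.exists_leftInverse_of_injective (LinearMap.toSpanSingleton k W e)
    (LinearMap.ker_toSpanSingleton k he)
  have hfe : f e = 1 := by
    have := LinearMap.congr_fun hf 1
    simpa using this
  apply not_holW_of_functional f
  simp [hfe]

end

end Pool.Agent.H7.NC
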