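import Mathlib
import Pool.Agent.H7.NC.Hollow

/-!
# The field of fractions attached to a space of linear forms
-/

namespace Pool.Agent.H7.NC

open Matrix

set_option linter.unusedSectionVars false
set_option linter.unusedFintypeInType false
set_option linter.unusedDecidableInType false

universe u v

noncomputable section

variable {k : Type u} [Field k] {W : Type u} [AddCommGroup W] [Module k W]

/-- A ring in which all non-hollow matrices of linear forms are invertible. -/
structure PenFam (e : W) (σ : W →ₗ[k] W) {Q : Type u} [Ring Q] [StarRing Q] (φ : k →+* Q)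
    (ρ : W →+ Q) : Prop where
  comm : ∀ (c : k) (x : Q), φ c * x = x * φ c
  smul : ∀ (c : k) (w : W), ρ (c • w) = φ c * ρ w
  one : ρ e = 1
  star_rho : ∀ w, star (ρ w) = ρ (σ w)
  star_phi : ∀ c, star (φ c) = φ c
  unit : ∀ (ι : Type) [Fintype ι] [DecidableEq ι] (A : Matrix ι ι W), ¬ HolW k A →
    ∃ X : Matrix ι ι Q, A.map ρ * X = 1 ∧ X * A.map ρ = 1
  bord : ∀ (ι : Type) [Fintype ι] [DecidableEq ι] (A : Matrix ι ι W) (c b : ι → k),
    ¬ HolW k A → HolW k (bordW e A c b) →
    ∀ X : Matrix ι ι Q, A.map ρ * X = 1 → X * A.map ρ = 1 →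
      (fun i => φ (c i)) ⬝ᵥ (X *ᵥ fun i => φ (b i)) = 0
  nontriv : (1 : Q) ≠ 0
  e_ne : e ≠ 0
  inv : ∀ w, σ (σ w) = w
  fixe : σ e = e

/-- `q = c ρ(A)⁻¹ b` for some non-hollow `A`. -/
def IsEnt {Q : Type u} [Ring Q] (φ : k →+* Q) (ρ : W →+ Q) (q : Q) : Prop :=
  ∃ (ι : Type) (_ : Fintype ι) (_ : DecidableEq ι) (A : Matrix ι ι W) (c b : ι → k)
    (X : Matrix ι ι Q), ¬ HolW k A ∧ A.map ρ * X = 1 ∧ X * A.map ρ = 1 ∧
      q = (fun i => φ (c i)) ⬝ᵥ (X *ᵥ fun i => φ (b i))

section

variable {e : W} {σ : W →ₗ[k] W} {Q : Type u} [Ring Q] [StarRing Q] {φ : k →+* Q} {ρ : W →+ Q}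

theorem PenFam.smul_one (h : PenFam e σ φ ρ) (c : k) : ρ (c • e) = φ c := by
  rw [h.smul, h.one, mul_one]

theorem ent_one (h : PenFam e σ φ ρ) : IsEnt φ ρ (1 : Q) := by
  refine ⟨Unit, inferInstance, inferInstance, of fun _ _ => e, fun _ => 1, fun _ => 1, 1,
    not_holW_one h.e_ne, ?_, ?_, ?_⟩
  · ext i j
    simp [h.one]
  · ext i j
    simp [h.one]
  · simp [dotProduct]

theorem ent_neg {q : Q} (hq : IsEnt φ ρ q) : IsEnt φ ρ (-q) := by
  obtain ⟨ι, _, _, A, c, b, X, hA, h1, h2, rfl⟩ := hq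
  refine ⟨ι, inferInstance, inferInstance, A, fun i => - c i, b, X, hA, h1, h2, ?_⟩
  simp only [map_neg]
  rw [← neg_dotProduct]
  rfl

theorem elim_comp' {ι κ : Type} (f : ι → k) (g : κ → k) :
    (fun i => φ (Sum.elim f g i)) = Sum.elim (fun i => φ (f i)) (fun i => φ (g i)) := by
  funext i
  cases i <;> rfl

theorem map_rho_zero {ι κ : Type} : (0 : Matrix ι κ W).map ρ = 0 := by
  ext i j
  simp

theorem ent_add {q q' : Q} (hq : IsEnt φ ρ q) (hq' : IsEnt φ ρ q') : IsEnt φ ρ (q + q') := by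
  obtain ⟨ι, _, _, A, c, b, X, hA, h1, h2, rfl⟩ := hq
  obtain ⟨κ, _, _, A', c', b', X', hA', h1', h2', rfl⟩ := hq'
  refine ⟨ι ⊕ κ, inferInstance, inferInstance, fromBlocks A 0 0 A', Sum.elim c c', Sum.elim b b',
    fromBlocks X 0 0 X', not_holW_fromBlocks _ _ _ hA hA', ?_, ?_, ?_⟩
  · rw [fromBlocks_map, fromBlocks_multiply, map_rho_zero, map_rho_zero]
    simp [h1, h1']
  · rw [fromBlocks_map, fromBlocks_multiply, map_rho_zero, map_rho_zero]
    simp [h2, h2']
  · rw [elim_comp', elim_comp', fromBlocks_mulVec, sumElim_dotProduct_sumElim]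
    simp

theorem ent_mul (h : PenFam e σ φ ρ) {q q' : Q} (hq : IsEnt φ ρ q)
    (hq' : IsEnt φ ρ q') : IsEnt φ ρ (q * q') := by
  obtain ⟨ι, _, _, A, c, b, X, hA, h1, h2, rfl⟩ := hq
  obtain ⟨κ, _, _, A', c', b', X', hA', h1', h2', rfl⟩ := hq'
  obtain ⟨M, hM⟩ : ∃ M : Matrix ι κ Q, M = of fun i j => φ (b i * c' j) := ⟨_, rfl⟩
  have hm : (of fun i j => - ((b i * c' j) • e)).map ρ = - M := by
    rw [hM]
    ext i j
    simp only [Matrix.map_apply, of_apply, map_neg, h.smul_one, Matrix.neg_apply]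
  refine ⟨ι ⊕ κ, inferInstance, inferInstance, fromBlocks A (of fun i j => - ((b i * c' j) • e)) 0 A',
    Sum.elim c 0, Sum.elim 0 b',
    fromBlocks X (X * M * X') 0 X', not_holW_fromBlocks _ _ _ hA hA',
    ?_, ?_, ?_⟩
  · rw [fromBlocks_map, fromBlocks_multiply, hm, map_rho_zero]
    simp [h1, h1', ← Matrix.mul_assoc]
  · rw [fromBlocks_map, fromBlocks_multiply, hm, map_rho_zero]
    simp [h2, h2', Matrix.mul_assoc]
  · rw [elim_comp', elim_comp', fromBlocks_mulVec, sumElim_dotProduct_sumElim]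
    have hz : (fun i : ι => φ ((0 : ι → k) i)) = 0 := by ext; simp
    have hz' : (fun i : κ => φ ((0 : κ → k) i)) = 0 := by ext; simp
    rw [hz, hz']
    simp only [Sum.elim_comp_inl, Sum.elim_comp_inr, mulVec_zero, zero_add, zero_dotProduct,
      add_zero]
    rw [← mulVec_mulVec, ← mulVec_mulVec]
    have : M *ᵥ (X' *ᵥ fun i => φ (b' i)) =
        fun i => φ (b i) * ((fun i => φ (c' i)) ⬝ᵥ (X' *ᵥ fun i => φ (b' i))) := by
      rw [hM]
      ext i
      simp [mulVec, dotProduct, Finset.mul_sum, mul_assoc]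
    rw [this]
    simp only [dotProduct, mulVec, Finset.sum_mul, mul_assoc]

theorem ent_inv (h : PenFam e σ φ ρ) {q : Q} (hq : IsEnt φ ρ q) :
    q = 0 ∨ ∃ q', IsEnt φ ρ q' ∧ q * q' = 1 ∧ q' * q = 1 := by
  obtain ⟨ι, _, _, A, c, b, X, hA, h1, h2, rfl⟩ := hq
  by_cases hB : HolW k (bordW e A c b)
  swap
  · right
    obtain ⟨Y, hY1, hY2⟩ := h.unit _ _ hB
    have hmap : (bordW e A c b).map ρ =
        fromBlocks (A.map ρ) (of fun i _ => φ (b i)) (of fun _ j => φ (c j)) 0 := by
      rw [bordW, fromBlocks_map, map_rho_zero]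
      congr 1
      · ext i j
        simp [h.smul_one]
      · ext i j
        simp [h.smul_one]
    rw [hmap] at hY1 hY2
    refine ⟨- Y (Sum.inr ()) (Sum.inr ()), ?_, ?_, ?_⟩
    · refine ⟨ι ⊕ Unit, inferInstance, inferInstance, bordW e A c b, Sum.elim 0 (fun _ => -1),
        Sum.elim 0 (fun _ => 1), Y, hB, by rw [hmap]; exact hY1, by rw [hmap]; exact hY2, ?_⟩
      simp [dotProduct, mulVec]
    · have e1 : ∀ i, ∑ k, ρ (A i k) * Y (Sum.inl k) (Sum.inr ()) +
          φ (b i) * Y (Sum.inr ()) (Sum.inr ()) = 0 := by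
        intro i
        have := congrFun (congrFun hY1 (Sum.inl i)) (Sum.inr ())
        simpa [Matrix.mul_apply] using this
      have e2 : ∑ k, φ (c k) * Y (Sum.inl k) (Sum.inr ()) = 1 := by
        have := congrFun (congrFun hY1 (Sum.inr ())) (Sum.inr ())
        simpa [Matrix.mul_apply] using this
      -- `Y₁₂ = - X b Y₂₂`
      have e3 : (fun k => Y (Sum.inl k) (Sum.inr ())) =
          - (X *ᵥ fun i => φ (b i) * Y (Sum.inr ()) (Sum.inr ())) := by
        have e4 : A.map ρ *ᵥ (fun k => Y (Sum.inl k) (Sum.inr ())) =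
            - fun i => φ (b i) * Y (Sum.inr ()) (Sum.inr ()) := by
          ext i
          have := e1 i
          simp only [mulVec, dotProduct, Matrix.map_apply, Pi.neg_apply]
          exact eq_neg_of_add_eq_zero_left this
        have e5 := congrArg (fun v => X *ᵥ v) e4
        simp only [mulVec_mulVec, h2, one_mulVec, mulVec_neg] at e5
        exact e5
      have e6 : (fun i => φ (c i)) ⬝ᵥ (fun k => Y (Sum.inl k) (Sum.inr ())) = 1 := e2
      rw [e3, dotProduct_neg] at e6
      rw [mul_neg, ← e6]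
      congr 1
      simp only [dotProduct, mulVec, Finset.sum_mul, mul_assoc]
    · have e1 : ∀ i, ∑ k, Y (Sum.inr ()) (Sum.inl k) * ρ (A k i) +
          Y (Sum.inr ()) (Sum.inr ()) * φ (c i) = 0 := by
        intro i
        have := congrFun (congrFun hY2 (Sum.inr ())) (Sum.inl i)
        simpa [Matrix.mul_apply] using this
      have e2 : ∑ k, Y (Sum.inr ()) (Sum.inl k) * φ (b k) = 1 := by
        have := congrFun (congrFun hY2 (Sum.inr ())) (Sum.inr ())
        simpa [Matrix.mul_apply] using this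
      have e3 : (fun k => Y (Sum.inr ()) (Sum.inl k)) =
          - ((fun i => Y (Sum.inr ()) (Sum.inr ()) * φ (c i)) ᵥ* X) := by
        have e4 : (fun k => Y (Sum.inr ()) (Sum.inl k)) ᵥ* A.map ρ =
            - fun i => Y (Sum.inr ()) (Sum.inr ()) * φ (c i) := by
          ext i
          have := e1 i
          simp only [vecMul, dotProduct, Matrix.map_apply, Pi.neg_apply]
          exact eq_neg_of_add_eq_zero_left this
        have e5 := congrArg (fun v => v ᵥ* X) e4
        simp only [vecMul_vecMul, h1, vecMul_one, neg_vecMul] at e5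
        exact e5
      have e6 : (fun k => Y (Sum.inr ()) (Sum.inl k)) ⬝ᵥ (fun i => φ (b i)) = 1 := e2
      rw [e3, neg_dotProduct, ← dotProduct_mulVec] at e6
      rw [neg_mul, ← e6]
      congr 1
      simp only [dotProduct, mulVec, Finset.mul_sum, mul_assoc]
  · left
    exact h.bord _ _ _ _ hA hB X h1 h2

theorem ent_phi (h : PenFam e σ φ ρ) (x : k) : IsEnt φ ρ (φ x) := by
  refine ⟨Unit, inferInstance, inferInstance, of fun _ _ => e, fun _ => x, fun _ => 1, 1,
    not_holW_one h.e_ne, ?_, ?_, ?_⟩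
  · ext i j
    simp [h.one]
  · ext i j
    simp [h.one]
  · simp [dotProduct]

theorem not_hol_two (h : PenFam e σ φ ρ) (w : W) :
    ¬ HolW k (fromBlocks (of fun _ _ => e) (of fun _ _ => w) 0 (of fun _ _ => e) :
      Matrix (Unit ⊕ Unit) (Unit ⊕ Unit) W) :=
  not_holW_fromBlocks _ _ _ (not_holW_one h.e_ne) (not_holW_one h.e_ne)

theorem ent_rho (h : PenFam e σ φ ρ) (w : W) : IsEnt φ ρ (ρ w) := by
  refine ⟨Unit ⊕ Unit, inferInstance, inferInstance,
    fromBlocks (of fun _ _ => e) (of fun _ _ => w) 0 (of fun _ _ => e),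
    Sum.elim (fun _ => 1) 0, Sum.elim 0 (fun _ => -1),
    fromBlocks 1 (of fun _ _ => - ρ w) 0 1, not_hol_two h w, ?_, ?_, ?_⟩
  · rw [fromBlocks_map, fromBlocks_multiply, map_rho_zero]
    rw [← fromBlocks_one]
    congr 1
    · ext i j
      simp [h.one]
    · ext i j
      simp [h.one, Matrix.mul_apply]
    · simp
    · ext i j
      simp [h.one]
  · rw [fromBlocks_map, fromBlocks_multiply, map_rho_zero]
    rw [← fromBlocks_one]
    congr 1
    · ext i j
      simp [h.one]
    · ext i j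
      simp [h.one, Matrix.mul_apply]
    · simp
    · ext i j
      simp [h.one]
  · simp [dotProduct, mulVec]

theorem ent_star (h : PenFam e σ φ ρ) {q : Q} (hq : IsEnt φ ρ q) : IsEnt φ ρ (star q) := by
  obtain ⟨ι, _, _, A, c, b, X, hA, h1, h2, rfl⟩ := hq
  have hm : (adj σ A).map ρ = star (A.map ρ) := by
    ext i k
    simp [adj, h.star_rho, Matrix.star_apply]
  refine ⟨ι, inferInstance, inferInstance, adj σ A, b, c, star X,
    not_holW_adj σ h.inv A hA, ?_, ?_, ?_⟩
  · rw [hm, ← star_mul, h2, star_one]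
  · rw [hm, ← star_mul, h1, star_one]
  · simp only [dotProduct, mulVec, star_sum, star_mul, Matrix.star_apply, Finset.mul_sum,
      h.star_phi]
    rw [Finset.sum_comm]
    simp only [mul_assoc]

/-- The field of fractions as a subring. -/
def fracSub (h : PenFam e σ φ ρ) : Subring Q where
  carrier := {q | IsEnt φ ρ q}
  mul_mem' := fun ha hb => ent_mul h ha hb
  one_mem' := ent_one h
  add_mem' := fun ha hb => ent_add ha hb
  zero_mem' := by
    have := ent_phi h 0
    rwa [map_zero] at this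
  neg_mem' := fun ha => ent_neg ha

theorem unit_or_zero (h : PenFam e σ φ ρ) (x : fracSub h) : IsUnit x ∨ x = 0 := by
  rcases ent_inv h x.2 with h0 | ⟨q', hq', h1, h2⟩
  · right
    exact Subtype.ext h0
  · left
    exact ⟨⟨x, ⟨q', hq'⟩, Subtype.ext h1, Subtype.ext h2⟩, rfl⟩

/-- The field of fractions, with its properties. -/
theorem exists_field (h : PenFam e σ φ ρ) :
    ∃ (D : Type u) (_ : DivisionRing D) (_ : StarRing D) (φ : k →+* D) (ρ : W →+ D),
      (∀ (c : k) (x : D), φ c * x = x * φ c) ∧ (∀ (c : k) (w : W), ρ (c • w) = φ c * ρ w) ∧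
      ρ e = 1 ∧ (∀ w, star (ρ w) = ρ (σ w)) ∧ (∀ c, star (φ c) = φ c) ∧
      (∀ (ι : Type) [Fintype ι] [DecidableEq ι] (A : Matrix ι ι W), ¬ HolW k A →
        ∃ X : Matrix ι ι D, A.map ρ * X = 1 ∧ X * A.map ρ = 1) ∧
      ∀ x : D, IsEnt φ ρ x := by
  have hnt : Nontrivial (fracSub h) := ⟨⟨1, 0, fun h0 => h.nontriv (congrArg Subtype.val h0)⟩⟩
  let i1 : DivisionRing (fracSub h) := DivisionRing.ofIsUnitOrEqZero (unit_or_zero h)
  let i2 : StarRing (fracSub h) :=
    { star := fun x => ⟨star x.1, ent_star h x.2⟩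
      star_involutive := fun x => Subtype.ext (star_star x.1)
      star_mul := fun x y => Subtype.ext (star_mul x.1 y.1)
      star_add := fun x y => Subtype.ext (star_add x.1 y.1) }
  let φ' : k →+* fracSub h := φ.codRestrict (fracSub h) (fun c => ent_phi h c)
  let ρ' : W →+ fracSub h :=
    { toFun := fun w => ⟨ρ w, ent_rho h w⟩
      map_zero' := Subtype.ext (map_zero ρ)
      map_add' := fun x y => Subtype.ext (map_add ρ x y) }
  have hunit : ∀ (ι : Type) [Fintype ι] [DecidableEq ι] (A : Matrix ι ι W), ¬ HolW k A →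
      ∀ X : Matrix ι ι Q, A.map ρ * X = 1 → X * A.map ρ = 1 →
      ∃ X' : Matrix ι ι (fracSub h), A.map ρ' * X' = 1 ∧ X' * A.map ρ' = 1 ∧
        ∀ i j, (X' i j : Q) = X i j := by
    intro ι _ _ A hA X h1 h2
    have hX : ∀ i j, IsEnt φ ρ (X i j) := by
      intro i j
      refine ⟨ι, inferInstance, inferInstance, A, Pi.single i 1, Pi.single j 1, X, hA, h1, h2, ?_⟩
      have e1 : ∀ a : ι, (fun i => φ ((Pi.single a 1 : ι → k) i)) = Pi.single a 1 := by
        intro a
        funext b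
        rcases eq_or_ne a b with rfl | hab
        · simp
        · rw [Pi.single_eq_of_ne hab.symm, Pi.single_eq_of_ne hab.symm, map_zero]
      rw [e1, e1]
      simp
    have hsub : Function.Injective (fracSub h).subtype := Subtype.val_injective
    have e2 : (A.map ρ').map (fracSub h).subtype = A.map ρ := rfl
    obtain ⟨X', hX'⟩ : ∃ X' : Matrix ι ι (fracSub h), ∀ i j, (X' i j : Q) = X i j :=
      ⟨of fun i j => ⟨X i j, hX i j⟩, fun _ _ => rfl⟩
    have e3 : X'.map (fracSub h).subtype = X := Matrix.ext hX'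
    have e4 : (1 : Matrix ι ι (fracSub h)).map (fracSub h).subtype = 1 :=
      Matrix.map_one _ (map_zero _) (map_one _)
    refine ⟨X', ?_, ?_, hX'⟩
    · apply Matrix.map_injective hsub
      show (A.map ρ' * X').map (fracSub h).subtype =
        (1 : Matrix ι ι (fracSub h)).map (fracSub h).subtype
      rw [Matrix.map_mul, e2, e3, e4, h1]
    · apply Matrix.map_injective hsub
      show (X' * A.map ρ').map (fracSub h).subtype =
        (1 : Matrix ι ι (fracSub h)).map (fracSub h).subtype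
      rw [Matrix.map_mul, e2, e3, e4, h2]
  refine ⟨fracSub h, i1, i2, φ', ρ', ?_, ?_, ?_, ?_, ?_, ?_, ?_⟩
  · exact fun c x => Subtype.ext (h.comm c x.1)
  · exact fun c w => Subtype.ext (h.smul c w)
  · exact Subtype.ext h.one
  · exact fun w => Subtype.ext (h.star_rho w)
  · exact fun c => Subtype.ext (h.star_phi c)
  · intro ι _ _ A hA
    obtain ⟨X, h1, h2⟩ := h.unit ι A hA
    obtain ⟨X', h3, h4, _⟩ := hunit ι A hA X h1 h2
    exact ⟨X', h3, h4⟩
  · rintro ⟨x, hx⟩
    obtain ⟨ι, _, _, A, c, b, X, hA, h1, h2, rfl⟩ := hx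
    obtain ⟨X', h3, h4, h5⟩ := hunit ι A hA X h1 h2
    refine ⟨ι, inferInstance, inferInstance, A, c, b, X', hA, h3, h4, ?_⟩
    have hsub : Function.Injective (fracSub h).subtype := Subtype.val_injective
    apply hsub
    simp only [dotProduct, mulVec, map_sum, map_mul]
    refine Finset.sum_congr rfl fun i _ => ?_
    congr 1
    refine Finset.sum_congr rfl fun j _ => ?_
    congr 1
    exact (h5 i j).symm

end

end

end Pool.Agent.H7.NC
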