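import Mathlib
import Pool.Agent.H7.NC.Closure

/-!
# A ring in which all non-hollow matrices of linear forms are invertible
-/

namespace Pool.Agent.H7.NC

open Matrix Filter

set_option linter.unusedSectionVars false
set_option linter.unusedFintypeInType false
set_option linter.unusedDecidableInType false

universe u v

noncomputable section

section EvP

variable {J : Type u} (l : Filter J) (M : J → Type v) [∀ j, Ring (M j)]

/-- Eventual equality of families, as a ring congruence. -/
def evC : RingCon (∀ j, M j) where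
  r x y := ∀ᶠ j in l, x j = y j
  iseqv :=
    { refl := fun _ => Eventually.of_forall fun _ => rfl
      symm := fun h => h.mono fun _ hj => hj.symm
      trans := fun h h' => h.mp (h'.mono fun j hj' hj => hj.trans hj') }
  add' h h' := h.mp (h'.mono fun j hj' hj => by
    rw [Pi.add_apply, Pi.add_apply, hj, hj'])
  mul' h h' := h.mp (h'.mono fun j hj' hj => by
    rw [Pi.mul_apply, Pi.mul_apply, hj, hj'])

/-- Families modulo eventual equality. -/
abbrev EvP : Type (max u v) := (evC l M).Quotient

/-- The class of a family. -/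
def EvP.mk : (∀ j, M j) →+* EvP l M := (evC l M).mk'

variable {l M}

theorem EvP.mk_surjective : Function.Surjective (EvP.mk l M) := Quotient.mk_surjective

theorem EvP.mk_eq_iff {x y : ∀ j, M j} :
    EvP.mk l M x = EvP.mk l M y ↔ ∀ᶠ j in l, x j = y j :=
  (evC l M).eq

/-- The involution on `EvP`. -/
instance [∀ j, StarRing (M j)] : StarRing (EvP l M) where
  star := Quotient.map' (fun x j => star (x j)) (fun x y h => by
    refine h.mono fun j hj => ?_
    show star (x j) = star (y j)
    rw [hj])
  star_involutive x := by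
    obtain ⟨x, rfl⟩ := EvP.mk_surjective x
    exact EvP.mk_eq_iff.2 (Eventually.of_forall fun j => star_star (x j))
  star_mul x y := by
    obtain ⟨x, rfl⟩ := EvP.mk_surjective x
    obtain ⟨y, rfl⟩ := EvP.mk_surjective y
    exact EvP.mk_eq_iff.2 (Eventually.of_forall fun j => star_mul (x j) (y j))
  star_add x y := by
    obtain ⟨x, rfl⟩ := EvP.mk_surjective x
    obtain ⟨y, rfl⟩ := EvP.mk_surjective y
    exact EvP.mk_eq_iff.2 (Eventually.of_forall fun j => star_add (x j) (y j))

theorem EvP.star_mk [∀ j, StarRing (M j)] (x : ∀ j, M j) :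
    star (EvP.mk l M x) = EvP.mk l M (fun j => star (x j)) := rfl

end EvP

/-- Pairs of matrices with the exchange involution. -/
def BB (m : Type) [Fintype m] [DecidableEq m] (L : Type u) [Field L] : Type u :=
  Matrix m m L × Matrix m m L

section BB

variable {m : Type} [Fintype m] [DecidableEq m] {L : Type u} [Field L]

instance : Ring (BB m L) := inferInstanceAs (Ring (Matrix m m L × Matrix m m L))

instance : StarRing (BB m L) where
  star x := (x.2ᵀ, x.1ᵀ)
  star_involutive _ := rfl
  star_mul x y := Prod.ext (Matrix.transpose_mul x.2 y.2) (Matrix.transpose_mul x.1 y.1)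
  star_add x y := Prod.ext (Matrix.transpose_add x.2 y.2) (Matrix.transpose_add x.1 y.1)

theorem BB.fst_mul (x y : BB m L) : (x * y).1 = x.1 * y.1 := rfl
theorem BB.snd_mul (x y : BB m L) : (x * y).2 = x.2 * y.2 := rfl

/-- First projection. -/
def BB.p1 : BB m L →+* Matrix m m L := RingHom.fst _ _

/-- Second projection. -/
def BB.p2 : BB m L →+* Matrix m m L := RingHom.snd _ _

theorem BB.ext' {x y : BB m L} (h1 : BB.p1 x = BB.p1 y) (h2 : BB.p2 x = BB.p2 y) : x = y :=
  Prod.ext h1 h2

end BB

variable {k : Type u} [Field k] {W : Type u} [AddCommGroup W] [Module k W]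
  {e : W} (he : e ≠ 0) (σ : W →ₗ[k] W)

/-- The dual point. -/
def Pt.dual (p : Pt k e) (hσe : σ e = e) : Pt k e where
  d := p.d
  T :=
    { toFun := fun w => (p.T (σ w))ᵀ
      map_add' := fun w w' => by rw [map_add, map_add, Matrix.transpose_add]
      map_smul' := fun c w => by
        rw [map_smul, LinearMap.map_smulₛₗ, Matrix.transpose_smul] }
  hT := by
    show (p.T (σ e))ᵀ = 1
    rw [hσe, p.hT, Matrix.transpose_one]

/-- The evaluation in pairs. -/
def evB (p : Pt k e) : W →+ BB (Fin (p.d + 1)) (Ext k) where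
  toFun w := (p.T w, (p.T (σ w))ᵀ)
  map_zero' := by
    rw [map_zero, map_zero, map_zero, Matrix.transpose_zero]
    rfl
  map_add' w w' := by
    rw [map_add, map_add, map_add, Matrix.transpose_add]
    rfl

/-- Scalars in pairs. -/
def scB (p : Pt k e) : k →+* BB (Fin (p.d + 1)) (Ext k) :=
  RingHom.prod (sc k _) (sc k _)

/-- Two-sided invertibility. -/
def Inv {R : Type*} [Ring R] {n : Type} [Fintype n] [DecidableEq n] (Z : Matrix n n R) : Prop :=
  ∃ X, Z * X = 1 ∧ X * Z = 1

theorem inv_of_isUnit {R : Type*} [Ring R] {n : Type} [Fintype n] [DecidableEq n]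
    {Z : Matrix n n R} (h : IsUnit Z) : Inv Z := by
  obtain ⟨u, rfl⟩ := h
  exact ⟨↑u⁻¹, u.mul_inv, u.inv_mul⟩

theorem inv_blocks {R : Type*} [Ring R] {n n' : Type} [Fintype n] [DecidableEq n] [Fintype n']
    [DecidableEq n'] {A : Matrix n n R} {D : Matrix n' n' R} (h : Inv (fromBlocks A 0 0 D)) :
    Inv A ∧ Inv D := by
  obtain ⟨X, h1, h2⟩ := h
  rw [← fromBlocks_toBlocks X, fromBlocks_multiply, ← fromBlocks_one, fromBlocks_inj] at h1 h2
  simp only [Matrix.zero_mul, add_zero, zero_add, Matrix.mul_zero] at h1 h2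
  exact ⟨⟨_, h1.1, h2.1⟩, ⟨_, h1.2.2.2, h2.2.2.2⟩⟩

include he in
theorem exists_pt_pair (hσ : ∀ w, σ (σ w) = w) {n : Type} [Fintype n] [DecidableEq n]
    (M : Matrix n n W) (hM : ¬ HolW k M) : ∃ p : Pt k e, Inv (M.map (evB σ p)) := by
  obtain ⟨p, hp⟩ := exists_pt (e := e) (fromBlocks M 0 0 (adj σ M))
    (not_holW_fromBlocks _ _ _ hM (not_holW_adj σ hσ M hM)) he
  have h1 := inv_of_isUnit hp
  have h0 : ∀ a b : Type, (0 : Matrix a b W).map p.T = 0 := by
    intro a b
    ext i j
    simp
  rw [fromBlocks_map] at h1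
  simp only [h0] at h1
  obtain ⟨⟨X, hX1, hX2⟩, ⟨Y, hY1, hY2⟩⟩ := inv_blocks h1
  refine ⟨p, of fun i j => (X i j, (Y j i)ᵀ), ?_, ?_⟩
  · refine Matrix.ext fun i j => ?_
    rw [Matrix.mul_apply]
    apply BB.ext'
    · rw [map_sum, Matrix.one_apply]
      have h2 := congrFun (congrFun hX1 i) j
      rw [Matrix.mul_apply, Matrix.one_apply] at h2
      refine h2.trans ?_
      split_ifs
      · exact (map_one BB.p1).symm
      · exact (map_zero BB.p1).symm
    · rw [map_sum, Matrix.one_apply]
      have h2 := congrFun (congrFun hY2 j) i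
      rw [Matrix.mul_apply, Matrix.one_apply] at h2
      have h3 := congrArg Matrix.transpose h2
      rw [Matrix.transpose_sum] at h3
      simp only [Matrix.transpose_mul] at h3
      refine h3.trans ?_
      simp only [eq_comm (a := j)]
      split_ifs
      · rw [Matrix.transpose_one]
        exact (map_one BB.p2).symm
      · rw [Matrix.transpose_zero]
        exact (map_zero BB.p2).symm
  · refine Matrix.ext fun i j => ?_
    rw [Matrix.mul_apply]
    apply BB.ext'
    · rw [map_sum, Matrix.one_apply]
      have h2 := congrFun (congrFun hX2 i) j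
      rw [Matrix.mul_apply, Matrix.one_apply] at h2
      refine h2.trans ?_
      split_ifs
      · exact (map_one BB.p1).symm
      · exact (map_zero BB.p1).symm
    · rw [map_sum, Matrix.one_apply]
      have h2 := congrFun (congrFun hY1 j) i
      rw [Matrix.mul_apply, Matrix.one_apply] at h2
      have h3 := congrArg Matrix.transpose h2
      rw [Matrix.transpose_sum] at h3
      simp only [Matrix.transpose_mul] at h3
      refine h3.trans ?_
      simp only [eq_comm (a := j)]
      split_ifs
      · rw [Matrix.transpose_one]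
        exact (map_one BB.p2).symm
      · rw [Matrix.transpose_zero]
        exact (map_zero BB.p2).symm

/-- The filter generated by the invertibility loci of non-hollow matrices. -/
def flt : Filter (Pt k e) where
  sets := {S | ∃ (ι : Type) (_ : Fintype ι) (_ : DecidableEq ι) (M : Matrix ι ι W),
    ¬ HolW k M ∧ {p | Inv (M.map (evB σ p))} ⊆ S}
  univ_sets := ⟨Unit, inferInstance, inferInstance, of fun _ _ => e, not_holW_one he,
    Set.subset_univ _⟩
  sets_of_superset := by
    rintro S T ⟨ι, i1, i2, M, h1, h2⟩ h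
    exact ⟨ι, i1, i2, M, h1, h2.trans h⟩
  inter_sets := by
    rintro S T ⟨ι, _, _, M, h1, h2⟩ ⟨ι', _, _, M', h1', h2'⟩
    refine ⟨ι ⊕ ι', inferInstance, inferInstance, fromBlocks M 0 0 M',
      not_holW_fromBlocks _ _ _ h1 h1', ?_⟩
    intro p hp
    have h0 : ∀ a b : Type, (0 : Matrix a b W).map (evB σ p) = 0 := by
      intro a b
      ext i j
      simp
    have hp' : Inv ((fromBlocks M 0 0 M').map (evB σ p)) := hp
    rw [fromBlocks_map] at hp'
    simp only [h0] at hp'
    obtain ⟨h3, h4⟩ := inv_blocks hp'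
    exact ⟨h2 h3, h2' h4⟩

theorem flt_neBot (hσ : ∀ w, σ (σ w) = w) : (flt he σ : Filter (Pt k e)).NeBot := by
  refine ⟨fun h => ?_⟩
  have h1 : (∅ : Set (Pt k e)) ∈ flt he σ := by
    rw [h]
    exact mem_bot
  obtain ⟨ι, _, _, M, h2, h3⟩ := h1
  obtain ⟨p, hp⟩ := exists_pt_pair he σ hσ M h2
  exact h3 hp

/-- The ambient ring. -/
abbrev QQ : Type u := EvP (flt he σ) (fun p : Pt k e => BB (Fin (p.d + 1)) (Ext k))

/-- Scalars. -/
def phiQ : k →+* QQ he σ := (EvP.mk _ _).comp (RingHom.pi fun p => scB p)

/-- Linear forms. -/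
def rhoQ : W →+ QQ he σ :=
  (EvP.mk (flt he σ) (fun p : Pt k e => BB (Fin (p.d + 1)) (Ext k))).toAddMonoidHom.comp
    (AddMonoidHom.mk' (fun w p => evB σ p w) fun w w' => by
      funext p
      exact map_add (evB σ p) w w')

theorem rhoQ_apply (w : W) :
    rhoQ he σ w = EvP.mk (flt he σ) (fun p : Pt k e => BB (Fin (p.d + 1)) (Ext k))
      (fun p => evB σ p w) := rfl

theorem phiQ_apply (c : k) :
    phiQ he σ c = EvP.mk (flt he σ) (fun p : Pt k e => BB (Fin (p.d + 1)) (Ext k))
      (fun p => scB p c) := rfl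

theorem scB_comm (p : Pt k e) (c : k) (x : BB (Fin (p.d + 1)) (Ext k)) :
    scB p c * x = x * scB p c := by
  apply BB.ext'
  · rw [map_mul, map_mul]
    show sc k _ c * BB.p1 x = BB.p1 x * sc k _ c
    rw [sc_mul, mul_sc]
  · rw [map_mul, map_mul]
    show sc k _ c * BB.p2 x = BB.p2 x * sc k _ c
    rw [sc_mul, mul_sc]

theorem penFam (hσ : ∀ w, σ (σ w) = w) (hσe : σ e = e) :
    PenFam e σ (phiQ he σ) (rhoQ he σ) where
  comm c x := by
    obtain ⟨x, rfl⟩ := EvP.mk_surjective x
    rw [phiQ_apply, ← map_mul, ← map_mul]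
    congr 1
    funext p
    exact scB_comm p c (x p)
  smul c w := by
    rw [phiQ_apply, rhoQ_apply, rhoQ_apply, ← map_mul]
    congr 1
    funext p
    apply BB.ext'
    · rw [Pi.mul_apply, map_mul]
      show p.T (c • w) = sc k _ c * p.T w
      rw [sc_mul, LinearMap.map_smulₛₗ]
    · rw [Pi.mul_apply, map_mul]
      show (p.T (σ (c • w)))ᵀ = sc k _ c * (p.T (σ w))ᵀ
      rw [sc_mul, map_smul, LinearMap.map_smulₛₗ, Matrix.transpose_smul]
  one := by
    rw [rhoQ_apply, ← map_one (EvP.mk (flt he σ) (fun p : Pt k e => BB (Fin (p.d + 1)) (Ext k)))]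
    congr 1
    funext p
    apply BB.ext'
    · rw [Pi.one_apply, map_one]
      exact p.hT
    · rw [Pi.one_apply, map_one]
      show (p.T (σ e))ᵀ = 1
      rw [hσe, p.hT, Matrix.transpose_one]
  star_rho w := by
    rw [rhoQ_apply, rhoQ_apply, EvP.star_mk]
    congr 1
    funext p
    apply BB.ext'
    · show ((p.T (σ w))ᵀ)ᵀ = p.T (σ w)
      rw [Matrix.transpose_transpose]
    · show (p.T w)ᵀ = (p.T (σ (σ w)))ᵀ
      rw [hσ]
  star_phi c := by
    rw [phiQ_apply, EvP.star_mk]
    congr 1
    funext p
    have h1 : (sc k (Fin (p.d + 1)) c)ᵀ = sc k _ c := by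
      show (algebraMap (Ext k) (Matrix _ _ (Ext k)) (toExt k c))ᵀ = _
      rw [Matrix.algebraMap_eq_diagonal, Matrix.diagonal_transpose]
      exact (Matrix.algebraMap_eq_diagonal _).symm
    apply BB.ext'
    · show (sc k (Fin (p.d + 1)) c)ᵀ = sc k _ c
      exact h1
    · show (sc k (Fin (p.d + 1)) c)ᵀ = sc k _ c
      exact h1
  unit := by
    intro ι _ _ A hA
    classical
    have h1 : ∀ p : Pt k e, ∃ X : Matrix ι ι (BB (Fin (p.d + 1)) (Ext k)),
        Inv (A.map (evB σ p)) → A.map (evB σ p) * X = 1 ∧ X * A.map (evB σ p) = 1 := by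
      intro p
      by_cases h : Inv (A.map (evB σ p))
      · obtain ⟨X, hX⟩ := h
        exact ⟨X, fun _ => hX⟩
      · exact ⟨0, fun h' => absurd h' h⟩
    choose X hX using h1
    have hev : ∀ᶠ p in (flt he σ : Filter (Pt k e)), Inv (A.map (evB σ p)) :=
      ⟨ι, inferInstance, inferInstance, A, hA, subset_rfl⟩
    refine ⟨of fun i j => EvP.mk _ _ (fun p => X p i j), ?_, ?_⟩
    · refine Matrix.ext fun i j => ?_
      rw [Matrix.mul_apply]
      simp only [Matrix.map_apply, of_apply, rhoQ_apply, ← map_mul, ← map_sum]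
      have h2 : (1 : Matrix ι ι (QQ he σ)) i j = EvP.mk (flt he σ)
          (fun p : Pt k e => BB (Fin (p.d + 1)) (Ext k)) (fun p => (1 : Matrix ι ι _) i j) := by
        rw [Matrix.one_apply]
        split_ifs with h
        · subst h
          rw [← map_one (EvP.mk (flt he σ) (fun p : Pt k e => BB (Fin (p.d + 1)) (Ext k)))]
          congr 1
          funext p
          rw [Matrix.one_apply_eq]
          rfl
        · rw [← map_zero (EvP.mk (flt he σ) (fun p : Pt k e => BB (Fin (p.d + 1)) (Ext k)))]
          congr 1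
          funext p
          rw [Matrix.one_apply_ne h]
          rfl
      rw [h2, EvP.mk_eq_iff]
      refine hev.mono fun p hp => ?_
      rw [← (hX p hp).1, Matrix.mul_apply, Finset.sum_apply]
      rfl
    · refine Matrix.ext fun i j => ?_
      rw [Matrix.mul_apply]
      simp only [Matrix.map_apply, of_apply, rhoQ_apply, ← map_mul, ← map_sum]
      have h2 : (1 : Matrix ι ι (QQ he σ)) i j = EvP.mk (flt he σ)
          (fun p : Pt k e => BB (Fin (p.d + 1)) (Ext k)) (fun p => (1 : Matrix ι ι _) i j) := by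
        rw [Matrix.one_apply]
        split_ifs with h
        · subst h
          rw [← map_one (EvP.mk (flt he σ) (fun p : Pt k e => BB (Fin (p.d + 1)) (Ext k)))]
          congr 1
          funext p
          rw [Matrix.one_apply_eq]
          rfl
        · rw [← map_zero (EvP.mk (flt he σ) (fun p : Pt k e => BB (Fin (p.d + 1)) (Ext k)))]
          congr 1
          funext p
          rw [Matrix.one_apply_ne h]
          rfl
      rw [h2, EvP.mk_eq_iff]
      refine hev.mono fun p hp => ?_
      rw [← (hX p hp).2, Matrix.mul_apply, Finset.sum_apply]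
      rfl
  bord := by
    intro ι _ _ A c b hA hB X h1 _
    have hx : ∀ i j, ∃ x, EvP.mk (flt he σ) (fun p : Pt k e => BB (Fin (p.d + 1)) (Ext k)) x =
        X i j := fun i j => EvP.mk_surjective _
    choose x hx using hx
    have hev : ∀ᶠ p in (flt he σ : Filter (Pt k e)), A.map (evB σ p) *
        (of fun i j => x i j p : Matrix ι ι (BB (Fin (p.d + 1)) (Ext k))) = 1 := by
      have h3 : ∀ i j, ∀ᶠ p in (flt he σ : Filter (Pt k e)), (A.map (evB σ p) *
          (of fun i j => x i j p : Matrix ι ι (BB (Fin (p.d + 1)) (Ext k)))) i j =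
          (1 : Matrix ι ι (BB (Fin (p.d + 1)) (Ext k))) i j := by
        intro i j
        have h4 := congrFun (congrFun h1 i) j
        rw [Matrix.mul_apply] at h4
        simp only [Matrix.map_apply, rhoQ_apply, ← hx, ← map_mul, ← map_sum] at h4
        have h2 : (1 : Matrix ι ι (QQ he σ)) i j = EvP.mk (flt he σ)
            (fun p : Pt k e => BB (Fin (p.d + 1)) (Ext k)) (fun p => (1 : Matrix ι ι _) i j) := by
          rw [Matrix.one_apply]
          split_ifs with h
          · subst h
            rw [← map_one (EvP.mk (flt he σ) (fun p : Pt k e => BB (Fin (p.d + 1)) (Ext k)))]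
            congr 1
            funext p
            rw [Matrix.one_apply_eq]
            rfl
          · rw [← map_zero (EvP.mk (flt he σ) (fun p : Pt k e => BB (Fin (p.d + 1)) (Ext k)))]
            congr 1
            funext p
            rw [Matrix.one_apply_ne h]
            rfl
        rw [h2, EvP.mk_eq_iff] at h4
        refine h4.mono fun p hp => ?_
        rw [← hp, Matrix.mul_apply, Finset.sum_apply]
        rfl
      have h5 : ∀ᶠ p in (flt he σ : Filter (Pt k e)), ∀ i j, (A.map (evB σ p) *
          (of fun i j => x i j p : Matrix ι ι (BB (Fin (p.d + 1)) (Ext k)))) i j =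
          (1 : Matrix ι ι (BB (Fin (p.d + 1)) (Ext k))) i j := by
        rw [eventually_all]
        intro i
        rw [eventually_all]
        exact h3 i
      exact h5.mono fun p hp => Matrix.ext hp
    have hsum : (fun i => phiQ he σ (c i)) ⬝ᵥ (X *ᵥ fun i => phiQ he σ (b i)) =
        EvP.mk (flt he σ) (fun p : Pt k e => BB (Fin (p.d + 1)) (Ext k))
          (fun p => ∑ i, ∑ j, scB p (c i) * x i j p * scB p (b j)) := by
      simp only [dotProduct, mulVec, phiQ_apply, ← hx, ← map_mul, ← map_sum]
      congr 1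
      funext p
      rw [Finset.sum_apply]
      refine Finset.sum_congr rfl fun i _ => ?_
      rw [Pi.mul_apply, Finset.sum_apply, Finset.mul_sum]
      refine Finset.sum_congr rfl fun j _ => ?_
      rw [Pi.mul_apply, mul_assoc]
    rw [hsum, ← map_zero (EvP.mk (flt he σ) (fun p : Pt k e => BB (Fin (p.d + 1)) (Ext k))),
      EvP.mk_eq_iff]
    refine hev.mono fun p hp => ?_
    rw [Pi.zero_apply]
    apply BB.ext'
    · have h3 : A.map p.T * (of fun i j => BB.p1 (x i j p)) = 1 := by
        have h4 := congrArg (fun M => M.map BB.p1) hp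
        have h5 : (A.map (evB σ p) * (of fun i j => x i j p :
            Matrix ι ι (BB (Fin (p.d + 1)) (Ext k)))).map BB.p1 =
            (1 : Matrix ι ι (BB (Fin (p.d + 1)) (Ext k))).map BB.p1 := h4
        rw [Matrix.map_mul, Matrix.map_one _ (map_zero _) (map_one _)] at h5
        exact h5
      have h4 := schur_eq_zero p A c b hB _ h3
      rw [map_zero, ← h4, map_sum]
      refine Finset.sum_congr rfl fun i _ => ?_
      rw [map_sum]
      refine Finset.sum_congr rfl fun j _ => ?_
      rw [map_mul, map_mul]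
      rfl
    · have h3 : A.map (p.dual σ hσe).T * (of fun i j => BB.p2 (x i j p) :
          Matrix ι ι (Matrix (Fin ((p.dual σ hσe).d + 1)) (Fin ((p.dual σ hσe).d + 1))
            (Ext k))) = 1 := by
        have h4 := congrArg (fun M => M.map BB.p2) hp
        have h5 : (A.map (evB σ p) * (of fun i j => x i j p :
            Matrix ι ι (BB (Fin (p.d + 1)) (Ext k)))).map BB.p2 =
            (1 : Matrix ι ι (BB (Fin (p.d + 1)) (Ext k))).map BB.p2 := h4
        rw [Matrix.map_mul, Matrix.map_one _ (map_zero _) (map_one _)] at h5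
        exact h5
      have h4 := schur_eq_zero (p.dual σ hσe) A c b hB _ h3
      rw [map_zero, map_sum]
      refine Eq.trans ?_ h4
      refine Finset.sum_congr rfl fun i _ => ?_
      rw [map_sum]
      refine Finset.sum_congr rfl fun j _ => ?_
      rw [map_mul, map_mul]
      rfl
  nontriv := by
    intro h
    have hne := flt_neBot he σ hσ
    rw [← map_one (EvP.mk (flt he σ) (fun p : Pt k e => BB (Fin (p.d + 1)) (Ext k))),
      ← map_zero (EvP.mk (flt he σ) (fun p : Pt k e => BB (Fin (p.d + 1)) (Ext k))),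
      EvP.mk_eq_iff] at h
    obtain ⟨p, hp⟩ := h.exists
    have h3 := congrArg BB.p1 hp
    rw [Pi.one_apply, Pi.zero_apply, map_one, map_zero] at h3
    exact one_ne_zero h3
  e_ne := he
  inv := hσ
  fixe := hσe

end

end Pool.Agent.H7.NC
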