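import Mathlib
import Pool.Agent.H7.NC.Univ

/-!
# Realisations of vectors over the field of fractions
-/

namespace Pool.Agent.H7.NC

open Matrix

set_option linter.unusedSectionVars false
set_option linter.unusedFintypeInType false
set_option linter.unusedDecidableInType false

universe u v

noncomputable section

variable {k : Type u} [Field k] {W : Type u} [AddCommGroup W] [Module k W]

/-- The field of fractions of the free algebra on `W` modulo `e = 1`. -/
structure FF (e : W) (σ : W →ₗ[k] W) {D : Type u} [DivisionRing D] [StarRing D] (φ : k →+* D)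
    (ρ : W →+ D) : Prop where
  comm : ∀ (c : k) (x : D), φ c * x = x * φ c
  smul : ∀ (c : k) (w : W), ρ (c • w) = φ c * ρ w
  one : ρ e = 1
  star_rho : ∀ w, star (ρ w) = ρ (σ w)
  star_phi : ∀ c, star (φ c) = φ c
  unit : ∀ (ι : Type) [Fintype ι] [DecidableEq ι] (A : Matrix ι ι W), ¬ HolW k A →
    ∃ X : Matrix ι ι D, A.map ρ * X = 1 ∧ X * A.map ρ = 1
  ent : ∀ x : D, IsEnt φ ρ x

theorem exists_FF {e : W} (he : e ≠ 0) (σ : W →ₗ[k] W) (hσ : ∀ w, σ (σ w) = w) (hσe : σ e = e) :
    ∃ (D : Type u) (_ : DivisionRing D) (_ : StarRing D) (φ : k →+* D) (ρ : W →+ D),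
      FF e σ φ ρ := by
  obtain ⟨D, i1, i2, φ, ρ, h1, h2, h3, h4, h5, h6, h7⟩ := exists_field (penFam he σ hσ hσe)
  exact ⟨D, i1, i2, φ, ρ, ⟨h1, h2, h3, h4, h5, h6, h7⟩⟩

variable {e : W} {σ : W →ₗ[k] W} {D : Type u} [DivisionRing D] [StarRing D] {φ : k →+* D}
  {ρ : W →+ D}

/-- Scalar combinations of rows. -/
def km {α n n' : Type} [Fintype n] (E : Matrix α n k) (M : Matrix n n' W) : Matrix α n' W :=
  of fun i j => ∑ a, E i a • M a j

theorem map_km (h : FF e σ φ ρ) {α n n' : Type} [Fintype n] (E : Matrix α n k)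
    (M : Matrix n n' W) : (km E M).map ρ = E.map φ * M.map ρ := by
  ext i j
  rw [Matrix.map_apply, km, of_apply, map_sum, Matrix.mul_apply]
  refine Finset.sum_congr rfl fun a _ => ?_
  rw [h.smul]
  rfl

theorem map_phi_mul {α β γ : Type} [Fintype β] (P : Matrix α β k) (Q : Matrix β γ k) :
    (P * Q).map φ = P.map φ * Q.map φ := Matrix.map_mul

theorem map_phi_one {α : Type} [DecidableEq α] : (1 : Matrix α α k).map φ = 1 :=
  Matrix.map_one _ (map_zero _) (map_one _)

theorem map_sandD (h : FF e σ φ ρ) {α n n' β : Type} [Fintype n] [Fintype n']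
    (P : Matrix α n k) (M : Matrix n n' W) (Q : Matrix n' β k) :
    P.map φ * M.map ρ * Q.map φ = (sand P M Q).map ρ := by
  ext i j
  rw [Matrix.map_apply, sand, of_apply, Matrix.mul_apply]
  simp only [Matrix.mul_apply, Matrix.map_apply, Finset.sum_mul, map_sum]
  rw [Finset.sum_comm]
  refine Finset.sum_congr rfl fun a _ => Finset.sum_congr rfl fun b _ => ?_
  rw [h.smul, map_mul, mul_assoc, mul_assoc, h.comm (Q b j)]

/-- A projective realisation of a vector. -/
structure Rlz (φ : k →+* D) (ρ : W →+ D) {q q' m : Type} [Fintype q] [Fintype q']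
    (M : Matrix q q' W) (C : Matrix q m k) (p : q → D) (x : m → D) : Prop where
  zero : p ᵥ* M.map ρ = 0
  ker : ∀ y, y ᵥ* M.map ρ = 0 → ∃ c : D, y = c • p
  rep : x = p ᵥ* C.map φ

theorem exists_real_aux (h : FF e σ φ ρ) (m : ℕ) : ∀ x : Fin m → D,
    ∃ (ι : Type) (_ : Fintype ι) (_ : DecidableEq ι) (A : Matrix ι ι W) (c : ι → k)
      (B : Matrix ι (Fin m) k) (X : Matrix ι ι D), A.map ρ * X = 1 ∧ X * A.map ρ = 1 ∧
        x = (fun i => φ (c i)) ᵥ* X ᵥ* B.map φ := by
  induction m with
  | zero =>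
    intro x
    refine ⟨Unit, inferInstance, inferInstance, of fun _ _ => e, 0, 0, 1, ?_, ?_, ?_⟩
    · ext i j
      simp [h.one]
    · ext i j
      simp [h.one]
    · funext j
      exact j.elim0
  | succ m ih =>
    intro x
    obtain ⟨ι, _, _, A, c, B, X, h1, h2, h3⟩ := ih (fun j => x j.succ)
    obtain ⟨κ, _, _, A', c', b', X', hA', h1', h2', h3'⟩ := h.ent (x 0)
    have h0 : ∀ a b : Type, (0 : Matrix a b W).map ρ = 0 := fun a b => map_rho_zero
    refine ⟨κ ⊕ ι, inferInstance, inferInstance, fromBlocks A' 0 0 A, Sum.elim c' c,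
      of (Sum.elim (fun i => Fin.cons (b' i) 0) (fun i => Fin.cons 0 (B i))),
      fromBlocks X' 0 0 X, ?_, ?_, ?_⟩
    · rw [fromBlocks_map, fromBlocks_multiply, h0, h0]
      simp [h1, h1']
    · rw [fromBlocks_map, fromBlocks_multiply, h0, h0]
      simp [h2, h2']
    · have e1 : (fun i => φ (Sum.elim c' c i)) =
          Sum.elim (fun i => φ (c' i)) (fun i => φ (c i)) := elim_comp' c' c
      have e2 : (fun i => φ (Sum.elim c' c i)) ᵥ* (fromBlocks X' 0 0 X) =
          Sum.elim ((fun i => φ (c' i)) ᵥ* X') ((fun i => φ (c i)) ᵥ* X) := by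
        rw [e1]
        ext s
        rcases s with s | s <;>
          simp [vecMul, dotProduct, Fintype.sum_sum_type]
      rw [e2]
      funext j
      refine Fin.cases ?_ (fun j => ?_) j
      · rw [h3']
        simp only [vecMul, dotProduct, mulVec, Fintype.sum_sum_type, Sum.elim_inl, Sum.elim_inr,
          Matrix.map_apply, of_apply, Fin.cons_zero, map_zero, mul_zero,
          Finset.sum_const_zero, add_zero]
        simp only [Finset.mul_sum, Finset.sum_mul]
        rw [Finset.sum_comm]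
        simp only [mul_assoc]
      · have h4 := congrFun h3 j
        rw [h4]
        simp only [vecMul, dotProduct, Fintype.sum_sum_type, Sum.elim_inl, Sum.elim_inr,
          Matrix.map_apply, of_apply, Fin.cons_succ, Pi.zero_apply, map_zero, mul_zero,
          Finset.sum_const_zero, zero_add]

theorem exists_real (h : FF e σ φ ρ) {m : ℕ} (x : Fin m → D) :
    ∃ (q q' : Type) (_ : Fintype q) (_ : Fintype q') (_ : DecidableEq q) (_ : DecidableEq q')
      (M : Matrix q q' W) (C : Matrix q (Fin m) k) (p : q → D), Rlz φ ρ M C p x := by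
  obtain ⟨ι, _, _, A, c, B, X, h1, h2, h3⟩ := exists_real_aux h m x
  have e1 : (fromRows A (of fun (_ : Unit) j => c j • e)).map ρ =
      fromRows (A.map ρ) (of fun (_ : Unit) j => φ (c j)) := by
    ext i j
    rcases i with i | i
    · rfl
    · show ρ (c j • e) = φ (c j)
      rw [h.smul, h.one, mul_one]
  have e2 : ∀ y : ι ⊕ Unit → D, y ᵥ* (fromRows A (of fun (_ : Unit) j => c j • e)).map ρ =
      (fun i => y (Sum.inl i)) ᵥ* A.map ρ + y (Sum.inr ()) • fun j => φ (c j) := by
    intro y
    rw [e1]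
    funext j
    simp [vecMul, dotProduct, Fintype.sum_sum_type]
  refine ⟨ι ⊕ Unit, ι, inferInstance, inferInstance, inferInstance, inferInstance,
    fromRows A (of fun (_ : Unit) j => c j • e), fromRows B 0,
    Sum.elim ((fun i => φ (c i)) ᵥ* X) (fun _ => -1), ?_, ?_, ?_⟩
  · rw [e2]
    simp only [Sum.elim_inl, Sum.elim_inr]
    have e3 : (fun i => ((fun i => φ (c i)) ᵥ* X) i) ᵥ* A.map ρ = fun i => φ (c i) := by
      show ((fun i => φ (c i)) ᵥ* X) ᵥ* A.map ρ = _
      rw [vecMul_vecMul, h2, vecMul_one]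
    rw [e3]
    simp
  · intro y hy
    rw [e2] at hy
    refine ⟨- y (Sum.inr ()), ?_⟩
    have e3 : (fun i => y (Sum.inl i)) = - (y (Sum.inr ()) • ((fun j => φ (c j)) ᵥ* X)) := by
      have e4 := congrArg (fun v => v ᵥ* X) (eq_neg_of_add_eq_zero_left hy)
      simp only [vecMul_vecMul, h1, vecMul_one, neg_vecMul] at e4
      rw [smul_vecMul] at e4
      exact e4
    funext s
    rcases s with s | s
    · have := congrFun e3 s
      simp only [Pi.smul_apply, Sum.elim_inl, smul_eq_mul, neg_mul]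
      exact this
    · simp
  · rw [h3]
    funext j
    simp [vecMul, dotProduct, Fintype.sum_sum_type]

end

end Pool.Agent.H7.NC
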