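import Mathlib
import Pool.Agent.H7.NC.Real

/-!
# Reduced realisations
-/

namespace Pool.Agent.H7.NC

open Matrix

set_option linter.unusedSectionVars false
set_option linter.unusedFintypeInType false
set_option linter.unusedDecidableInType false

universe u v

noncomputable section

/-- Selecting independent functionals. -/
theorem exists_select {D : Type u} [DivisionRing D] {V : Type u} [AddCommGroup V] [Module D V]
    [Module.Finite D V] {ι : Type} [DecidableEq ι] (f : ι → V →ₗ[D] D) (t : Finset ι) :
    ∃ s ⊆ t, (∀ v, (∀ j ∈ s, f j v = 0) → ∀ j ∈ t, f j v = 0) ∧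
      s.card + Module.finrank D (⨅ j ∈ t, LinearMap.ker (f j) : Submodule D V) =
        Module.finrank D V := by
  induction t using Finset.induction_on with
  | empty =>
    refine ⟨∅, subset_rfl, fun v _ j hj => absurd hj (Finset.notMem_empty j), ?_⟩
    have h0 : (⨅ j ∈ (∅ : Finset ι), LinearMap.ker (f j)) = ⊤ := by simp
    rw [h0, finrank_top, Finset.card_empty, zero_add]
  | insert a t ha ih =>
    obtain ⟨s, hst, hs, hcard⟩ := ih
    by_cases hle : (⨅ j ∈ t, LinearMap.ker (f j)) ≤ LinearMap.ker (f a)
    · refine ⟨s, hst.trans (Finset.subset_insert _ _), ?_, ?_⟩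
      · intro v hv j hj
        rcases Finset.mem_insert.1 hj with rfl | hj
        · apply hle
          simp only [Submodule.mem_iInf]
          exact fun i hi => hs v hv i hi
        · exact hs v hv j hj
      · rw [Finset.iInf_insert, inf_eq_right.2 hle]
        exact hcard
    · refine ⟨insert a s, Finset.insert_subset_insert _ hst, ?_, ?_⟩
      · intro v hv j hj
        rcases Finset.mem_insert.1 hj with rfl | hj
        · exact hv j (Finset.mem_insert_self _ _)
        · exact hs v (fun i hi => hv i (Finset.mem_insert_of_mem hi)) j hj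
      · have has : a ∉ s := fun h => ha (hst h)
        rw [Finset.card_insert_of_notMem has, Finset.iInf_insert]
        set K : Submodule D V := ⨅ j ∈ t, LinearMap.ker (f j)
        have e1 := LinearMap.finrank_range_add_finrank_ker ((f a).domRestrict K)
        have e2 : LinearMap.range ((f a).domRestrict K) = ⊤ := by
          rw [LinearMap.range_eq_top]
          obtain ⟨v, hv, hfv⟩ := SetLike.not_le_iff_exists.1 hle
          intro c
          have hne : f a v ≠ 0 := hfv
          refine ⟨(c * (f a v)⁻¹) • ⟨v, hv⟩, ?_⟩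
          rw [map_smul, LinearMap.domRestrict_apply, smul_eq_mul, mul_assoc,
            inv_mul_cancel₀ hne, mul_one]
        have e3 : Module.finrank D (LinearMap.ker ((f a).domRestrict K)) =
            Module.finrank D (LinearMap.ker (f a) ⊓ K : Submodule D V) := by
          let g : LinearMap.ker ((f a).domRestrict K) →ₗ[D]
              (LinearMap.ker (f a) ⊓ K : Submodule D V) :=
            { toFun := fun x => ⟨x.1.1, ⟨x.2, x.1.2⟩⟩
              map_add' := fun _ _ => rfl
              map_smul' := fun _ _ => rfl }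
          refine LinearEquiv.finrank_eq (LinearEquiv.ofBijective g ⟨?_, ?_⟩)
          · intro x y hxy
            apply Subtype.ext
            apply Subtype.ext
            show (g x).1 = (g y).1
            rw [hxy]
          · rintro ⟨x, hx1, hx2⟩
            exact ⟨⟨⟨x, hx2⟩, hx1⟩, rfl⟩
        rw [e2, finrank_top, Module.finrank_self] at e1
        omega

variable {k : Type u} [Field k] {W : Type u} [AddCommGroup W] [Module k W]
  {e : W} {σ : W →ₗ[k] W} {D : Type u} [DivisionRing D] [StarRing D] {φ : k →+* D}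
  {ρ : W →+ D}

/-- Making the entries of the kernel vector independent over `k`. -/
theorem exists_indep (h : FF e σ φ ρ) {q q' m : Type} [Fintype q] [Fintype q'] [DecidableEq q]
    [DecidableEq q'] {M : Matrix q q' W} {C : Matrix q m k} {p : q → D} {x : m → D}
    (hr : Rlz φ ρ M C p x) :
    ∃ (r : ℕ) (M' : Matrix (Fin r) q' W) (C' : Matrix (Fin r) m k) (p' : Fin r → D),
      Rlz φ ρ M' C' p' x ∧ ∀ u : Fin r → k, ∑ i, p' i * φ (u i) = 0 → u = 0 := by
  let N : Submodule k (q → k) :=
    { carrier := {u | ∑ i, p i * φ (u i) = 0}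
      add_mem' := by
        intro a b ha hb
        show ∑ i, p i * φ (a i + b i) = 0
        simp only [map_add, mul_add, Finset.sum_add_distrib]
        rw [ha, hb, add_zero]
      zero_mem' := by simp
      smul_mem' := by
        intro c a ha
        show ∑ i, p i * φ (c * a i) = 0
        have : ∀ i, p i * φ (c * a i) = φ c * (p i * φ (a i)) := by
          intro i
          rw [map_mul, ← mul_assoc, ← h.comm c (p i), mul_assoc]
        simp only [this, ← Finset.mul_sum]
        rw [ha, mul_zero] }
  obtain ⟨G, G', hG, hGN⟩ := exists_basis_matrix N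
  obtain ⟨r, g, g', hg1, hg2, hgG, _⟩ := exists_compl G G' hG
  let E : Matrix (Fin r) q k := of fun i j => g' (Sum.inr i) j
  let H : Matrix q (Fin r) k := of fun i j => g i (Sum.inr j)
  have hEH : E * H = 1 := by
    ext i j
    have h1 := congrFun (congrFun hg2 (Sum.inr i)) (Sum.inr j)
    rw [Matrix.mul_apply] at h1
    rw [Matrix.mul_apply]
    refine h1.trans ?_
    rw [Matrix.one_apply, Matrix.one_apply]
    simp
  let p' : Fin r → D := p ᵥ* H.map φ
  have hpG : p ᵥ* G.map φ = 0 := by
    funext j
    have h1 : G *ᵥ Pi.single j 1 ∈ N := (hGN _).2 ⟨_, rfl⟩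
    have h2 : ∑ i, p i * φ ((G *ᵥ Pi.single j 1) i) = 0 := h1
    rw [mulVec_single_one] at h2
    exact h2
  have hp : p' ᵥ* E.map φ = p := by
    have h1 : p = p ᵥ* g.map φ ᵥ* g'.map φ := by
      rw [vecMul_vecMul, ← map_phi_mul, hg1, map_phi_one, vecMul_one]
    conv_rhs => rw [h1]
    funext j
    have h3 : ∀ s, (p ᵥ* g.map φ) (Sum.inl s) = 0 := by
      intro s
      have h4 := congrFun hpG s
      simp only [vecMul, dotProduct, Matrix.map_apply, Pi.zero_apply] at h4 ⊢
      simp only [hgG]
      exact h4
    have h5 : (p ᵥ* g.map φ ᵥ* g'.map φ) j =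
        ∑ s, (p ᵥ* g.map φ) s * φ (g' s j) := rfl
    rw [h5, Fintype.sum_sum_type]
    simp only [h3, zero_mul, Finset.sum_const_zero, zero_add]
    rfl
  refine ⟨r, km E M, E * C, p', ⟨?_, ?_, ?_⟩, ?_⟩
  · rw [map_km h, ← vecMul_vecMul, hp, hr.zero]
  · intro y hy
    rw [map_km h, ← vecMul_vecMul] at hy
    obtain ⟨c, hc⟩ := hr.ker _ hy
    refine ⟨c, ?_⟩
    have h1 : y = y ᵥ* E.map φ ᵥ* H.map φ := by
      rw [vecMul_vecMul, ← map_phi_mul, hEH, map_phi_one, vecMul_one]
    rw [h1, hc, smul_vecMul]
  · rw [map_phi_mul, ← vecMul_vecMul, hp, hr.rep]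
  · intro u hu
    have h1 : ∑ i, p i * φ ((H *ᵥ u) i) = 0 := by
      rw [← hu]
      simp only [mulVec, dotProduct, map_sum, map_mul, p', vecMul, Matrix.map_apply,
        Finset.mul_sum, Finset.sum_mul]
      rw [Finset.sum_comm]
      simp only [mul_assoc]
    obtain ⟨z, hz⟩ := (hGN (H *ᵥ u)).1 h1
    have h2 : g *ᵥ (Sum.elim (-z) u) = 0 := by
      funext i
      have h3 := congrFun hz i
      simp only [mulVec, dotProduct, Fintype.sum_sum_type, Sum.elim_inl, Sum.elim_inr, hgG,
        Pi.neg_apply, mul_neg, Finset.sum_neg_distrib, Pi.zero_apply]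
      simp only [mulVec, dotProduct] at h3
      rw [neg_add_eq_zero]
      exact h3.symm
    have h3 : (Sum.elim (-z) u : Fin _ ⊕ Fin r → k) = 0 := by
      rw [← one_mulVec (Sum.elim (-z) u), ← hg2, ← mulVec_mulVec, h2, mulVec_zero]
    funext i
    exact congrFun h3 (Sum.inr i)

/-- Selecting columns. -/
theorem exists_cols {r : ℕ} {q' m : Type} [Fintype q'] [DecidableEq q']
    {M : Matrix (Fin r) q' W} {C : Matrix (Fin r) m k} {p : Fin r → D} {x : m → D}
    (hr : Rlz φ ρ M C p x) (hp : p ≠ 0) :
    ∃ (q'' : Type) (_ : Fintype q'') (_ : DecidableEq q'') (M' : Matrix (Fin r) q'' W),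
      Rlz φ ρ M' C p x ∧ r = Fintype.card q'' + 1 ∧
        ∀ w : q'' → D, ∃ y, y ᵥ* M'.map ρ = w := by
  let f : q' → (Fin r → D) →ₗ[D] D := fun j =>
    (LinearMap.proj j : (q' → D) →ₗ[D] D) ∘ₗ (M.map ρ).vecMulLinear
  have hf : ∀ j y, f j y = (y ᵥ* M.map ρ) j := fun _ _ => rfl
  obtain ⟨s, _, hs, hcard⟩ := exists_select f Finset.univ
  have hK : (⨅ j ∈ (Finset.univ : Finset q'), LinearMap.ker (f j)) = Submodule.span D {p} := by
    apply le_antisymm
    · intro y hy
      simp only [Submodule.mem_iInf] at hy
      obtain ⟨c, hc⟩ := hr.ker y (by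
        funext j
        exact hy j (Finset.mem_univ _))
      exact Submodule.mem_span_singleton.2 ⟨c, hc.symm⟩
    · rw [Submodule.span_singleton_le_iff_mem]
      simp only [Submodule.mem_iInf]
      intro j _
      rw [LinearMap.mem_ker, hf, hr.zero]
      rfl
  rw [hK, finrank_span_singleton hp, Module.finrank_fintype_fun_eq_card, Fintype.card_fin]
    at hcard
  have hMs : ∀ (y : Fin r → D) (j : s),
      (y ᵥ* (M.submatrix id (Subtype.val : s → q')).map ρ) j = (y ᵥ* M.map ρ) j.1 :=
    fun _ _ => rfl
  have hker : ∀ y, y ᵥ* (M.submatrix id (Subtype.val : s → q')).map ρ = 0 →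
      ∃ c : D, y = c • p := by
    intro y hy
    apply hr.ker
    funext j
    refine hs y ?_ j (Finset.mem_univ _)
    intro i hi
    exact congrFun hy ⟨i, hi⟩
  refine ⟨s, inferInstance, inferInstance, M.submatrix id Subtype.val, ⟨?_, hker, hr.rep⟩,
    by rw [Fintype.card_coe]; exact hcard.symm, ?_⟩
  · funext j
    rw [hMs, hr.zero]
    rfl
  · let g : (Fin r → D) →ₗ[D] (s → D) :=
      ((M.submatrix id (Subtype.val : s → q')).map ρ).vecMulLinear
    have e1 := LinearMap.finrank_range_add_finrank_ker g
    have e2 : LinearMap.ker g ≤ Submodule.span D {p} := by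
      intro y hy
      obtain ⟨c, hc⟩ := hker y hy
      exact Submodule.mem_span_singleton.2 ⟨c, hc.symm⟩
    have e3 := Submodule.finrank_mono e2
    rw [finrank_span_singleton hp] at e3
    rw [Module.finrank_fintype_fun_eq_card, Fintype.card_fin] at e1
    have e4 : LinearMap.range g = ⊤ := by
      apply Submodule.eq_top_of_finrank_eq
      apply le_antisymm (Submodule.finrank_le _)
      rw [Module.finrank_fintype_fun_eq_card, Fintype.card_coe]
      omega
    exact LinearMap.range_eq_top.1 e4

end

end Pool.Agent.H7.NC
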