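import Mathlib
import Pool.Agent.H7.NC.Reduce

/-!
# Hermitian matrices of linear forms are anisotropic over the field of fractions as soon as they
# have no isotropic vector over the ground field
-/

namespace Pool.Agent.H7.NC

open Matrix

set_option linter.unusedSectionVars false
set_option linter.unusedFintypeInType false
set_option linter.unusedDecidableInType false

universe u v

noncomputable section

variable {k : Type u} [Field k] {W : Type u} [AddCommGroup W] [Module k W]
  {e : W} {σ : W →ₗ[k] W} {D : Type u} [DivisionRing D] [StarRing D] {φ : k →+* D}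
  {ρ : W →+ D}

/-- The pigeonhole principle for hollow matrices. -/
theorem pig (h : FF e σ φ ρ) {n n' : Type} [Fintype n] [DecidableEq n] [Fintype n']
    [DecidableEq n'] (M : Matrix n n' W) (U : Submodule k (n → k)) (V : Submodule k (n' → k))
    (hUV : ∀ u ∈ U, ∀ v ∈ V, pr M u v = 0)
    (hd : Fintype.card n' < Module.finrank k U + Module.finrank k V) :
    ∃ y : n → D, y ≠ 0 ∧ y ᵥ* M.map ρ = 0 ∧
      ∀ w : n → k, (∀ u ∈ U, ∑ i, u i * w i = 0) → ∑ i, y i * φ (w i) = 0 := by
  obtain ⟨P, P', hP, hPU, _⟩ := exists_rows U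
  obtain ⟨Q, Q', hQ, hQV⟩ := exists_basis_matrix V
  have hs : sand P M Q = 0 := by
    ext i j
    rw [sand_eq]
    apply hUV _ (hPU i)
    rw [hQV]
    refine ⟨Pi.single j 1, ?_⟩
    rw [mulVec_single_one]
    rfl
  let a := Fin (Module.finrank k U)
  let b := Fin (Module.finrank k V)
  let qm : (n' → D) →ₗ[D] (b → D) := (Q.map φ).vecMulLinear
  let pm : (a → D) →ₗ[D] (n' → D) := (P.map φ * M.map ρ).vecMulLinear
  have hq : Function.Surjective qm := by
    intro z
    refine ⟨z ᵥ* Q'.map φ, ?_⟩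
    show z ᵥ* Q'.map φ ᵥ* Q.map φ = z
    rw [vecMul_vecMul, ← map_phi_mul, hQ, map_phi_one, vecMul_one]
  have hqp : ∀ y, qm (pm y) = 0 := by
    intro y
    show y ᵥ* (P.map φ * M.map ρ) ᵥ* Q.map φ = 0
    rw [vecMul_vecMul, map_sandD h, hs, map_rho_zero, vecMul_zero]
  have e2 := LinearMap.finrank_range_add_finrank_ker qm
  rw [LinearMap.range_eq_top.2 hq, finrank_top, Module.finrank_fintype_fun_eq_card,
    Module.finrank_fintype_fun_eq_card, Fintype.card_fin] at e2
  let g : (a → D) →ₗ[D] LinearMap.ker qm := LinearMap.codRestrict _ pm hqp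
  have hlt : Module.finrank D (LinearMap.ker qm) < Module.finrank D (a → D) := by
    rw [Module.finrank_fintype_fun_eq_card, Fintype.card_fin]
    omega
  have hker : LinearMap.ker g ≠ ⊥ := by
    intro hbot
    have h1 := LinearMap.finrank_le_finrank_of_injective (LinearMap.ker_eq_bot.1 hbot)
    omega
  obtain ⟨z, hz, hz0⟩ := Submodule.exists_mem_ne_zero_of_ne_bot hker
  have hz' : z ᵥ* (P.map φ * M.map ρ) = 0 := congrArg Subtype.val hz
  refine ⟨z ᵥ* P.map φ, ?_, ?_, ?_⟩
  · intro h0
    apply hz0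
    have h1 : z = z ᵥ* P.map φ ᵥ* P'.map φ := by
      rw [vecMul_vecMul, ← map_phi_mul, hP, map_phi_one, vecMul_one]
    rw [h1, h0, zero_vecMul]
  · rw [vecMul_vecMul]
    exact hz'
  · intro w hw
    have h1 : ∀ j, ∑ i, φ (P j i) * φ (w i) = 0 := by
      intro j
      have h2 := congrArg φ (hw _ (hPU j))
      rw [map_sum, map_zero] at h2
      simp only [map_mul] at h2
      exact h2
    simp only [vecMul, dotProduct, Matrix.map_apply, Finset.sum_mul]
    rw [Finset.sum_comm]
    simp only [mul_assoc, ← Finset.mul_sum, h1, mul_zero, Finset.sum_const_zero]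

/-- The space of row vectors orthogonal to a nonzero vector. -/
def orth {q : Type} [Fintype q] (p : q → D) : Submodule D (q → D) where
  carrier := {w | ∑ i, w i * p i = 0}
  add_mem' := by
    intro a b ha hb
    show ∑ i, (a i + b i) * p i = 0
    simp only [add_mul, Finset.sum_add_distrib]
    rw [ha, hb, add_zero]
  zero_mem' := by simp
  smul_mem' := by
    intro c a ha
    show ∑ i, (c * a i) * p i = 0
    simp only [mul_assoc, ← Finset.mul_sum]
    rw [ha, mul_zero]

theorem orth_lt {q : Type} [Fintype q] [DecidableEq q] (p : q → D) (hp : p ≠ 0) :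
    Module.finrank D (orth p) < Fintype.card q := by
  obtain ⟨i, hi⟩ := Function.ne_iff.1 hp
  have h1 : orth p < ⊤ := by
    rw [lt_top_iff_ne_top]
    intro h0
    apply hi
    have h2 : (Pi.single i 1 : q → D) ∈ orth p := by
      rw [h0]
      trivial
    have h3 : ∑ j, (Pi.single i 1 : q → D) j * p j = 0 := h2
    rw [Finset.sum_eq_single i] at h3
    · simpa using h3
    · intro j _ hj
      rw [Pi.single_eq_of_ne hj, zero_mul]
    · intro h
      exact absurd (Finset.mem_univ _) h
  have h2 := Submodule.finrank_lt_finrank_of_lt h1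
  rw [finrank_top, Module.finrank_fintype_fun_eq_card] at h2
  exact h2

/-- The hermitian matrix attached to a realisation. -/
def Lam (σ : W →ₗ[k] W) {q q' m : Type} [Fintype m] (F : Matrix m m W) (C : Matrix q m k)
    (M : Matrix q q' W) : Matrix (q ⊕ q') (q ⊕ q') W :=
  fromBlocks (sand C F Cᵀ) M (adj σ M) 0

theorem star_vecMul (h : FF e σ φ ρ) {q q' : Type} [Fintype q] [Fintype q'] (M : Matrix q q' W)
    (p : q → D) (j : q') :
    ∑ i, ρ (σ (M i j)) * star (p i) = star ((p ᵥ* M.map ρ) j) := by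
  simp only [vecMul, dotProduct, Matrix.map_apply, star_sum, star_mul, h.star_rho]

/-- The hermitian matrix attached to an isotropic vector is hollow. -/
theorem hol_Lam (h : FF e σ φ ρ) {q q' m : Type} [Fintype q] [Fintype q'] [DecidableEq q]
    [DecidableEq q'] [Fintype m] [DecidableEq m] (F : Matrix m m W)
    {M : Matrix q q' W} {C : Matrix q m k} {p : q → D} {x : m → D}
    (hr : Rlz φ ρ M C p x) (hp : p ≠ 0) (hcard : Fintype.card q = Fintype.card q' + 1)
    (hx : ∑ i, ∑ j, x i * ρ (F i j) * star (x j) = 0) : HolW k (Lam σ F C M) := by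
  by_contra hcon
  obtain ⟨X, hX1, _⟩ := h.unit _ _ hcon
  have hG : (sand C F Cᵀ).map ρ = C.map φ * F.map ρ * (Cᵀ).map φ := (map_sandD h C F Cᵀ).symm
  -- the map
  have hmem : ∀ z : D × (q' → D), (fun j => ∑ i, z.1 * p i * ρ (sand C F Cᵀ i j) +
      ∑ i, z.2 i * ρ (σ (M j i))) ∈ orth (fun i => star (p i)) := by
    intro z
    show ∑ j, (∑ i, z.1 * p i * ρ (sand C F Cᵀ i j) + ∑ i, z.2 i * ρ (σ (M j i))) *
      star (p j) = 0
    simp only [add_mul, Finset.sum_add_distrib]
    have h1 : ∑ j, (∑ i, z.2 i * ρ (σ (M j i))) * star (p j) = 0 := by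
      simp only [Finset.sum_mul]
      rw [Finset.sum_comm]
      simp only [mul_assoc, ← Finset.mul_sum, star_vecMul h, hr.zero, Pi.zero_apply, star_zero,
        mul_zero, Finset.sum_const_zero]
    have h2 : ∑ j, (∑ i, z.1 * p i * ρ (sand C F Cᵀ i j)) * star (p j) = 0 := by
      have h3 : ∀ j, ∑ i, z.1 * p i * ρ (sand C F Cᵀ i j) =
          z.1 * (p ᵥ* (sand C F Cᵀ).map ρ) j := by
        intro j
        simp only [vecMul, dotProduct, Matrix.map_apply, Finset.mul_sum, mul_assoc]
      have h4 : p ᵥ* (sand C F Cᵀ).map ρ = x ᵥ* F.map ρ ᵥ* (Cᵀ).map φ := by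
        rw [hG, ← vecMul_vecMul, ← vecMul_vecMul, ← hr.rep]
      have h5 : ∀ a, ∑ j, φ (Cᵀ a j) * star (p j) = star (x a) := by
        intro a
        rw [hr.rep]
        simp only [vecMul, dotProduct, Matrix.map_apply, star_sum, star_mul, h.star_phi,
          Matrix.transpose_apply]
      have h6 : ∑ j, (x ᵥ* F.map ρ ᵥ* (Cᵀ).map φ) j * star (p j) =
          ∑ a, (x ᵥ* F.map ρ) a * star (x a) := by
        have h7 : ∀ j, (x ᵥ* F.map ρ ᵥ* (Cᵀ).map φ) j = ∑ a, (x ᵥ* F.map ρ) a * φ (Cᵀ a j) :=
          fun j => rfl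
        simp only [h7, Finset.sum_mul]
        rw [Finset.sum_comm]
        simp only [mul_assoc, ← Finset.mul_sum, h5]
      have h8 : ∑ a, (x ᵥ* F.map ρ) a * star (x a) = ∑ i, ∑ j, x i * ρ (F i j) * star (x j) := by
        simp only [vecMul, dotProduct, Matrix.map_apply, Finset.sum_mul]
        exact Finset.sum_comm
      have h9 : ∀ j, (∑ i, z.1 * p i * ρ (sand C F Cᵀ i j)) * star (p j) =
          z.1 * ((x ᵥ* F.map ρ ᵥ* (Cᵀ).map φ) j * star (p j)) := by
        intro j
        rw [h3, h4, mul_assoc]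
      rw [Finset.sum_congr rfl (fun j _ => h9 j), ← Finset.mul_sum, h6, h8, hx, mul_zero]
    rw [h1, h2, add_zero]
  let g : (D × (q' → D)) →ₗ[D] orth (fun i => star (p i)) :=
    { toFun := fun z => ⟨_, hmem z⟩
      map_add' := by
        intro z z'
        apply Subtype.ext
        funext j
        show (∑ i, (z + z').1 * p i * ρ (sand C F Cᵀ i j) +
          ∑ i, (z + z').2 i * ρ (σ (M j i))) = (∑ i, z.1 * p i * ρ (sand C F Cᵀ i j) +
          ∑ i, z.2 i * ρ (σ (M j i))) + (∑ i, z'.1 * p i * ρ (sand C F Cᵀ i j) +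
          ∑ i, z'.2 i * ρ (σ (M j i)))
        simp only [Prod.fst_add, Prod.snd_add, Pi.add_apply, add_mul, Finset.sum_add_distrib]
        abel
      map_smul' := by
        intro c z
        apply Subtype.ext
        funext j
        show (∑ i, (c • z).1 * p i * ρ (sand C F Cᵀ i j) +
          ∑ i, (c • z).2 i * ρ (σ (M j i))) = c * (∑ i, z.1 * p i * ρ (sand C F Cᵀ i j) +
          ∑ i, z.2 i * ρ (σ (M j i)))
        simp only [Prod.smul_fst, Prod.smul_snd, Pi.smul_apply, smul_eq_mul, mul_assoc,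
          ← Finset.mul_sum, mul_add] }
  have hginj : Function.Injective g := by
    rw [injective_iff_map_eq_zero]
    intro z hz
    have hz' : ∀ j, ∑ i, z.1 * p i * ρ (sand C F Cᵀ i j) + ∑ i, z.2 i * ρ (σ (M j i)) = 0 :=
      fun j => congrFun (congrArg Subtype.val hz) j
    have h1 : (Sum.elim (z.1 • p) z.2) ᵥ* (Lam σ F C M).map ρ = 0 := by
      funext s
      rcases s with s | s
      · simp only [vecMul, dotProduct, Fintype.sum_sum_type, Sum.elim_inl, Sum.elim_inr,
          Matrix.map_apply, Lam, fromBlocks_apply₁₁, fromBlocks_apply₂₁, Pi.smul_apply,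
          smul_eq_mul, Pi.zero_apply]
        exact hz' s
      · simp only [vecMul, dotProduct, Fintype.sum_sum_type, Sum.elim_inl, Sum.elim_inr,
          Matrix.map_apply, Lam, fromBlocks_apply₁₂, fromBlocks_apply₂₂, Pi.smul_apply,
          smul_eq_mul, Pi.zero_apply, Matrix.zero_apply, map_zero, mul_zero,
          Finset.sum_const_zero, add_zero, mul_assoc, ← Finset.mul_sum]
        have h2 := congrFun hr.zero s
        simp only [vecMul, dotProduct, Matrix.map_apply, Pi.zero_apply] at h2
        rw [h2, mul_zero]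
    have h2 : (Sum.elim (z.1 • p) z.2 : q ⊕ q' → D) = 0 := by
      rw [← vecMul_one (Sum.elim (z.1 • p) z.2), ← hX1, ← vecMul_vecMul, h1, zero_vecMul]
    obtain ⟨i, hi⟩ := Function.ne_iff.1 hp
    have h3 : z.1 * p i = 0 := congrFun h2 (Sum.inl i)
    have h4 : z.1 = 0 := (mul_eq_zero.1 h3).resolve_right hi
    have h5 : z.2 = 0 := by
      funext j
      exact congrFun h2 (Sum.inr j)
    exact Prod.ext h4 h5
  have h1 := LinearMap.finrank_le_finrank_of_injective hginj
  have h2 := orth_lt (fun i => star (p i)) (by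
    intro h0
    apply hp
    funext i
    have := congrFun h0 i
    exact star_eq_zero.1 this)
  rw [Module.finrank_prod, Module.finrank_self, Module.finrank_fintype_fun_eq_card] at h1
  omega

theorem pr_sand {q m : Type} [Fintype q] [Fintype m] (C : Matrix q m k) (F : Matrix m m W)
    (u v : q → k) : pr (sand C F Cᵀ) u v = pr F (u ᵥ* C) (v ᵥ* C) := by
  have hu : ∀ u : q → k, u ᵥ* C = ∑ i, u i • (fun j => C i j) := by
    intro u
    ext j
    simp [vecMul, dotProduct, Finset.sum_apply]
  have h1 : pr F (u ᵥ* C) (v ᵥ* C) = ∑ i, ∑ j, (u i * v j) • pr F (C i) (C j) := by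
    rw [hu u, hu v]
    simp only [map_sum, LinearMap.sum_apply, map_smul, LinearMap.smul_apply, smul_smul,
      Finset.smul_sum]
    rw [Finset.sum_comm]
    refine Finset.sum_congr rfl fun i _ => Finset.sum_congr rfl fun j _ => ?_
    rw [mul_comm]
  rw [h1, pr_apply]
  rfl

theorem pr_fromBlocks {q q' : Type} [Fintype q] [Fintype q'] (A : Matrix q q W)
    (B : Matrix q q' W) (B' : Matrix q' q W) (D' : Matrix q' q' W) (u v : q ⊕ q' → k) :
    pr (fromBlocks A B B' D') u v =
      pr A (fun i => u (Sum.inl i)) (fun i => v (Sum.inl i)) +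
      pr B (fun i => u (Sum.inl i)) (fun i => v (Sum.inr i)) +
      (pr B' (fun i => u (Sum.inr i)) (fun i => v (Sum.inl i)) +
      pr D' (fun i => u (Sum.inr i)) (fun i => v (Sum.inr i))) := by
  simp only [pr_apply, Fintype.sum_sum_type, fromBlocks_apply₁₁, fromBlocks_apply₂₁,
    fromBlocks_apply₁₂, fromBlocks_apply₂₂, Finset.sum_add_distrib]
  abel

theorem adj_Lam (hσ : ∀ w, σ (σ w) = w) {q q' m : Type} [Fintype q] [Fintype m]
    (F : Matrix m m W) (hF : ∀ i j, F i j = σ (F j i)) (C : Matrix q m k) (M : Matrix q q' W) :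
    adj σ (Lam σ F C M) = Lam σ F C M := by
  ext i j
  rcases i with i | i <;> rcases j with j | j
  · simp only [adj, Lam, of_apply, fromBlocks_apply₁₁, sand, map_sum, map_smul,
      transpose_apply]
    rw [Finset.sum_comm]
    refine Finset.sum_congr rfl fun a _ => Finset.sum_congr rfl fun b _ => ?_
    rw [← hF, mul_comm]
  · simp only [adj, Lam, of_apply, fromBlocks_apply₁₂, fromBlocks_apply₂₁, hσ]
  · simp only [adj, Lam, of_apply, fromBlocks_apply₁₂, fromBlocks_apply₂₁]
  · simp only [adj, Lam, of_apply, fromBlocks_apply₂₂, Matrix.zero_apply, map_zero]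

theorem surj_left {q q' : Type} [Fintype q] [Fintype q'] [DecidableEq q'] (N : Matrix q q' D)
    (hs : ∀ w : q' → D, ∃ y, y ᵥ* N = w) (t : q' → D) (ht : ∀ i, ∑ j, N i j * t j = 0) :
    t = 0 := by
  funext j
  obtain ⟨y, hy⟩ := hs (Pi.single j 1)
  have h1 : (y ᵥ* N) ⬝ᵥ t = 0 := by
    rw [← dotProduct_mulVec]
    have h2 : N *ᵥ t = 0 := by
      funext i
      exact ht i
    rw [h2, dotProduct_zero]
  rw [hy, single_one_dotProduct] at h1
  exact h1

/-- **Anisotropy.**  A hermitian matrix with entries in `W` without isotropic vectors over the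
ground field has no isotropic vectors over the field of fractions. -/
theorem aniso (h : FF e σ φ ρ) (hσ : ∀ w, σ (σ w) = w) {m : ℕ} (F : Matrix (Fin m) (Fin m) W)
    (hF : ∀ i j, F i j = σ (F j i)) (hk : ∀ z : Fin m → k, pr F z z = 0 → z = 0)
    (x : Fin m → D) (hx : ∑ i, ∑ j, x i * ρ (F i j) * star (x j) = 0) : x = 0 := by
  by_contra hx0
  obtain ⟨q0, q1, i1, i2, i3, i4, M0, C0, p0, hr0⟩ := exists_real h x
  obtain ⟨r, M1, C, p, hr1, hind⟩ := exists_indep h hr0
  have hp : p ≠ 0 := by
    rintro rfl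
    apply hx0
    rw [hr1.rep, zero_vecMul]
  obtain ⟨q', i5, i6, M, hr, hcard, hsurj⟩ := exists_cols hr1 hp
  have hhol := hol_Lam h F hr hp (by rw [Fintype.card_fin]; exact hcard) hx
  rw [holW_iff] at hhol
  obtain ⟨U, V, hUV, hd⟩ := hhol
  have hadj : ∀ u v : Fin r ⊕ q' → k, pr (Lam σ F C M) u v = σ (pr (Lam σ F C M) v u) := by
    intro u v
    have h1 := pr_adj (k := k) σ (Lam σ F C M) u v
    rw [adj_Lam hσ F hF] at h1
    exact h1
  have hV0 : ∀ u ∈ U ⊓ V, ∀ v ∈ U ⊔ V, pr (Lam σ F C M) u v = 0 := by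
    intro u hu v hv
    obtain ⟨a, ha, b, hb, rfl⟩ := Submodule.mem_sup.1 hv
    rw [map_add, hUV u hu.1 b hb, hadj u a, hUV a ha u hu.2, map_zero, add_zero]
  have hdim := Submodule.finrank_sup_add_finrank_inf_eq U V
  have hd' : Fintype.card (Fin r ⊕ q') < Module.finrank k ↥(U ⊓ V) + Module.finrank k ↥(U ⊔ V) :=
    by omega
  rw [Fintype.card_sum, Fintype.card_fin] at hd
  obtain ⟨y, hy0, hyM, hyw⟩ := pig h (Lam σ F C M) (U ⊓ V) (U ⊔ V) hV0 hd'
  -- the first component
  have hy1 : (fun i => y (Sum.inl i)) ᵥ* M.map ρ = 0 := by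
    funext j
    have h1 := congrFun hyM (Sum.inr j)
    simp only [vecMul, dotProduct, Fintype.sum_sum_type, Matrix.map_apply, Lam,
      fromBlocks_apply₁₂, fromBlocks_apply₂₂, Matrix.zero_apply, map_zero, mul_zero,
      Finset.sum_const_zero, add_zero, Pi.zero_apply] at h1
    exact h1
  obtain ⟨c, hc⟩ := hr.ker _ hy1
  have hc0 : c ≠ 0 := by
    rintro rfl
    rw [zero_smul] at hc
    apply hy0
    have h2 : (fun j => star (y (Sum.inr j))) = 0 := by
      apply surj_left (M.map ρ) hsurj
      intro i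
      have h1 := congrFun hyM (Sum.inl i)
      simp only [vecMul, dotProduct, Fintype.sum_sum_type, Matrix.map_apply, Lam,
        fromBlocks_apply₁₁, fromBlocks_apply₂₁, adj, of_apply, Pi.zero_apply] at h1
      have h3 : ∀ a, y (Sum.inl a) = 0 := fun a => congrFun hc a
      simp only [h3, zero_mul, Finset.sum_const_zero, zero_add] at h1
      have h4 := congrArg star h1
      simp only [star_sum, star_mul, h.star_rho, hσ, star_zero] at h4
      exact h4
    funext s
    rcases s with s | s
    · exact congrFun hc s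
    · exact star_eq_zero.1 (congrFun h2 s)
  let l1 : (Fin r ⊕ q' → k) →ₗ[k] (Fin r → k) := LinearMap.funLeft k k Sum.inl
  let l2 : (Fin r ⊕ q' → k) →ₗ[k] (q' → k) := LinearMap.funLeft k k Sum.inr
  have hl1 : ∀ u i, l1 u i = u (Sum.inl i) := fun _ _ => rfl
  have hl2 : ∀ u i, l2 u i = u (Sum.inr i) := fun _ _ => rfl
  have htop : Submodule.map l1 (U ⊓ V) = ⊤ := by
    by_contra hne
    obtain ⟨f, hf0, hf⟩ := Submodule.exists_le_ker_of_lt_top _ (lt_top_iff_ne_top.2 hne)
    apply hf0
    have h1 : ∀ u : Fin r → k, f u = ∑ i, u i * f (Pi.single i 1) := by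
      intro u
      conv_lhs => rw [← Finset.univ_sum_single u, map_sum]
      refine Finset.sum_congr rfl fun i _ => ?_
      have : (Pi.single i (u i) : Fin r → k) = u i • Pi.single i 1 := by
        rw [← Pi.single_smul, smul_eq_mul, mul_one]
      rw [this, map_smul, smul_eq_mul]
    have h2 := hyw (Sum.elim (fun i => f (Pi.single i 1)) 0) (by
      intro u hu
      rw [Fintype.sum_sum_type]
      simp only [Sum.elim_inl, Sum.elim_inr, Pi.zero_apply, mul_zero, Finset.sum_const_zero,
        add_zero]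
      have h3 : f (l1 u) = 0 := hf (Submodule.mem_map_of_mem hu)
      rw [h1] at h3
      exact h3)
    rw [Fintype.sum_sum_type] at h2
    simp only [Sum.elim_inl, Sum.elim_inr, Pi.zero_apply, map_zero, mul_zero,
      Finset.sum_const_zero, add_zero] at h2
    have h4 : ∀ i, y (Sum.inl i) = c * p i := fun i => congrFun hc i
    simp only [h4, mul_assoc, ← Finset.mul_sum] at h2
    have h5 := hind _ ((mul_eq_zero.1 h2).resolve_left hc0)
    apply LinearMap.ext
    intro u
    rw [h1]
    have h6 : ∀ i, f (Pi.single i 1) = 0 := fun i => congrFun h5 i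
    simp [h6]
  have hinr : ∀ t ∈ U ⊓ V, l1 t = 0 → t = 0 := by
    intro t ht ht1
    have h1 : ∀ u : Fin r → k, pr M u (l2 t) = 0 := by
      intro u
      have h2 : u ∈ Submodule.map l1 (U ⊓ V) := by
        rw [htop]
        trivial
      obtain ⟨w, hw, hwu⟩ := h2
      have h3 := hV0 t ht w (Submodule.mem_sup_left hw.1)
      rw [Lam, pr_fromBlocks] at h3
      have h4 : (fun i => t (Sum.inl i)) = 0 := ht1
      have h5 : (fun i => w (Sum.inl i)) = u := hwu
      have h6 : pr (0 : Matrix q' q' W) (fun i => t (Sum.inr i)) (fun i => w (Sum.inr i)) = 0 := by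
        simp [pr_apply]
      rw [h4, h5, h6, map_zero, LinearMap.zero_apply, LinearMap.map_zero, LinearMap.zero_apply,
        zero_add, zero_add, add_zero, pr_adj] at h3
      have h7 := congrArg σ h3
      rw [hσ, map_zero] at h7
      exact h7
    have h8 : (fun j => φ (l2 t j)) = 0 := by
      apply surj_left (M.map ρ) hsurj
      intro i
      have h2 := congrArg ρ (h1 (Pi.single i 1))
      rw [pr_apply, Finset.sum_eq_single i, map_sum, map_zero] at h2
      · simp only [Pi.single_eq_same, one_mul, h.smul, h.comm] at h2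
        exact h2
      · intro j _ hj
        simp [Pi.single_eq_of_ne hj]
      · intro hi
        exact absurd (Finset.mem_univ _) hi
    funext s
    rcases s with s | s
    · exact congrFun ht1 s
    · have := congrFun h8 s
      exact (map_eq_zero φ).1 this
  -- dimension of the isotropic space
  have hdimV : Module.finrank k ↥(U ⊓ V) = r := by
    have h1 := LinearMap.finrank_range_add_finrank_ker (l1.domRestrict (U ⊓ V))
    have h2 : LinearMap.ker (l1.domRestrict (U ⊓ V)) = ⊥ := by
      rw [LinearMap.ker_eq_bot']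
      intro t ht
      exact Subtype.ext (hinr t t.2 ht)
    have h3 : LinearMap.range (l1.domRestrict (U ⊓ V)) = ⊤ := by
      rw [← htop, LinearMap.range_domRestrict]
    rw [h2, h3, finrank_bot, finrank_top, Module.finrank_fintype_fun_eq_card,
      Fintype.card_fin, add_zero] at h1
    exact h1.symm
  let K0 : Submodule k (Fin r → k) := Submodule.map l1 ((U ⊓ V) ⊓ LinearMap.ker l2)
  let S2 : Submodule k (q' → k) := Submodule.map l2 (U ⊓ V)
  have hK0 : ∀ u ∈ K0, ∃ w ∈ U ⊓ V, l1 w = u ∧ l2 w = 0 := by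
    rintro u ⟨w, hw, rfl⟩
    exact ⟨w, hw.1, rfl, hw.2⟩
  have hd2 : Fintype.card q' < Module.finrank k K0 + Module.finrank k S2 := by
    have h1 := LinearMap.finrank_range_add_finrank_ker (l2.domRestrict (U ⊓ V))
    rw [LinearMap.range_domRestrict] at h1
    have h2 : Module.finrank k (LinearMap.ker (l2.domRestrict (U ⊓ V))) ≤
        Module.finrank k K0 := by
      let g : LinearMap.ker (l2.domRestrict (U ⊓ V)) →ₗ[k] K0 :=
        LinearMap.codRestrict K0 (l1 ∘ₗ (U ⊓ V).subtype ∘ₗ Submodule.subtype _) (by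
          rintro ⟨⟨w, hw⟩, hw2⟩
          exact ⟨w, ⟨hw, hw2⟩, rfl⟩)
      apply LinearMap.finrank_le_finrank_of_injective (f := g)
      rw [injective_iff_map_eq_zero]
      rintro ⟨⟨w, hw⟩, hw2⟩ hg
      have h3 : l1 w = 0 := congrArg Subtype.val hg
      apply Subtype.ext
      apply Subtype.ext
      exact hinr w hw h3
    have h3 : Module.finrank k (Submodule.map l2 (U ⊓ V)) = Module.finrank k S2 := rfl
    omega
  have hpr : ∀ w ∈ U ⊓ V, l2 w = 0 → ∀ v ∈ U ⊓ V,
      pr F ((l1 w) ᵥ* C) ((l1 v) ᵥ* C) + pr M (l1 w) (l2 v) = 0 := by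
    intro w hw hw2 v hv
    have h3 := hV0 w hw v (Submodule.mem_sup_left hv.1)
    rw [Lam, pr_fromBlocks] at h3
    have h4 : (fun i => w (Sum.inr i)) = 0 := hw2
    rw [h4, map_zero, map_zero, LinearMap.zero_apply, LinearMap.zero_apply, add_zero, add_zero,
      pr_sand] at h3
    exact h3
  have hC0 : ∀ u ∈ K0, u ᵥ* C = 0 := by
    intro u hu
    obtain ⟨w, hw, rfl, hw2⟩ := hK0 u hu
    apply hk
    have h3 := hpr w hw hw2 w hw
    rw [hw2, map_zero, add_zero] at h3
    exact h3
  obtain ⟨y', hy'0, hy'M, hy'w⟩ := pig h M K0 S2 (by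
    rintro u hu _ ⟨v, hv, rfl⟩
    obtain ⟨w, hw, rfl, hw2⟩ := hK0 u hu
    have h3 := hpr w hw hw2 v hv
    rw [hC0 _ hu, map_zero, LinearMap.zero_apply, zero_add] at h3
    exact h3) hd2
  obtain ⟨c', hc'⟩ := hr.ker _ hy'M
  have hc'0 : c' ≠ 0 := by
    rintro rfl
    rw [zero_smul] at hc'
    exact hy'0 hc'
  apply hx0
  funext j
  have h1 := hy'w (fun i => C i j) (by
    intro u hu
    exact congrFun (hC0 u hu) j)
  have h4 : ∀ i, y' i = c' * p i := fun i => congrFun hc' i
  simp only [h4, mul_assoc, ← Finset.mul_sum] at h1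
  have h5 := (mul_eq_zero.1 h1).resolve_left hc'0
  rw [hr.rep]
  exact h5

end

end Pool.Agent.H7.NC
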