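import Mathlib

/-!
# Anisotropic hermitian spaces over division rings and their rings of adjointable operators
-/

namespace Pool.Agent.H7.NC

set_option linter.unusedSectionVars false

universe u v

noncomputable section

/-- The Moore-Penrose equations. -/
def IsMP {R : Type u} [Ring R] [StarRing R] (a x : R) : Prop :=
  a * x * a = a ∧ x * a * x = x ∧ star (a * x) = a * x ∧ star (x * a) = x * a

theorem IsMP.unique {R : Type u} [Ring R] [StarRing R] {a x y : R} (hx : IsMP a x)
    (hy : IsMP a y) : x = y := by
  obtain ⟨h1, h2, h3, h4⟩ := hx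
  obtain ⟨k1, k2, k3, k4⟩ := hy
  have e1 : a * x = a * y := by
    calc a * x = star (a * x) := h3.symm
      _ = star ((a * y * a) * x) := by rw [k1]
      _ = star ((a * y) * (a * x)) := by simp only [mul_assoc]
      _ = (a * x) * (a * y) := by rw [star_mul, h3, k3]
      _ = (a * x * a) * y := by simp only [mul_assoc]
      _ = a * y := by rw [h1]
  have e2 : x * a = y * a := by
    calc x * a = star (x * a) := h4.symm
      _ = star (x * (a * y * a)) := by rw [k1]
      _ = star ((x * a) * (y * a)) := by simp only [mul_assoc]
      _ = (y * a) * (x * a) := by rw [star_mul, h4, k4]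
      _ = y * (a * x * a) := by simp only [mul_assoc]
      _ = y * a := by rw [h1]
  calc x = x * a * x := h2.symm
    _ = y * a * x := by rw [e2]
    _ = y * (a * x) := by rw [mul_assoc]
    _ = y * (a * y) := by rw [e1]
    _ = y := by rw [← mul_assoc, k2]

theorem IsMP.star {R : Type u} [Ring R] [StarRing R] {a x : R} (hx : IsMP a x) :
    IsMP (Star.star a) (Star.star x) := by
  obtain ⟨h1, h2, h3, h4⟩ := hx
  refine ⟨?_, ?_, ?_, ?_⟩
  · rw [← star_mul, ← star_mul, ← mul_assoc, h1]
  · rw [← star_mul, ← star_mul, ← mul_assoc, h2]
  · rw [← star_mul, h4, h4]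
  · rw [← star_mul, h3, h3]

theorem IsMP.map {R S : Type u} [Ring R] [StarRing R] [Ring S] [StarRing S] (f : R →+* S)
    (hf : ∀ x, f (Star.star x) = Star.star (f x)) {a x : R} (hx : IsMP a x) :
    IsMP (f a) (f x) := by
  obtain ⟨h1, h2, h3, h4⟩ := hx
  refine ⟨?_, ?_, ?_, ?_⟩
  · rw [← map_mul, ← map_mul, h1]
  · rw [← map_mul, ← map_mul, h2]
  · rw [← map_mul, ← hf, h3]
  · rw [← map_mul, ← hf, h4]

/-- In a regular ring with proper involution Moore-Penrose inverses exist. -/
theorem exists_isMP {S : Type u} [Ring S] [StarRing S] (hreg : ∀ x : S, ∃ y, x * y * x = x)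
    (hprop : ∀ x : S, star x * x = 0 → x = 0) (a : S) : ∃ x, IsMP a x := by
  -- quasi-inverses of `a* a`
  have key : ∀ κ : S, (star a * a) * κ * (star a * a) = star a * a → a * κ * star a * a = a := by
    intro κ hκ
    have h2 : star a * (a * κ * star a * a - a) = 0 := by
      rw [mul_sub]
      calc star a * (a * κ * star a * a) - star a * a
          = (star a * a) * κ * (star a * a) - star a * a := by simp only [mul_assoc]
        _ = 0 := by rw [hκ, sub_self]
    have h3 : star (a * κ * star a * a - a) * (a * κ * star a * a - a) = 0 := by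
      have hs : star (a * κ * star a * a - a) = (star (κ * (star a * a)) - 1) * star a := by
        have : a * κ * star a * a - a = a * (κ * (star a * a) - 1) := by
          rw [mul_sub, mul_one]; simp only [mul_assoc]
        rw [this, star_mul, star_sub, star_one]
      rw [hs, mul_assoc, h2, mul_zero]
    exact sub_eq_zero.1 (hprop _ h3)
  obtain ⟨κ, hκ⟩ := hreg (star a * a)
  have hκs : (star a * a) * star κ * (star a * a) = star a * a := by
    have := congrArg star hκ
    simp only [star_mul, star_star] at this
    simpa only [mul_assoc] using this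
  have h1 := key κ hκ
  have h2 := key _ hκs
  -- the left projection
  have hp : star (a * κ * star a) = a * κ * star a := by
    have e1 : star a * a * κ * star a = star a := by
      have := congrArg star h2
      simp only [star_mul, star_star] at this
      simpa only [mul_assoc] using this
    have e2 : star (a * κ * star a) = a * star κ * star a := by
      simp only [star_mul, star_star, mul_assoc]
    have e3 : a * star κ * star a * (a * κ * star a) = a * star κ * star a := by
      calc a * star κ * star a * (a * κ * star a)
          = a * star κ * (star a * a * κ * star a) := by simp only [mul_assoc]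
        _ = a * star κ * star a := by rw [e1]
    have e4 : star (a * star κ * star a * (a * κ * star a)) =
        a * star κ * star a * (a * κ * star a) := by
      rw [star_mul, e2]
      have : star (a * star κ * star a) = a * κ * star a := by
        simp only [star_mul, star_star, mul_assoc]
      rw [this]
    rw [e3] at e4
    rw [e2, ← e4]
    simp only [star_mul, star_star, mul_assoc]
  -- the same on the other side
  have key' : ∀ κ : S, (a * star a) * κ * (a * star a) = a * star a →
      a * star a * κ * a = a := by
    intro κ hκ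
    have h2 : (a * star a * κ * a - a) * star a = 0 := by
      rw [sub_mul]
      calc a * star a * κ * a * star a - a * star a
          = (a * star a) * κ * (a * star a) - a * star a := by simp only [mul_assoc]
        _ = 0 := by rw [hκ, sub_self]
    have h3 : star (star (a * star a * κ * a - a)) * star (a * star a * κ * a - a) = 0 := by
      rw [star_star]
      have hs : star (a * star a * κ * a - a) = star a * (star (a * star a * κ) - 1) := by
        rw [star_sub, star_mul, mul_sub, mul_one]
      rw [hs, ← mul_assoc, h2, zero_mul]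
    exact sub_eq_zero.1 (star_eq_zero.1 (hprop _ h3))
  obtain ⟨μ, hμ⟩ := hreg (a * star a)
  have hμs : (a * star a) * star μ * (a * star a) = a * star a := by
    have := congrArg star hμ
    simp only [star_mul, star_star] at this
    simpa only [mul_assoc] using this
  have g1 := key' μ hμ
  have g2 := key' _ hμs
  have hq : star (star a * μ * a) = star a * μ * a := by
    have e1 : star a * μ * a * star a = star a := by
      have := congrArg star g2
      simp only [star_mul, star_star] at this
      simpa only [mul_assoc] using this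
    have e2 : star (star a * μ * a) = star a * star μ * a := by
      simp only [star_mul, star_star, mul_assoc]
    have e3 : star a * μ * a * (star a * star μ * a) = star a * star μ * a := by
      calc star a * μ * a * (star a * star μ * a)
          = (star a * μ * a * star a) * star μ * a := by simp only [mul_assoc]
        _ = star a * star μ * a := by rw [e1]
    have e4 : star (star a * μ * a * (star a * star μ * a)) =
        star a * μ * a * (star a * star μ * a) := by
      rw [star_mul, e2]
      have : star (star a * star μ * a) = star a * μ * a := by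
        simp only [star_mul, star_star, mul_assoc]
      rw [this]
    rw [e3] at e4
    rw [e2, ← e4]
    simp only [star_mul, star_star, mul_assoc]
  obtain ⟨x, hx⟩ := hreg a
  have hap : a * (star a * μ * a) = a := by
    calc a * (star a * μ * a) = a * star a * μ * a := by simp only [mul_assoc]
      _ = a := g1
  have hL : a * (star a * μ * a * x * (a * κ * star a)) = a * κ * star a := by
    calc a * (star a * μ * a * x * (a * κ * star a))
        = (a * (star a * μ * a)) * x * a * κ * star a := by simp only [mul_assoc]
      _ = a * x * a * κ * star a := by rw [hap]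
      _ = a * κ * star a := by rw [hx]
  have hR : (star a * μ * a * x * (a * κ * star a)) * a = star a * μ * a := by
    calc (star a * μ * a * x * (a * κ * star a)) * a
        = star a * μ * a * x * (a * κ * star a * a) := by simp only [mul_assoc]
      _ = star a * μ * (a * x * a) := by rw [h1]; simp only [mul_assoc]
      _ = star a * μ * a := by rw [hx]
  refine ⟨star a * μ * a * x * (a * κ * star a), ?_, ?_, ?_, ?_⟩
  · rw [hL, h1]
  · rw [hR]
    calc star a * μ * a * (star a * μ * a * x * (a * κ * star a))
        = star a * μ * (a * (star a * μ * a)) * x * (a * κ * star a) := by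
          simp only [mul_assoc]
      _ = star a * μ * a * x * (a * κ * star a) := by rw [hap]
  · rw [hL, hp]
  · rw [hR, hq]

/-- An anisotropic hermitian form on a left vector space over a division ring with
involution. -/
structure HForm (D : Type u) (V : Type v) [DivisionRing D] [StarRing D] [AddCommGroup V]
    [Module D V] where
  /-- the form -/
  B : V → V → D
  add_left : ∀ x y z, B (x + y) z = B x z + B y z
  smul_left : ∀ c x y, B (c • x) y = c * B x y
  symm : ∀ x y, star (B x y) = B y x
  aniso : ∀ x, B x x = 0 → x = 0

namespace HForm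

variable {D : Type u} {V : Type v} [DivisionRing D] [StarRing D] [AddCommGroup V] [Module D V]
  (H : HForm D V)

theorem add_right (x y z : V) : H.B x (y + z) = H.B x y + H.B x z := by
  rw [← H.symm, H.add_left, star_add, H.symm, H.symm]

theorem smul_right (c : D) (x y : V) : H.B x (c • y) = H.B x y * star c := by
  rw [← H.symm, H.smul_left, star_mul, H.symm]

theorem zero_left (y : V) : H.B 0 y = 0 := by
  have := H.smul_left 0 0 y
  rwa [zero_smul, zero_mul] at this

theorem zero_right (x : V) : H.B x 0 = 0 := by
  rw [← H.symm, H.zero_left, star_zero]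

theorem neg_left (x y : V) : H.B (-x) y = - H.B x y := by
  have := H.smul_left (-1) x y
  rwa [neg_one_smul, neg_one_mul] at this

theorem neg_right (x y : V) : H.B x (-y) = - H.B x y := by
  rw [← H.symm, H.neg_left, star_neg, H.symm]

theorem sub_left (x y z : V) : H.B (x - y) z = H.B x z - H.B y z := by
  rw [sub_eq_add_neg, H.add_left, H.neg_left, ← sub_eq_add_neg]

theorem sub_right (x y z : V) : H.B x (y - z) = H.B x y - H.B x z := by
  rw [sub_eq_add_neg, H.add_right, H.neg_right, ← sub_eq_add_neg]

theorem ext_left {x y : V} (h : ∀ z, H.B x z = H.B y z) : x = y := by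
  have h1 : H.B (x - y) (x - y) = 0 := by
    rw [H.sub_left, h, sub_self]
  exact sub_eq_zero.1 (H.aniso _ h1)

theorem ext_right {x y : V} (h : ∀ z, H.B z x = H.B z y) : x = y := by
  apply H.ext_left
  intro z
  rw [← H.symm, h, H.symm]

/-- The restriction of the form to a subspace. -/
def restrict (U : Submodule D V) : HForm D U where
  B x y := H.B x y
  add_left x y z := H.add_left x y z
  smul_left c x y := H.smul_left c x y
  symm x y := H.symm x y
  aniso x h := Subtype.ext (H.aniso x h)

theorem exists_proj_aux (s : Set V) (hs : s.Finite) : ∀ v : V, ∃ p ∈ Submodule.span D s,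
    ∀ w ∈ Submodule.span D s, H.B (v - p) w = 0 := by
  induction s, hs using Set.Finite.induction_on with
  | empty =>
    intro v
    refine ⟨0, Submodule.zero_mem _, fun w hw => ?_⟩
    rw [Submodule.span_empty, Submodule.mem_bot] at hw
    rw [hw, H.zero_right]
  | insert _ _ ih =>
    rename_i a s _ _
    intro v
    obtain ⟨p, hp, hpw⟩ := ih a
    obtain ⟨q, hq, hqw⟩ := ih v
    by_cases ha : a - p = 0
    · have ha' : a ∈ Submodule.span D s := by
        rw [sub_eq_zero.1 ha]
        exact hp
      rw [Submodule.span_insert_eq_span ha']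
      exact ⟨q, hq, hqw⟩
    · have hB : H.B (a - p) (a - p) ≠ 0 := fun h => ha (H.aniso _ h)
      have hle : Submodule.span D s ≤ Submodule.span D (insert a s) :=
        Submodule.span_mono (Set.subset_insert _ _)
      have ha1 : a - p ∈ Submodule.span D (insert a s) :=
        Submodule.sub_mem _ (Submodule.subset_span (Set.mem_insert _ _)) (hle hp)
      refine ⟨q + (H.B v (a - p) * (H.B (a - p) (a - p))⁻¹) • (a - p),
        Submodule.add_mem _ (hle hq) (Submodule.smul_mem _ _ ha1), ?_⟩
      intro w hw
      obtain ⟨d, k, hk, rfl⟩ := Submodule.mem_span_insert.1 hw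
      have e1 : d • a + k = d • (a - p) + (d • p + k) := by
        rw [smul_sub]
        abel
      have hk' : d • p + k ∈ Submodule.span D s :=
        Submodule.add_mem _ (Submodule.smul_mem _ _ hp) hk
      have e2 : H.B q (a - p) = 0 := by
        rw [← H.symm, hpw q hq, star_zero]
      have e3 : v - (q + (H.B v (a - p) * (H.B (a - p) (a - p))⁻¹) • (a - p)) =
          (v - q) - (H.B v (a - p) * (H.B (a - p) (a - p))⁻¹) • (a - p) := by abel
      rw [e1, H.add_right, e3]
      have e4 : H.B ((v - q) - (H.B v (a - p) * (H.B (a - p) (a - p))⁻¹) • (a - p))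
          (d • p + k) = 0 := by
        rw [H.sub_left, hqw _ hk', H.smul_left, hpw _ hk', mul_zero, sub_zero]
      have e5 : H.B ((v - q) - (H.B v (a - p) * (H.B (a - p) (a - p))⁻¹) • (a - p))
          (d • (a - p)) = 0 := by
        rw [H.smul_right, H.sub_left, H.sub_left v q, e2, H.smul_left, mul_assoc,
          inv_mul_cancel₀ hB, mul_one, sub_zero, sub_self, zero_mul]
      rw [e4, e5, add_zero]

theorem exists_proj (U : Submodule D V) (hU : U.FG) (v : V) :
    ∃ p ∈ U, ∀ w ∈ U, H.B (v - p) w = 0 := by
  obtain ⟨s, hs, rfl⟩ := Submodule.fg_def.1 hU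
  exact H.exists_proj_aux s hs v

theorem proj_unique (U : Submodule D V) {v p q : V} (hp : p ∈ U) (hq : q ∈ U)
    (hpw : ∀ w ∈ U, H.B (v - p) w = 0) (hqw : ∀ w ∈ U, H.B (v - q) w = 0) : p = q := by
  have h1 : H.B (p - q) (p - q) = 0 := by
    have h2 := hpw (p - q) (Submodule.sub_mem _ hp hq)
    have h3 := hqw (p - q) (Submodule.sub_mem _ hp hq)
    have h4 : p - q = (v - q) - (v - p) := by abel
    calc H.B (p - q) (p - q) = H.B ((v - q) - (v - p)) (p - q) := by rw [← h4]
      _ = 0 := by rw [H.sub_left, h2, h3, sub_zero]
  exact sub_eq_zero.1 (H.aniso _ h1)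

/-- The orthogonal projection onto a finite-dimensional subspace. -/
def proj (U : Submodule D V) (hU : U.FG) : V →ₗ[D] U where
  toFun v := ⟨(H.exists_proj U hU v).choose, (H.exists_proj U hU v).choose_spec.1⟩
  map_add' := by
    intro x y
    apply Subtype.ext
    obtain ⟨h1, h2⟩ := (H.exists_proj U hU x).choose_spec
    obtain ⟨h3, h4⟩ := (H.exists_proj U hU y).choose_spec
    obtain ⟨h5, h6⟩ := (H.exists_proj U hU (x + y)).choose_spec
    apply H.proj_unique U h5 (U.add_mem h1 h3) h6
    intro w hw
    rw [add_sub_add_comm, H.add_left, h2 w hw, h4 w hw, add_zero]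
  map_smul' := by
    intro c x
    apply Subtype.ext
    obtain ⟨h1, h2⟩ := (H.exists_proj U hU x).choose_spec
    obtain ⟨h5, h6⟩ := (H.exists_proj U hU (c • x)).choose_spec
    apply H.proj_unique U h5 (U.smul_mem c h1) h6
    intro w hw
    show H.B (c • x - c • _) w = 0
    rw [← smul_sub, H.smul_left, h2 w hw, mul_zero]

theorem proj_spec (U : Submodule D V) (hU : U.FG) (v : V) (w : V) (hw : w ∈ U) :
    H.B (H.proj U hU v : V) w = H.B v w := by
  have h := (H.exists_proj U hU v).choose_spec.2 w hw
  rw [H.sub_left] at h
  exact (sub_eq_zero.1 h).symm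

theorem proj_spec' (U : Submodule D V) (hU : U.FG) (v : V) (w : V) (hw : w ∈ U) :
    H.B w (H.proj U hU v : V) = H.B w v := by
  rw [← H.symm, H.proj_spec U hU v w hw, H.symm]

theorem proj_mem (U : Submodule D V) (hU : U.FG) (v : V) (hv : v ∈ U) :
    (H.proj U hU v : V) = v := by
  have h : H.proj U hU v = ⟨v, hv⟩ := by
    apply (H.restrict U).ext_left
    intro z
    exact H.proj_spec U hU v z z.2
  rw [h]

/-- The ring of adjointable operators, each given together with its adjoint. -/
def adj : Subring (Module.End D V × (Module.End D V)ᵐᵒᵖ) where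
  carrier := {p | ∀ x y, H.B (p.1 x) y = H.B x (p.2.unop y)}
  mul_mem' := by
    intro p q hp hq x y
    show H.B (p.1 (q.1 x)) y = H.B x (q.2.unop (p.2.unop y))
    rw [hp, hq]
  one_mem' := fun _ _ => rfl
  add_mem' := by
    intro p q hp hq x y
    show H.B (p.1 x + q.1 x) y = H.B x (p.2.unop y + q.2.unop y)
    rw [H.add_left, H.add_right, hp, hq]
  zero_mem' := by
    intro x y
    show H.B 0 y = H.B x 0
    rw [H.zero_left, H.zero_right]
  neg_mem' := by
    intro p hp x y
    show H.B (-(p.1 x)) y = H.B x (-(p.2.unop y))
    rw [H.neg_left, H.neg_right, hp]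

/-- Application of an adjointable operator. -/
def ap (p : H.adj) (x : V) : V := p.1.1 x

/-- Application of the adjoint. -/
def ap' (p : H.adj) (x : V) : V := p.1.2.unop x

theorem ap_ap' (p : H.adj) (x y : V) : H.B (H.ap p x) y = H.B x (H.ap' p y) := p.2 x y

theorem ap'_ap (p : H.adj) (x y : V) : H.B (H.ap' p x) y = H.B x (H.ap p y) := by
  rw [← H.symm, ← H.ap_ap', H.symm]

instance : Star H.adj where
  star p := ⟨(p.1.2.unop, MulOpposite.op p.1.1), fun x y => H.ap'_ap p x y⟩

instance : StarRing H.adj where
  star_involutive _ := rfl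
  star_mul _ _ := rfl
  star_add _ _ := rfl

@[simp] theorem ap_star (p : H.adj) (x : V) : H.ap (star p) x = H.ap' p x := rfl

@[simp] theorem ap_mul (p q : H.adj) (x : V) : H.ap (p * q) x = H.ap p (H.ap q x) := rfl

@[simp] theorem ap_one (x : V) : H.ap 1 x = x := rfl

@[simp] theorem ap_zero (x : V) : H.ap 0 x = 0 := rfl

@[simp] theorem ap_add (p q : H.adj) (x : V) : H.ap (p + q) x = H.ap p x + H.ap q x := rfl

@[simp] theorem ap_neg (p : H.adj) (x : V) : H.ap (-p) x = - H.ap p x := rfl

@[simp] theorem ap_map_zero (p : H.adj) : H.ap p 0 = 0 := map_zero p.1.1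

@[simp] theorem ap_map_add (p : H.adj) (x y : V) : H.ap p (x + y) = H.ap p x + H.ap p y :=
  map_add p.1.1 x y

theorem adj_ext {p q : H.adj} (h : ∀ x, H.ap p x = H.ap q x) : p = q := by
  apply Subtype.ext
  have h1 : p.1.1 = q.1.1 := LinearMap.ext h
  have h2 : p.1.2.unop = q.1.2.unop := by
    apply LinearMap.ext
    intro y
    apply H.ext_right
    intro x
    have e1 := H.ap_ap' p x y
    have e2 := H.ap_ap' q x y
    rw [h x] at e1
    exact e1.symm.trans e2
  exact Prod.ext h1 (MulOpposite.unop_injective h2)

theorem adj_proper (x : H.adj) (h : star x * x = 0) : x = 0 := by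
  apply H.adj_ext
  intro v
  rw [ap_zero]
  apply H.aniso
  have h1 : H.ap (star x * x) v = 0 := by rw [h, ap_zero]
  rw [ap_mul, ap_star] at h1
  rw [H.ap_ap', h1, H.zero_right]

/-- Riesz representation. -/
theorem riesz [Module.Finite D V] (f : V →ₗ[D] D) : ∃ z, ∀ x, f x = H.B x z := by
  by_cases hf : f = 0
  · refine ⟨0, fun x => ?_⟩
    rw [hf, H.zero_right]
    rfl
  · obtain ⟨v, hv⟩ : ∃ v, f v ≠ 0 := by
      by_contra hcon
      push Not at hcon
      exact hf (LinearMap.ext hcon)
    obtain ⟨p, hp, hpw⟩ := H.exists_proj (LinearMap.ker f) (IsNoetherian.noetherian _) v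
    have hn : f (v - p) = f v := by
      rw [map_sub, LinearMap.mem_ker.1 hp, sub_zero]
    have hn0 : v - p ≠ 0 := by
      intro h
      rw [h, map_zero] at hn
      exact hv hn.symm
    have hB : H.B (v - p) (v - p) ≠ 0 := fun h => hn0 (H.aniso _ h)
    refine ⟨star ((H.B (v - p) (v - p))⁻¹ * f v) • (v - p), fun x => ?_⟩
    have hx : x - (f x * (f v)⁻¹) • (v - p) ∈ LinearMap.ker f := by
      rw [LinearMap.mem_ker, map_sub, map_smul, hn, smul_eq_mul, mul_assoc, inv_mul_cancel₀ hv,
        mul_one, sub_self]
    have h1 := hpw _ hx
    have h2 : H.B (x - (f x * (f v)⁻¹) • (v - p)) (v - p) = 0 := by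
      rw [← H.symm, h1, star_zero]
    rw [H.sub_left, H.smul_left, sub_eq_zero] at h2
    rw [H.smul_right, star_star, h2]
    calc f x = f x * ((f v)⁻¹ * (H.B (v - p) (v - p) * ((H.B (v - p) (v - p))⁻¹ * f v))) := by
          rw [mul_inv_cancel_left₀ hB, inv_mul_cancel₀ hv, mul_one]
      _ = _ := by simp only [mul_assoc]

theorem exists_adjoint [Module.Finite D V] (f : Module.End D V) :
    ∃ g : Module.End D V, ∀ x y, H.B (f x) y = H.B x (g y) := by
  have h1 : ∀ y, ∃ z, ∀ x, H.B (f x) y = H.B x z := by
    intro y
    exact H.riesz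
      { toFun := fun x => H.B (f x) y
        map_add' := fun a b => by rw [map_add, H.add_left]
        map_smul' := fun c a => by rw [map_smul, H.smul_left]; rfl }
  choose g hg using h1
  refine ⟨{ toFun := g, map_add' := ?_, map_smul' := ?_ }, fun x y => hg y x⟩
  · intro a b
    apply H.ext_right
    intro z
    rw [← hg, H.add_right, H.add_right, hg, hg]
  · intro c a
    apply H.ext_right
    intro z
    rw [← hg, H.smul_right, hg]
    exact (H.smul_right c z (g a)).symm

theorem fst_bijective [Module.Finite D V] :
    Function.Bijective ((RingHom.fst _ _).comp H.adj.subtype : H.adj →+* Module.End D V) := by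
  constructor
  · intro p q h
    apply H.adj_ext
    intro x
    exact LinearMap.congr_fun h x
  · intro f
    obtain ⟨g, hg⟩ := H.exists_adjoint f
    exact ⟨⟨(f, MulOpposite.op g), hg⟩, rfl⟩

/-- The ring of operators of a finite-dimensional space. -/
def adjEquiv [Module.Finite D V] : H.adj ≃+* Module.End D V :=
  RingEquiv.ofBijective _ H.fst_bijective

theorem adj_artinian [Module.Finite D V] : IsArtinianRing H.adj := by
  have h1 : IsSemisimpleRing (Module.End D V) := IsSemisimpleRing.moduleEnd D V
  have h2 : IsArtinianRing (Module.End D V) := by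
    show IsArtinian (Module.End D V) (Module.End D V)
    infer_instance
  exact Function.Surjective.isArtinianRing (f := H.adjEquiv.symm) H.adjEquiv.symm.surjective

theorem end_regular (f : Module.End D V) : ∃ g, f * g * f = f := by
  obtain ⟨s, hs⟩ := LinearMap.exists_rightInverse_of_surjective f.rangeRestrict
    (LinearMap.range_rangeRestrict f)
  obtain ⟨p, hp⟩ := LinearMap.exists_leftInverse_of_injective (LinearMap.range f).subtype
    (Submodule.ker_subtype _)
  refine ⟨s ∘ₗ p, ?_⟩
  apply LinearMap.ext
  intro x
  show f (s (p (f x))) = f x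
  have h1 : p (f x) = f.rangeRestrict x := LinearMap.congr_fun hp (f.rangeRestrict x)
  have h2 := LinearMap.congr_fun hs (f.rangeRestrict x)
  rw [h1]
  exact congrArg Subtype.val h2

theorem adj_regular [Module.Finite D V] (x : H.adj) : ∃ y, x * y * x = x := by
  obtain ⟨g, hg⟩ := end_regular (H.adjEquiv x)
  refine ⟨H.adjEquiv.symm g, ?_⟩
  apply H.adjEquiv.injective
  rw [map_mul, map_mul, RingEquiv.apply_symm_apply, hg]

end HForm

end

end Pool.Agent.H7.NC
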