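import Mathlib
import Pool.Agent.H7.NC.Herm

/-!
# Compressions to finite-dimensional subspaces of an anisotropic hermitian space
-/

namespace Pool.Agent.H7.NC

open Filter

set_option linter.unusedSectionVars false

universe u v

noncomputable section

variable {D : Type u} {V : Type v} [DivisionRing D] [StarRing D] [AddCommGroup V] [Module D V]
  (H : HForm D V)

/-- Finite-dimensional subspaces. -/
abbrev FS (D : Type u) (V : Type v) [DivisionRing D] [AddCommGroup V] [Module D V] : Type v :=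
  {U : Submodule D V // U.FG}

instance : IsDirectedOrder (FS D V) where
  directed U W := ⟨⟨U.1 ⊔ W.1, U.2.sup W.2⟩, (le_sup_left : U.1 ≤ U.1 ⊔ W.1),
    (le_sup_right : W.1 ≤ U.1 ⊔ W.1)⟩

instance : Nonempty (FS D V) := ⟨⟨⊥, Submodule.fg_bot⟩⟩

instance (U : FS D V) : Module.Finite D U.1 := Module.Finite.iff_fg.2 U.2

theorem ev_mem (v : V) : ∀ᶠ U : FS D V in atTop, v ∈ U.1 := by
  refine (eventually_ge_atTop (⟨Submodule.span D {v}, Submodule.fg_span_singleton v⟩ :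
    FS D V)).mono fun U hU => ?_
  exact hU (Submodule.mem_span_singleton_self v)

namespace HForm

/-- The operators on the subspace `U`. -/
abbrev BU (U : FS D V) : Type v := (H.restrict U.1).adj

/-- Application of an operator on `U`. -/
abbrev apU {U : FS D V} (x : H.BU U) (v : U.1) : U.1 := (H.restrict U.1).ap x v

theorem apU_mul {U : FS D V} (x y : H.BU U) (v : U.1) :
    H.apU (x * y) v = H.apU x (H.apU y v) := rfl

theorem apU_one {U : FS D V} (v : U.1) : H.apU (1 : H.BU U) v = v := rfl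

theorem apU_map_zero {U : FS D V} (x : H.BU U) : H.apU x 0 = 0 := map_zero x.1.1

theorem apU_map_add {U : FS D V} (x : H.BU U) (v w : U.1) :
    H.apU x (v + w) = H.apU x v + H.apU x w := map_add x.1.1 v w

/-- Discrete strong convergence. -/
def HC (x : ∀ U : FS D V, H.BU U) (T : H.adj) : Prop :=
  ∀ v : V, ∀ᶠ U : FS D V in atTop, ∃ hv : v ∈ U.1, ((H.apU (x U) ⟨v, hv⟩ : U.1) : V) = H.ap T v

variable {H}

theorem HC.one : H.HC (fun _ => 1) 1 := fun v =>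
  (ev_mem v).mono fun _ hv => ⟨hv, rfl⟩

theorem HC.zero : H.HC (fun _ => 0) 0 := fun v =>
  (ev_mem v).mono fun _ hv => ⟨hv, rfl⟩

theorem HC.add {x y : ∀ U : FS D V, H.BU U} {S T : H.adj} (hx : H.HC x S) (hy : H.HC y T) :
    H.HC (fun U => x U + y U) (S + T) := fun v => by
  filter_upwards [hx v, hy v] with U h1 h2
  obtain ⟨hv, h1⟩ := h1
  obtain ⟨_, h2⟩ := h2
  refine ⟨hv, ?_⟩
  rw [ap_add, ← h1, ← h2]
  rfl

theorem HC.neg {x : ∀ U : FS D V, H.BU U} {S : H.adj} (hx : H.HC x S) :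
    H.HC (fun U => - x U) (-S) := fun v => by
  filter_upwards [hx v] with U h1
  obtain ⟨hv, h1⟩ := h1
  refine ⟨hv, ?_⟩
  rw [ap_neg, ← h1]
  rfl

theorem HC.mul {x y : ∀ U : FS D V, H.BU U} {S T : H.adj} (hx : H.HC x S) (hy : H.HC y T) :
    H.HC (fun U => x U * y U) (S * T) := fun v => by
  filter_upwards [hx (H.ap T v), hy v] with U h1 h2
  obtain ⟨hv', h1⟩ := h1
  obtain ⟨hv, h2⟩ := h2
  refine ⟨hv, ?_⟩
  have h3 : H.apU (y U) ⟨v, hv⟩ = ⟨H.ap T v, hv'⟩ := Subtype.ext h2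
  rw [ap_mul, apU_mul, ← h1]
  exact congrArg (fun t => ((H.apU (x U) t : U.1) : V)) h3

theorem HC.unique {x : ∀ U : FS D V, H.BU U} {S T : H.adj} (hS : H.HC x S) (hT : H.HC x T) :
    S = T := by
  apply H.adj_ext
  intro v
  obtain ⟨U, ⟨h1, h2⟩, ⟨h3, h4⟩⟩ := ((hS v).and (hT v)).exists
  rw [← h2, ← h4]

variable (H) in
/-- Compression. -/
def cmp (T : H.adj) (U : FS D V) : H.BU U :=
  ⟨(H.proj U.1 U.2 ∘ₗ T.1.1 ∘ₗ U.1.subtype,
    MulOpposite.op (H.proj U.1 U.2 ∘ₗ T.1.2.unop ∘ₗ U.1.subtype)), fun x y => by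
      show H.B (H.proj U.1 U.2 (T.1.1 x) : V) y = H.B x (H.proj U.1 U.2 (T.1.2.unop y) : V)
      rw [H.proj_spec _ _ _ _ y.2, H.proj_spec' _ _ _ _ x.2]
      exact T.2 x y⟩

theorem cmp_conv (T : H.adj) : H.HC (H.cmp T) T := fun v => by
  filter_upwards [ev_mem v, ev_mem (H.ap T v)] with U h1 h2
  refine ⟨h1, ?_⟩
  exact H.proj_mem U.1 U.2 (H.ap T v) h2

theorem star_cmp (T : H.adj) (U : FS D V) : star (H.cmp T U) = H.cmp (star T) U := rfl

variable (H) in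
/-- Two-sided convergence. -/
def Cv (x : ∀ U : FS D V, H.BU U) (T : H.adj) : Prop :=
  H.HC x T ∧ H.HC (fun U => star (x U)) (star T)

theorem Cv.one : H.Cv (fun _ => 1) 1 := ⟨HC.one, HC.one⟩

theorem Cv.zero : H.Cv (fun _ => 0) 0 := ⟨HC.zero, HC.zero⟩

theorem Cv.add {x y : ∀ U : FS D V, H.BU U} {S T : H.adj} (hx : H.Cv x S) (hy : H.Cv y T) :
    H.Cv (fun U => x U + y U) (S + T) := ⟨hx.1.add hy.1, hx.2.add hy.2⟩

theorem Cv.neg {x : ∀ U : FS D V, H.BU U} {S : H.adj} (hx : H.Cv x S) :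
    H.Cv (fun U => - x U) (-S) := ⟨hx.1.neg, hx.2.neg⟩

theorem Cv.mul {x y : ∀ U : FS D V, H.BU U} {S T : H.adj} (hx : H.Cv x S) (hy : H.Cv y T) :
    H.Cv (fun U => x U * y U) (S * T) := ⟨hx.1.mul hy.1, hy.2.mul hx.2⟩

theorem Cv.star {x : ∀ U : FS D V, H.BU U} {S : H.adj} (hx : H.Cv x S) :
    H.Cv (fun U => Star.star (x U)) (Star.star S) := ⟨hx.2, hx.1⟩

theorem Cv.unique {x : ∀ U : FS D V, H.BU U} {S T : H.adj} (hS : H.Cv x S) (hT : H.Cv x T) :
    S = T := hS.1.unique hT.1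

theorem cmp_cv (T : H.adj) : H.Cv (H.cmp T) T := ⟨cmp_conv T, cmp_conv (Star.star T)⟩

theorem mp_left {S : Type v} [Ring S] [StarRing S] {x y : S} (h : IsMP x y) :
    y * x * Star.star x = Star.star x := by
  rw [← h.2.2.2, ← star_mul, ← mul_assoc, h.1]

theorem mp_right {S : Type v} [Ring S] [StarRing S] {x y : S} (h : IsMP x y) :
    y * Star.star y * Star.star x = y := by
  rw [mul_assoc, ← star_mul, h.2.2.1, ← mul_assoc, h.2.1]

/-- Convergence passes to Moore-Penrose inverses. -/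
theorem HC.mp {x y : ∀ U : FS D V, H.BU U} {A A' : H.adj} (hx : H.Cv x A)
    (hxy : ∀ U, IsMP (x U) (y U)) (hA : IsMP A A') : H.HC y A' := by
  intro v
  have e1 : H.ap (Star.star A) (H.ap (Star.star A') (H.ap A' v)) = H.ap A' v := by
    have h1 : Star.star A * Star.star A' * A' = A' := by
      rw [← star_mul, hA.2.2.2, hA.2.1]
    rw [← ap_mul, ← ap_mul, h1]
  have e2 : H.ap (Star.star A) (v - H.ap A (H.ap A' v)) = 0 := by
    have h1 : Star.star A * (1 + -(A * A')) = 0 := by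
      have h2 : Star.star A * (A * A') = Star.star A := by
        rw [← hA.2.2.1, ← star_mul, hA.1]
      rw [mul_add, mul_neg, h2, mul_one, add_neg_cancel]
    have h3 : v - H.ap A (H.ap A' v) = H.ap (1 + -(A * A')) v := by
      rw [ap_add, ap_neg, ap_mul, ap_one, sub_eq_add_neg]
    rw [h3, ← ap_mul, h1, ap_zero]
  filter_upwards [ev_mem v, hx.1 (H.ap A' v), hx.2 (H.ap (Star.star A') (H.ap A' v)),
    hx.2 (v - H.ap A (H.ap A' v))] with U hv h2 h3 h4
  obtain ⟨hw, h2⟩ := h2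
  obtain ⟨hz, h3⟩ := h3
  obtain ⟨hu, h4⟩ := h4
  refine ⟨hv, ?_⟩
  rw [e1] at h3
  rw [e2] at h4
  have g3 : H.apU (Star.star (x U)) ⟨_, hz⟩ = ⟨H.ap A' v, hw⟩ := Subtype.ext h3
  have g4 : H.apU (Star.star (x U)) ⟨_, hu⟩ = 0 := Subtype.ext h4
  have g5 : (⟨v, hv⟩ : U.1) = H.apU (x U) ⟨H.ap A' v, hw⟩ + ⟨_, hu⟩ := by
    apply Subtype.ext
    show v = ((H.apU (x U) ⟨H.ap A' v, hw⟩ : U.1) : V) + (v - H.ap A (H.ap A' v))
    rw [h2]
    abel
  have g6 : H.apU (y U) (H.apU (x U) ⟨H.ap A' v, hw⟩) = ⟨H.ap A' v, hw⟩ := by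
    have h5 : ∀ t : U.1, H.apU (y U) (H.apU (x U) (H.apU (Star.star (x U)) t)) =
        H.apU (Star.star (x U)) t := by
      intro t
      rw [← apU_mul, ← apU_mul, mp_left (hxy U)]
    have h6 := h5 ⟨_, hz⟩
    rw [g3] at h6
    exact h6
  have g7 : H.apU (y U) ⟨_, hu⟩ = 0 := by
    rw [← mp_right (hxy U), apU_mul, g4, apU_map_zero]
  rw [g5, apU_map_add, g6, g7, add_zero]

theorem Cv.mp {x y : ∀ U : FS D V, H.BU U} {A A' : H.adj} (hx : H.Cv x A)
    (hxy : ∀ U, IsMP (x U) (y U)) (hA : IsMP A A') : H.Cv y A' :=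
  ⟨HC.mp hx hxy hA, HC.mp hx.star (fun U => (hxy U).star) hA.star⟩

end HForm

end

end Pool.Agent.H7.NC
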