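import Mathlib
import Pool.Agent.H7.NC.Herm

/-!
# Subdirectly irreducible quotients of *-regular rings are algebras over fields
-/

namespace Pool.Agent.H7.NC

set_option linter.unusedSectionVars false

universe u v

noncomputable section

section StarIdeal

variable {R : Type u} [Ring R] [StarRing R]

theorem star_mem_ideal (hreg : ∀ x : R, ∃ y, x * y * x = x)
    (hprop : ∀ x : R, star x * x = 0 → x = 0) (J : Ideal R) [J.IsTwoSided] {a : R}
    (ha : a ∈ J) : star a ∈ J := by
  obtain ⟨x, hx⟩ := exists_isMP hreg hprop a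
  have h1 : star a = x * (a * star a) := by
    have h2 : star (a * x * a) = star a := by rw [hx.1]
    rw [mul_assoc, star_mul, hx.2.2.2] at h2
    rw [← mul_assoc, h2]
  rw [h1]
  exact J.mul_mem_left _ (J.mul_mem_right _ ha)

theorem quot_proper (hreg : ∀ x : R, ∃ y, x * y * x = x)
    (hprop : ∀ x : R, star x * x = 0 → x = 0) (J : Ideal R) [J.IsTwoSided] {a : R}
    (ha : star a * a ∈ J) : a ∈ J := by
  obtain ⟨x, hx⟩ := exists_isMP hreg hprop a
  have h1 : a = star x * (star a * a) := by
    calc a = star (a * x) * a := by rw [hx.2.2.1, hx.1]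
      _ = star x * (star a * a) := by rw [star_mul, mul_assoc]
  rw [h1]
  exact J.mul_mem_left _ ha

/-- The quotient by a two-sided ideal closed under the involution. -/
@[reducible] def quotStar (J : Ideal R) [J.IsTwoSided] (hJ : ∀ a ∈ J, star a ∈ J) :
    StarRing (R ⧸ J) :=
  let g : R ⧸ J →+* (R ⧸ J)ᵐᵒᵖ := Ideal.Quotient.lift J
    ((RingHom.op (Ideal.Quotient.mk J)).comp (starRingEquiv : R ≃+* Rᵐᵒᵖ).toRingHom)
    (fun a ha => by
      show MulOpposite.op (Ideal.Quotient.mk J (star a)) = 0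
      rw [Ideal.Quotient.eq_zero_iff_mem.2 (hJ a ha)]
      rfl)
  { star := fun x => (g x).unop
    star_involutive := by
      intro x
      obtain ⟨a, rfl⟩ := Ideal.Quotient.mk_surjective x
      show Ideal.Quotient.mk J (star (star a)) = _
      rw [star_star]
    star_mul := by
      intro x y
      show (g (x * y)).unop = (g y).unop * (g x).unop
      rw [map_mul, MulOpposite.unop_mul]
    star_add := by
      intro x y
      show (g (x + y)).unop = (g x).unop + (g y).unop
      rw [map_add, MulOpposite.unop_add] }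

end StarIdeal

/-- The ring of symmetric central elements. -/
def symCenter (Q : Type u) [Ring Q] [StarRing Q] : Subring Q where
  carrier := {c | (∀ x, c * x = x * c) ∧ star c = c}
  mul_mem' := by
    rintro a b ⟨h1, h2⟩ ⟨h3, h4⟩
    refine ⟨fun x => ?_, ?_⟩
    · rw [mul_assoc, h3, ← mul_assoc, h1, mul_assoc]
    · rw [star_mul, h2, h4, h3]
  one_mem' := ⟨fun x => by rw [one_mul, mul_one], star_one _⟩
  add_mem' := by
    rintro a b ⟨h1, h2⟩ ⟨h3, h4⟩
    exact ⟨fun x => by rw [add_mul, mul_add, h1, h3], by rw [star_add, h2, h4]⟩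
  zero_mem' := ⟨fun x => by rw [zero_mul, mul_zero], star_zero _⟩
  neg_mem' := by
    rintro a ⟨h1, h2⟩
    exact ⟨fun x => by rw [neg_mul, mul_neg, h1], by rw [star_neg, h2]⟩

theorem symCenter_isField (Q : Type u) [Ring Q] [StarRing Q] (hreg : ∀ x : Q, ∃ y, x * y * x = x)
    (d : Q) (hd : d ≠ 0) (hmin : ∀ c : Q, (∀ x, c * x = x * c) → c ≠ 0 → ∃ r, d = c * r) :
    IsField (symCenter Q) := by
  refine ⟨⟨0, 1, ?_⟩, ?_, ?_⟩
  · intro h
    have h1 : (0 : Q) = 1 := congrArg Subtype.val h
    apply hd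
    rw [← mul_one d, ← h1, mul_zero]
  · intro a b
    exact Subtype.ext (a.2.1 b)
  · rintro ⟨c, hc, hcs⟩ hc0
    have hc0' : c ≠ 0 := fun h => hc0 (Subtype.ext h)
    obtain ⟨y, hy⟩ := hreg c
    have hcen : ∀ x, (c * y) * x = x * (c * y) := by
      intro x
      have e1 : x * (c * y) = (c * y) * x * (c * y) := by
        calc x * (c * y) = (c * x) * y := by rw [← mul_assoc, ← hc x]
          _ = ((c * y * c) * x) * y := by rw [hy]
          _ = (c * y) * (c * x) * y := by simp only [mul_assoc]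
          _ = (c * y) * (x * c) * y := by rw [hc x]
          _ = (c * y) * x * (c * y) := by simp only [mul_assoc]
      have e2 : (c * y) * x = (c * y) * x * (c * y) := by
        calc (c * y) * x = y * (c * x) := by rw [hc y, mul_assoc]
          _ = y * (x * c) := by rw [hc x]
          _ = y * (x * (c * y * c)) := by rw [hy]
          _ = y * (x * c) * (y * c) := by simp only [mul_assoc]
          _ = y * (c * x) * (y * c) := by rw [hc x]
          _ = (y * c) * x * (y * c) := by simp only [mul_assoc]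
          _ = (c * y) * x * (c * y) := by rw [hc y]
      rw [e1]
      exact e2
    have h1 : c * y = 1 := by
      by_contra hne
      have h2 : 1 - c * y ≠ 0 := fun h => hne (sub_eq_zero.1 h).symm
      obtain ⟨r, hr⟩ := hmin (1 - c * y) (fun x => by
        rw [sub_mul, mul_sub, one_mul, mul_one, hcen]) h2
      obtain ⟨r', hr'⟩ := hmin c hc hc0'
      apply hd
      have e1 : (c * y) * d = d := by
        rw [hr', ← mul_assoc, hy]
      have e2 : (c * y) * (1 - c * y) = 0 := by
        rw [mul_sub, mul_one, ← mul_assoc, hy, sub_self]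
      rw [← e1, hr, ← mul_assoc, e2, zero_mul]
    have hyc : ∀ x, y * x = x * y := by
      intro x
      calc y * x = y * x * (c * y) := by rw [h1, mul_one]
        _ = y * (x * c) * y := by simp only [mul_assoc]
        _ = y * (c * x) * y := by rw [hc x]
        _ = (y * c) * x * y := by simp only [mul_assoc]
        _ = x * y := by rw [← hc y, h1, one_mul]
    have hys : star y = y := by
      have e1 : star y * c = 1 := by
        have := congrArg star h1
        rwa [star_mul, hcs, star_one] at this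
      calc star y = star y * (c * y) := by rw [h1, mul_one]
        _ = y := by rw [← mul_assoc, e1, one_mul]
    exact ⟨⟨y, hyc, hys⟩, Subtype.ext h1⟩

/-- Every nonzero element of a *-regular ring survives in a quotient which is an algebra over a
field with linear involution. -/
theorem exists_quotient (R : Type u) [Ring R] [StarRing R] (hreg : ∀ x : R, ∃ y, x * y * x = x)
    (hprop : ∀ x : R, star x * x = 0 → x = 0) (d : R) (hd : d ≠ 0) :
    ∃ (Q : Type u) (_ : Ring Q) (_ : StarRing Q) (k : Type u) (_ : Field k) (_ : Algebra k Q)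
      (f : R →+* Q), (∀ x, f (star x) = star (f x)) ∧
        (∀ x : Q, star x * x = 0 → x = 0) ∧
        (∀ (c : k) (x : Q), star (c • x) = c • star x) ∧ f d ≠ 0 := by
  obtain ⟨J, -, hJ⟩ := zorn_le_nonempty₀ {J : Ideal R | J.IsTwoSided ∧ d ∉ J} (by
    intro c hcS hchain y hy
    refine ⟨sSup c, ⟨⟨?_⟩, ?_⟩, fun z hz => le_sSup hz⟩
    · intro a b ha
      rw [Submodule.mem_sSup_of_directed ⟨y, hy⟩ hchain.directedOn] at ha ⊢
      obtain ⟨I, hI, haI⟩ := ha
      have := (hcS hI).1
      exact ⟨I, hI, Ideal.mul_mem_right b I haI⟩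
    · intro hds
      rw [Submodule.mem_sSup_of_directed ⟨y, hy⟩ hchain.directedOn] at hds
      obtain ⟨I, hI, hdI⟩ := hds
      exact (hcS hI).2 hdI) ⊥ ⟨inferInstance, fun h => hd (Submodule.mem_bot R |>.1 h)⟩
  obtain ⟨⟨hJ2, hdJ⟩, hmax⟩ := hJ
  have hJstar : ∀ a ∈ J, star a ∈ J := fun a ha => star_mem_ideal hreg hprop J ha
  let iS : StarRing (R ⧸ J) := quotStar J hJstar
  have hstar : ∀ a : R, Ideal.Quotient.mk J (star a) = star (Ideal.Quotient.mk J a) :=
    fun a => rfl
  have hregQ : ∀ x : R ⧸ J, ∃ y, x * y * x = x := by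
    intro x
    obtain ⟨a, rfl⟩ := Ideal.Quotient.mk_surjective x
    obtain ⟨b, hb⟩ := hreg a
    exact ⟨Ideal.Quotient.mk J b, by rw [← map_mul, ← map_mul, hb]⟩
  have hpropQ : ∀ x : R ⧸ J, star x * x = 0 → x = 0 := by
    intro x hx
    obtain ⟨a, rfl⟩ := Ideal.Quotient.mk_surjective x
    rw [← hstar, ← map_mul, Ideal.Quotient.eq_zero_iff_mem] at hx
    exact Ideal.Quotient.eq_zero_iff_mem.2 (quot_proper hreg hprop J hx)
  have hdQ : Ideal.Quotient.mk J d ≠ 0 := fun h => hdJ (Ideal.Quotient.eq_zero_iff_mem.1 h)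
  have hmin : ∀ c : R ⧸ J, (∀ x, c * x = x * c) → c ≠ 0 →
      ∃ r, Ideal.Quotient.mk J d = c * r := by
    intro c hc hc0
    let J' : Ideal R :=
      { carrier := {x | ∃ r, Ideal.Quotient.mk J x = c * r}
        add_mem' := by
          rintro a b ⟨r, hr⟩ ⟨s, hs⟩
          exact ⟨r + s, by rw [map_add, hr, hs, mul_add]⟩
        zero_mem' := ⟨0, by rw [map_zero, mul_zero]⟩
        smul_mem' := by
          rintro a b ⟨r, hr⟩
          refine ⟨Ideal.Quotient.mk J a * r, ?_⟩
          rw [smul_eq_mul, map_mul, hr, ← mul_assoc, ← hc, mul_assoc] }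
    have h1 : J'.IsTwoSided := ⟨by
      rintro a b ⟨r, hr⟩
      exact ⟨r * Ideal.Quotient.mk J b, by rw [map_mul, hr, mul_assoc]⟩⟩
    by_contra hcon
    have h2 : d ∉ J' := hcon
    have h3 : J ≤ J' := by
      intro a ha
      exact ⟨0, by rw [Ideal.Quotient.eq_zero_iff_mem.2 ha, mul_zero]⟩
    have h4 : J' ≤ J := hmax ⟨h1, h2⟩ h3
    obtain ⟨a, ha⟩ := Ideal.Quotient.mk_surjective c
    apply hc0
    rw [← ha]
    apply Ideal.Quotient.eq_zero_iff_mem.2
    apply h4
    exact ⟨1, by rw [ha, mul_one]⟩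
  have hF := symCenter_isField (R ⧸ J) hregQ _ hdQ hmin
  let iF : Field (symCenter (R ⧸ J)) := hF.toField
  let g : symCenter (R ⧸ J) →+* R ⧸ J := (symCenter (R ⧸ J)).subtype
  let iA : Algebra (symCenter (R ⧸ J)) (R ⧸ J) := g.toAlgebra' (fun c x => c.2.1 x)
  refine ⟨R ⧸ J, inferInstance, iS, symCenter (R ⧸ J), iF, iA, Ideal.Quotient.mk J, hstar,
    hpropQ, ?_, hdQ⟩
  intro c x
  show star ((c : R ⧸ J) * x) = (c : R ⧸ J) * star x
  rw [star_mul, c.2.2, c.2.1]

end

end Pool.Agent.H7.NC
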