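import Mathlib
import Pool.Agent.H7.NC.Aniso
import Pool.Agent.H7.NC.Herm

/-!
# Algebras with proper involution act faithfully on anisotropic hermitian spaces
-/

namespace Pool.Agent.H7.NC

open Matrix TensorProduct

set_option linter.unusedSectionVars false

universe u v

noncomputable section

variable {k : Type u} [Field k] {R : Type u} [Ring R] [StarRing R] [Algebra k R]

/-- The involution as a linear map. -/
def starL (hs : ∀ (c : k) (x : R), star (c • x) = c • star x) : R →ₗ[k] R where
  toFun := star
  map_add' := star_add
  map_smul' := hs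

/-- The involution on `k × R`. -/
def sigW (hs : ∀ (c : k) (x : R), star (c • x) = c • star x) : (k × R) →ₗ[k] (k × R) :=
  LinearMap.prodMap LinearMap.id (starL hs)

theorem sigW_sigW (hs : ∀ (c : k) (x : R), star (c • x) = c • star x) (w : k × R) :
    sigW hs (sigW hs w) = w := by
  show (w.1, star (star w.2)) = w
  rw [star_star]

section

variable {hs : ∀ (c : k) (x : R), star (c • x) = c • star x}
  {D : Type u} [DivisionRing D] [StarRing D] {φ : k →+* D} {ρ : (k × R) →+ D}
  (h : FF ((1, 0) : k × R) (sigW hs) φ ρ) [Algebra k D]

/-- The generic element attached to an element of `R`. -/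
def gen (ρ : (k × R) →+ D) (a : R) : D := ρ (0, a)

theorem gen_add (a b : R) : gen ρ (a + b) = gen ρ a + gen ρ b := by
  rw [gen, gen, gen, ← map_add]
  congr 1
  rw [Prod.mk_add_mk, add_zero]

include h in
theorem gen_smul (c : k) (a : R) : gen ρ (c • a) = φ c * gen ρ a := by
  rw [gen, gen, ← h.smul, Prod.smul_mk, smul_zero]

include h in
theorem star_gen (a : R) : star (gen ρ a) = gen ρ (star a) := by
  rw [gen, gen, h.star_rho]
  rfl

include h in
theorem phi_star (c : k) (t : D) : star (φ c * t) = φ c * star t := by
  rw [star_mul, h.star_phi, ← h.comm]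

variable (hφ : ∀ c, algebraMap k D c = φ c)

/-- The form, for fixed pure second argument. -/
def form1 (t : D) (b : R) : D ⊗[k] R →ₗ[k] D :=
  TensorProduct.lift (LinearMap.mk₂ k (fun s a => s * gen ρ (star a * b) * star t)
    (by
      intro s s' a
      rw [add_mul, add_mul])
    (by
      intro c s a
      rw [smul_mul_assoc, smul_mul_assoc])
    (by
      intro s a a'
      rw [star_add, add_mul, gen_add, mul_add, add_mul])
    (by
      intro c s a
      rw [hs, smul_mul_assoc, gen_smul h, ← mul_assoc, ← h.comm, mul_assoc (φ c),
        mul_assoc (φ c), Algebra.smul_def, hφ]))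

theorem form1_tmul (t : D) (b : R) (s : D) (a : R) :
    form1 h hφ t b (s ⊗ₜ a) = s * gen ρ (star a * b) * star t := rfl

/-- The form. -/
def form2 : D ⊗[k] R →ₗ[k] D ⊗[k] R →ₗ[k] D :=
  TensorProduct.lift (LinearMap.mk₂ k (fun t b => form1 h hφ t b)
    (by
      intro t t' b
      ext s a
      simp only [AlgebraTensorModule.curry_apply, curry_apply, LinearMap.coe_restrictScalars,
        LinearMap.add_apply, form1_tmul, star_add, mul_add])
    (by
      intro c t b
      ext s a
      simp only [AlgebraTensorModule.curry_apply, curry_apply, LinearMap.coe_restrictScalars,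
        LinearMap.smul_apply, form1_tmul]
      rw [Algebra.smul_def, Algebra.smul_def, hφ, phi_star h, ← mul_assoc, ← h.comm,
        mul_assoc (φ c)])
    (by
      intro t b b'
      ext s a
      simp only [AlgebraTensorModule.curry_apply, curry_apply, LinearMap.coe_restrictScalars,
        LinearMap.add_apply, form1_tmul, mul_add, gen_add, add_mul])
    (by
      intro c t b
      ext s a
      simp only [AlgebraTensorModule.curry_apply, curry_apply, LinearMap.coe_restrictScalars,
        LinearMap.smul_apply, form1_tmul]
      rw [mul_smul_comm, gen_smul h, ← mul_assoc, ← h.comm, mul_assoc (φ c), mul_assoc (φ c),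
        Algebra.smul_def, hφ, mul_assoc]))

theorem form2_tmul (t : D) (b : R) (s : D) (a : R) :
    form2 h hφ (t ⊗ₜ b) (s ⊗ₜ a) = s * gen ρ (star a * b) * star t := rfl

theorem exists_repr (x : D ⊗[k] R) : ∃ (m : ℕ) (c : Fin m → D) (a : Fin m → R),
    LinearIndependent k a ∧ x = ∑ i, c i ⊗ₜ a i := by
  classical
  let b := Module.Basis.ofVectorSpace k R
  let B := b.baseChange D
  let s := (B.repr x).support
  refine ⟨s.card, fun i => B.repr x (s.equivFin.symm i), fun i => b (s.equivFin.symm i), ?_, ?_⟩
  · exact b.linearIndependent.comp (fun i : Fin s.card => ((s.equivFin.symm i : s) : _))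
      (Subtype.val_injective.comp s.equivFin.symm.injective)
  · have h1 := B.linearCombination_repr x
    rw [Finsupp.linearCombination_apply, Finsupp.sum] at h1
    conv_lhs => rw [← h1]
    rw [← Finset.sum_coe_sort]
    refine Fintype.sum_equiv s.equivFin _ _ fun i => ?_
    beta_reduce
    rw [Equiv.symm_apply_apply, Module.Basis.baseChange_apply, TensorProduct.smul_tmul',
      smul_eq_mul, mul_one]

include h in
theorem form_aniso (hprop : ∀ x : R, star x * x = 0 → x = 0) (x : D ⊗[k] R)
    (hx : form2 h hφ x x = 0) : x = 0 := by
  obtain ⟨m, c, a, ha, rfl⟩ := exists_repr x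
  have h1 : c = 0 := by
    apply aniso h (sigW_sigW hs) (of fun i j => (0, star (a i) * a j))
    · intro i j
      rw [of_apply, of_apply]
      show _ = ((0 : k), star (star (a j) * a i))
      rw [star_mul, star_star]
    · intro z hz
      have h2 : star (∑ i, z i • a i) * (∑ j, z j • a j) = 0 := by
        rw [pr_apply] at hz
        have h3 := congrArg Prod.snd hz
        simp only [of_apply, Prod.snd_sum, Prod.smul_snd, Prod.snd_zero] at h3
        simp only [star_sum, hs, Finset.sum_mul, Finset.mul_sum, smul_mul_assoc, mul_smul_comm,
          Finset.smul_sum, smul_smul]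
        rw [Finset.sum_comm]
        refine Eq.trans ?_ h3
        rw [Finset.sum_comm]
        rw [Finset.sum_comm]
        refine Finset.sum_congr rfl fun i _ => Finset.sum_congr rfl fun j _ => ?_
        rw [mul_comm (z _) (z _)]
      have h3 := hprop _ h2
      funext i
      exact Fintype.linearIndependent_iff.1 ha z h3 i
    · simp only [map_sum, LinearMap.sum_apply, form2_tmul] at hx
      exact hx
  simp [h1]

/-- The hermitian space. -/
def hform (hprop : ∀ x : R, star x * x = 0 → x = 0) : HForm D (D ⊗[k] R) where
  B x y := form2 h hφ y x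
  add_left x y z := map_add _ _ _
  smul_left c x y := by
    induction x using TensorProduct.induction_on with
    | zero => simp
    | add x x' hx hx' => rw [smul_add, map_add, map_add, mul_add, hx, hx']
    | tmul s a =>
      induction y using TensorProduct.induction_on with
      | zero => simp
      | add y y' hy hy' =>
        rw [map_add, LinearMap.add_apply, LinearMap.add_apply, mul_add, hy, hy']
      | tmul t b =>
        rw [TensorProduct.smul_tmul', form2_tmul, form2_tmul, smul_eq_mul]
        simp only [mul_assoc]
  symm x y := by
    induction x using TensorProduct.induction_on with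
    | zero => simp
    | add x x' hx hx' => rw [map_add, star_add, map_add, LinearMap.add_apply, hx, hx']
    | tmul s a =>
      induction y using TensorProduct.induction_on with
      | zero => simp
      | add y y' hy hy' =>
        rw [map_add, LinearMap.add_apply, star_add, map_add, hy, hy']
      | tmul t b =>
        rw [form2_tmul, form2_tmul, star_mul, star_mul, star_star, star_gen h, star_mul,
          star_star, mul_assoc]
  aniso x hx := form_aniso h hφ hprop x hx

theorem hform_B (hprop : ∀ x : R, star x * x = 0 → x = 0) (s : D) (a : R) (t : D) (b : R) :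
    (hform h hφ hprop).B (s ⊗ₜ a) (t ⊗ₜ b) = s * gen ρ (star a * b) * star t := rfl

/-- The action. -/
def act (D : Type u) [DivisionRing D] [Algebra k D] (r : R) : Module.End D (D ⊗[k] R) :=
  LinearMap.baseChange D (LinearMap.mulLeft k r)

theorem act_tmul (r : R) (s : D) (a : R) : act D r (s ⊗ₜ[k] a) = s ⊗ₜ (r * a) := rfl

theorem act_adj (hprop : ∀ x : R, star x * x = 0 → x = 0) (r : R) (x y : D ⊗[k] R) :
    (hform h hφ hprop).B (act D r x) y = (hform h hφ hprop).B x (act D (star r) y) := by
  induction x using TensorProduct.induction_on with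
  | zero => rw [map_zero, (hform h hφ hprop).zero_left, (hform h hφ hprop).zero_left]
  | add x x' hx hx' =>
    rw [map_add, (hform h hφ hprop).add_left, (hform h hφ hprop).add_left, hx, hx']
  | tmul s a =>
    induction y using TensorProduct.induction_on with
    | zero => rw [map_zero, (hform h hφ hprop).zero_right, (hform h hφ hprop).zero_right]
    | add y y' hy hy' =>
      rw [map_add, (hform h hφ hprop).add_right, (hform h hφ hprop).add_right, hy, hy']
    | tmul t b =>
      rw [act_tmul, act_tmul, hform_B, hform_B, star_mul, mul_assoc (star a)]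

theorem act_ext {f g : Module.End D (D ⊗[k] R)} (hfg : ∀ s a, f (s ⊗ₜ a) = g (s ⊗ₜ a)) :
    f = g := by
  apply LinearMap.ext
  intro x
  induction x using TensorProduct.induction_on with
  | zero => rw [map_zero, map_zero]
  | add x y hx hy => rw [map_add, map_add, hx, hy]
  | tmul s a => exact hfg s a

/-- The representation. -/
def repr (hprop : ∀ x : R, star x * x = 0 → x = 0) : R →+* (hform h hφ hprop).adj where
  toFun r := ⟨(act D r, MulOpposite.op (act D (star r))), act_adj h hφ hprop r⟩
  map_one' := by
    apply (hform h hφ hprop).adj_ext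
    intro x
    show act D (1 : R) x = (1 : Module.End D (D ⊗[k] R)) x
    congr 1
    apply act_ext
    intro s a
    rw [act_tmul, one_mul]
    rfl
  map_mul' r r' := by
    apply (hform h hφ hprop).adj_ext
    intro x
    show act D (r * r') x = (act D r * act D r' : Module.End D (D ⊗[k] R)) x
    congr 1
    apply act_ext
    intro s a
    show _ = act D r (act D r' (s ⊗ₜ a))
    rw [act_tmul, act_tmul, act_tmul, mul_assoc]
  map_zero' := by
    apply (hform h hφ hprop).adj_ext
    intro x
    show act D (0 : R) x = (0 : Module.End D (D ⊗[k] R)) x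
    congr 1
    apply act_ext
    intro s a
    rw [act_tmul, zero_mul, TensorProduct.tmul_zero]
    rfl
  map_add' r r' := by
    apply (hform h hφ hprop).adj_ext
    intro x
    show act D (r + r') x = (act D r + act D r' : Module.End D (D ⊗[k] R)) x
    congr 1
    apply act_ext
    intro s a
    show _ = act D r (s ⊗ₜ a) + act D r' (s ⊗ₜ a)
    rw [act_tmul, act_tmul, act_tmul, add_mul, TensorProduct.tmul_add]

theorem repr_star (hprop : ∀ x : R, star x * x = 0 → x = 0) (r : R) :
    repr h hφ hprop (star r) = star (repr h hφ hprop r) := by
  apply (hform h hφ hprop).adj_ext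
  intro x
  rfl

theorem repr_injective (hprop : ∀ x : R, star x * x = 0 → x = 0) :
    Function.Injective (repr h hφ hprop) := by
  rw [injective_iff_map_eq_zero]
  intro r hr
  have h1 : act D r ((1 : D) ⊗ₜ[k] (1 : R)) = 0 := by
    have : (hform h hφ hprop).ap (repr h hφ hprop r) ((1 : D) ⊗ₜ[k] (1 : R)) = 0 := by
      rw [hr]
      rfl
    exact this
  rw [act_tmul, mul_one] at h1
  by_contra hr0
  obtain ⟨f, hf⟩ := LinearMap.exists_leftInverse_of_injective (LinearMap.toSpanSingleton k R r)
    (LinearMap.ker_toSpanSingleton k hr0)
  have hfr : f r = 1 := by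
    have := LinearMap.congr_fun hf 1
    simpa using this
  have h2 := congrArg (LinearMap.baseChange D f) h1
  rw [map_zero, LinearMap.baseChange_tmul, hfr] at h2
  have h3 := congrArg (TensorProduct.rid k D) h2
  simp at h3

end

/-- **Representation theorem.**  An algebra with a proper linear involution over a field acts
faithfully on an anisotropic hermitian space. -/
theorem exists_rep (k R : Type u) [Field k] [Ring R] [StarRing R] [Algebra k R]
    (hs : ∀ (c : k) (x : R), star (c • x) = c • star x)
    (hprop : ∀ x : R, star x * x = 0 → x = 0) :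
    ∃ (D V : Type u) (_ : DivisionRing D) (_ : StarRing D) (_ : AddCommGroup V) (_ : Module D V)
      (H : HForm D V) (π : R →+* H.adj), (∀ x, π (star x) = star (π x)) ∧
        Function.Injective π := by
  obtain ⟨D, i1, i2, φ, ρ, h⟩ := exists_FF (e := ((1, 0) : k × R)) (by simp) (sigW hs)
    (sigW_sigW hs) (by
      show ((1 : k), star (0 : R)) = (1, 0)
      rw [star_zero])
  let : Algebra k D := φ.toAlgebra' h.comm
  exact ⟨D, D ⊗[k] R, i1, i2, inferInstance, inferInstance, hform h (fun _ => rfl) hprop,
    repr h (fun _ => rfl) hprop, repr_star h _ hprop, repr_injective h _ hprop⟩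

end

end Pool.Agent.H7.NC
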